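import Mathlib

/-!
# Evaluation of multivariate polynomials on Euclidean space
-/

namespace Pool.Agent.Lib.MP_8d00da_gt.h30

open MvPolynomial Finset

variable {n : ℕ}

/-- Evaluation of a polynomial at a point of Euclidean space. -/
noncomputable def ev (P : MvPolynomial (Fin n) ℝ) (a : EuclideanSpace ℝ (Fin n)) : ℝ :=
  MvPolynomial.eval (fun i => a i) P

lemma ev_add (P Q : MvPolynomial (Fin n) ℝ) (a : EuclideanSpace ℝ (Fin n)) :
    ev (P + Q) a = ev P a + ev Q a := by simp [ev]

lemma ev_sub (P Q : MvPolynomial (Fin n) ℝ) (a : EuclideanSpace ℝ (Fin n)) :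
    ev (P - Q) a = ev P a - ev Q a := by simp [ev]

lemma ev_neg (P : MvPolynomial (Fin n) ℝ) (a : EuclideanSpace ℝ (Fin n)) :
    ev (-P) a = -ev P a := by simp [ev]

lemma ev_mul (P Q : MvPolynomial (Fin n) ℝ) (a : EuclideanSpace ℝ (Fin n)) :
    ev (P * Q) a = ev P a * ev Q a := by simp [ev]

lemma ev_smul (c : ℝ) (P : MvPolynomial (Fin n) ℝ) (a : EuclideanSpace ℝ (Fin n)) :
    ev (c • P) a = c * ev P a := by simp [ev, MvPolynomial.smul_eval]

lemma ev_zero (a : EuclideanSpace ℝ (Fin n)) : ev (0 : MvPolynomial (Fin n) ℝ) a = 0 := by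
  simp [ev]

lemma ev_one (a : EuclideanSpace ℝ (Fin n)) : ev (1 : MvPolynomial (Fin n) ℝ) a = 1 := by
  simp [ev]

lemma ev_C (c : ℝ) (a : EuclideanSpace ℝ (Fin n)) : ev (C c) a = c := by simp [ev]

lemma ev_X (i : Fin n) (a : EuclideanSpace ℝ (Fin n)) : ev (X i) a = a i := by simp [ev]

lemma ev_sum {ι : Type*} (s : Finset ι) (f : ι → MvPolynomial (Fin n) ℝ)
    (a : EuclideanSpace ℝ (Fin n)) : ev (∑ i ∈ s, f i) a = ∑ i ∈ s, ev (f i) a := by
  simp [ev, map_sum]

lemma ev_contDiff (P : MvPolynomial (Fin n) ℝ) : ContDiff ℝ (⊤ : ℕ∞) (ev P) := by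
  induction P using MvPolynomial.induction_on with
  | C c => 
    have : ev (C c : MvPolynomial (Fin n) ℝ) = fun _ => c := by ext a; exact ev_C c a
    rw [this]; exact contDiff_const
  | add P Q hP hQ =>
    have : ev (P + Q) = fun a => ev P a + ev Q a := by ext a; exact ev_add P Q a
    rw [this]; exact hP.add hQ
  | mul_X P i hP =>
    have : ev (P * X i) = fun a => ev P a * a i := by ext a; rw [ev_mul, ev_X]
    rw [this]
    exact hP.mul (by fun_prop)

lemma ev_continuous (P : MvPolynomial (Fin n) ℝ) : Continuous (ev P) := (ev_contDiff P).continuous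

lemma ev_hasFDerivAt (P : MvPolynomial (Fin n) ℝ) (a : EuclideanSpace ℝ (Fin n)) :
    HasFDerivAt (ev P) (∑ i, ev (pderiv i P) a • (EuclideanSpace.proj i :
      EuclideanSpace ℝ (Fin n) →L[ℝ] ℝ)) a := by
  classical
  induction P using MvPolynomial.induction_on with
  | C c =>
    have : ev (C c : MvPolynomial (Fin n) ℝ) = fun _ => c := by ext a; exact ev_C c a
    rw [this]
    simp only [pderiv_C, ev_zero, zero_smul, Finset.sum_const_zero]
    exact hasFDerivAt_const c a
  | add P Q hP hQ =>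
    have : ev (P + Q) = fun a => ev P a + ev Q a := by ext a; exact ev_add P Q a
    rw [this]
    have h := hP.fun_add hQ
    simp only [map_add, ev_add, add_smul, Finset.sum_add_distrib]
    exact h
  | mul_X P i hP =>
    have : ev (P * X i) = fun a => ev P a * (EuclideanSpace.proj i :
      EuclideanSpace ℝ (Fin n) →L[ℝ] ℝ) a := by ext a; rw [ev_mul, ev_X]; rfl
    rw [this]
    have h := hP.fun_mul ((EuclideanSpace.proj i :
      EuclideanSpace ℝ (Fin n) →L[ℝ] ℝ).hasFDerivAt (x := a))
    refine h.congr_fderiv ?_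
    have h1 : ∀ j, ev (pderiv j (P * X i)) a
        = ev (pderiv j P) a * a i + ev P a * (if j = i then 1 else 0) := by
      intro j
      rw [pderiv_mul, ev_add, ev_mul, ev_mul, ev_X, pderiv_X, Pi.single_apply]
      by_cases hj : j = i
      · simp [hj, ev_one]
      · simp [hj, Ne.symm hj, ev_zero]
    simp only [h1, add_smul, Finset.sum_add_distrib]
    rw [add_comm]
    congr 1
    · rw [Finset.smul_sum]
      refine Finset.sum_congr rfl fun j _ => ?_
      rw [smul_smul, mul_comm]
      rfl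
    · simp

lemma ev_fderiv (P : MvPolynomial (Fin n) ℝ) (a w : EuclideanSpace ℝ (Fin n)) :
    fderiv ℝ (ev P) a w = ∑ i, ev (pderiv i P) a * w i := by
  rw [(ev_hasFDerivAt P a).fderiv]
  simp [ContinuousLinearMap.sum_apply]

end Pool.Agent.Lib.MP_8d00da_gt.h30
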