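import Mathlib

/-!
# The Fischer inner product on polynomials
-/

namespace Pool.Agent.Lib.MP_8d00da_gt.h30

open MvPolynomial Finset

variable {n : ℕ}

/-- The factorial weight of a multi-index. -/
noncomputable def wt (m : Fin n →₀ ℕ) : ℝ := ∏ j, ((m j).factorial : ℝ)

lemma wt_pos (m : Fin n →₀ ℕ) : 0 < wt m :=
  Finset.prod_pos fun j _ => by exact_mod_cast Nat.factorial_pos _

lemma wt_add_single (m : Fin n →₀ ℕ) (i : Fin n) :
    wt (m + Finsupp.single i 1) = wt m * (m i + 1) := by
  unfold wt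
  rw [← Finset.mul_prod_erase univ _ (Finset.mem_univ i),
    ← Finset.mul_prod_erase univ (fun j => ((m j).factorial : ℝ)) (Finset.mem_univ i)]
  have h1 : ∏ x ∈ univ.erase i, ((((m + Finsupp.single i 1 : Fin n →₀ ℕ) x).factorial : ℕ) : ℝ)
      = ∏ x ∈ univ.erase i, ((m x).factorial : ℝ) := by
    refine Finset.prod_congr rfl fun x hx => ?_
    have : x ≠ i := (Finset.mem_erase.1 hx).1
    simp [this]
  rw [h1]
  have h2 : (m + Finsupp.single i 1 : Fin n →₀ ℕ) i = m i + 1 := by simp
  rw [h2, Nat.factorial_succ]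
  push_cast
  ring

/-- The Fischer form as a function. -/
noncomputable def fform (P Q : MvPolynomial (Fin n) ℝ) : ℝ :=
  ∑ m ∈ P.support, wt m * coeff m P * coeff m Q

lemma fform_eq (P Q : MvPolynomial (Fin n) ℝ) (s : Finset (Fin n →₀ ℕ)) (hs : P.support ⊆ s) :
    fform P Q = ∑ m ∈ s, wt m * coeff m P * coeff m Q := by
  unfold fform
  refine Finset.sum_subset hs fun m _ hm => ?_
  rw [MvPolynomial.notMem_support_iff] at hm
  simp [hm]

lemma fform_comm (P Q : MvPolynomial (Fin n) ℝ) : fform P Q = fform Q P := by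
  classical
  rw [fform_eq P Q (P.support ∪ Q.support) Finset.subset_union_left,
    fform_eq Q P (P.support ∪ Q.support) Finset.subset_union_right]
  exact Finset.sum_congr rfl fun m _ => by ring

lemma fform_add_right (P Q Q' : MvPolynomial (Fin n) ℝ) :
    fform P (Q + Q') = fform P Q + fform P Q' := by
  unfold fform
  rw [← Finset.sum_add_distrib]
  exact Finset.sum_congr rfl fun m _ => by rw [coeff_add]; ring

lemma fform_smul_right (P Q : MvPolynomial (Fin n) ℝ) (c : ℝ) :
    fform P (c • Q) = c * fform P Q := by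
  unfold fform
  rw [Finset.mul_sum]
  exact Finset.sum_congr rfl fun m _ => by rw [coeff_smul, smul_eq_mul]; ring

/-- The Fischer inner product. -/
noncomputable def fi : MvPolynomial (Fin n) ℝ →ₗ[ℝ] MvPolynomial (Fin n) ℝ →ₗ[ℝ] ℝ :=
  LinearMap.mk₂ ℝ fform
    (fun P P' Q => by rw [fform_comm, fform_add_right, fform_comm Q P, fform_comm Q P'])
    (fun c P Q => by rw [fform_comm, fform_smul_right, fform_comm Q P]; rfl)
    fform_add_right (fun c P Q => by rw [fform_smul_right]; rfl)

lemma fi_apply (P Q : MvPolynomial (Fin n) ℝ) : fi P Q = fform P Q := rfl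

lemma fi_comm (P Q : MvPolynomial (Fin n) ℝ) : fi P Q = fi Q P := fform_comm P Q

lemma fi_nonneg (P : MvPolynomial (Fin n) ℝ) : 0 ≤ fi P P := by
  rw [fi_apply]
  exact Finset.sum_nonneg fun m _ => by
    rw [mul_assoc]; exact mul_nonneg (wt_pos m).le (mul_self_nonneg _)

lemma fi_pos {P : MvPolynomial (Fin n) ℝ} (h : P ≠ 0) : 0 < fi P P := by
  rw [fi_apply]
  refine Finset.sum_pos (fun m hm => ?_) ?_
  · rw [mul_assoc]
    refine mul_pos (wt_pos m) ?_
    have := MvPolynomial.mem_support_iff.1 hm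
    exact mul_self_pos.2 this
  · rwa [MvPolynomial.support_nonempty]

/-- Multiplication by a variable is adjoint to differentiation. -/
lemma fi_X_mul (i : Fin n) (P Q : MvPolynomial (Fin n) ℝ) :
    fi (X i * P) Q = fi P (pderiv i Q) := by
  classical
  rw [fi_apply, fi_apply]
  unfold fform
  rw [MvPolynomial.support_X_mul, Finset.sum_map]
  refine Finset.sum_congr rfl fun m _ => ?_
  simp only [addLeftEmbedding_apply]
  rw [add_comm (Finsupp.single i 1) m, wt_add_single, coeff_pderiv,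
    mul_comm (X i) P, coeff_mul_X]
  ring

lemma fi_mul_X (i : Fin n) (P Q : MvPolynomial (Fin n) ℝ) :
    fi P (X i * Q) = fi (pderiv i P) Q := by
  rw [fi_comm, fi_X_mul, fi_comm]

/-- A quadratic form bounded below coefficientwise gives a bound in the Fischer form. -/
lemma fi_quad_ge (R : Fin n → Fin n → ℝ) (ρ : ℝ)
    (hR : ∀ x : Fin n → ℝ, ρ * ∑ j, x j ^ 2 ≤ ∑ j, ∑ k, R j k * (x j * x k))
    (F : Fin n → MvPolynomial (Fin n) ℝ) :
    ρ * ∑ j, fi (F j) (F j) ≤ ∑ j, ∑ k, R j k * fi (F j) (F k) := by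
  classical
  set s : Finset (Fin n →₀ ℕ) := Finset.univ.biUnion fun j => (F j).support with hs
  have hsub : ∀ j, (F j).support ⊆ s := fun j =>
    Finset.subset_biUnion_of_mem (fun j => (F j).support) (Finset.mem_univ j)
  have key : ∀ j k, fi (F j) (F k) = ∑ m ∈ s, wt m * (coeff m (F j) * coeff m (F k)) := by
    intro j k
    rw [fi_apply, fform_eq _ _ s (hsub j)]
    exact Finset.sum_congr rfl fun m _ => by ring
  have h1 : ρ * ∑ j, fi (F j) (F j) = ∑ m ∈ s, wt m * (ρ * ∑ j, (coeff m (F j)) ^ 2) := by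
    simp_rw [key]
    rw [Finset.sum_comm, Finset.mul_sum]
    refine Finset.sum_congr rfl fun m _ => ?_
    rw [← Finset.mul_sum]
    rw [show (∑ i, coeff m (F i) * coeff m (F i)) = ∑ j, (coeff m (F j)) ^ 2 from
      Finset.sum_congr rfl fun _ _ => by ring]
    ring
  have h2 : ∑ j, ∑ k, R j k * fi (F j) (F k)
      = ∑ m ∈ s, wt m * (∑ j, ∑ k, R j k * (coeff m (F j) * coeff m (F k))) := by
    simp_rw [key, Finset.mul_sum]
    rw [show (∑ x, ∑ x_1, ∑ i ∈ s, R x x_1 * (wt i * (coeff i (F x) * coeff i (F x_1))))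
      = ∑ x, ∑ i ∈ s, ∑ x_1, R x x_1 * (wt i * (coeff i (F x) * coeff i (F x_1))) from
      Finset.sum_congr rfl fun _ _ => Finset.sum_comm]
    rw [Finset.sum_comm]
    refine Finset.sum_congr rfl fun m _ => Finset.sum_congr rfl fun j _ =>
      Finset.sum_congr rfl fun k _ => ?_
    ring
  rw [h1, h2]
  refine Finset.sum_le_sum fun m _ => ?_
  exact mul_le_mul_of_nonneg_left (hR _) (wt_pos m).le

/-- Euler's identity in the Fischer form. -/
lemma fi_euler {P : MvPolynomial (Fin n) ℝ} {m : ℕ} (h : P.IsHomogeneous m) :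
    ∑ j, fi (pderiv j P) (pderiv j P) = m * fi P P := by
  have h1 : ∀ j, fi (pderiv j P) (pderiv j P) = fi (X j * pderiv j P) P := fun j => by
    rw [fi_X_mul]
  simp_rw [h1]
  rw [← LinearMap.sum_apply, ← map_sum, h.sum_X_mul_pderiv, map_nsmul]
  simp

end Pool.Agent.Lib.MP_8d00da_gt.h30
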