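import Mathlib
import Pool.Agent.Lib.MP_8d00da_gt.h30.Fischer

/-!
# The spectral bound on the top degree part
-/

namespace Pool.Agent.Lib.MP_8d00da_gt.h30

open MvPolynomial Finset

variable {n p q : ℕ}

/-- The structure constants `tr(eᵢᵀ eₖ eⱼᵀ eₗ)`. -/
noncomputable def cc (e : Fin n → Matrix (Fin p) (Fin q) ℝ) (i j k l : Fin n) : ℝ :=
  Matrix.trace ((e i).transpose * e k * (e j).transpose * e l)

/-- The matrix of `x ↦ x S + S' x`. -/
noncomputable def RR (e : Fin n → Matrix (Fin p) (Fin q) ℝ) (j l : Fin n) : ℝ :=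
  ∑ i, (cc e i j i l + cc e i j l i)

/-- The operator `P ↦ div(Q(a) ∇P)`. -/
noncomputable def A0 (e : Fin n → Matrix (Fin p) (Fin q) ℝ) :
    MvPolynomial (Fin n) ℝ →ₗ[ℝ] MvPolynomial (Fin n) ℝ :=
  ∑ i, ∑ j, ∑ k, ∑ l, cc e i j k l •
    ((pderiv i).toLinearMap ∘ₗ (LinearMap.mulLeft ℝ (X k)) ∘ₗ (LinearMap.mulLeft ℝ (X l)) ∘ₗ
      (pderiv j).toLinearMap)

lemma A0_apply (e : Fin n → Matrix (Fin p) (Fin q) ℝ) (P : MvPolynomial (Fin n) ℝ) :
    A0 e P = ∑ i, ∑ j, ∑ k, ∑ l, cc e i j k l • pderiv i (X k * (X l * pderiv j P)) := by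
  simp [A0, LinearMap.sum_apply]

/-- The Laplacian. -/
noncomputable def Lap : MvPolynomial (Fin n) ℝ →ₗ[ℝ] MvPolynomial (Fin n) ℝ :=
  ∑ i, ((pderiv i).toLinearMap ∘ₗ (pderiv i).toLinearMap)

lemma Lap_apply (P : MvPolynomial (Fin n) ℝ) : Lap P = ∑ i, pderiv i (pderiv i P) := by
  simp [Lap, LinearMap.sum_apply]

/-- The Euler operator. -/
noncomputable def Eul : MvPolynomial (Fin n) ℝ →ₗ[ℝ] MvPolynomial (Fin n) ℝ :=
  ∑ i, ((LinearMap.mulLeft ℝ (X i)) ∘ₗ (pderiv i).toLinearMap)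

lemma Eul_apply (P : MvPolynomial (Fin n) ℝ) : Eul P = ∑ i, X i * pderiv i P := by
  simp [Eul, LinearMap.sum_apply]

/-- The operator `L = div((1-Q(a))∇ ·) - σ E`. -/
noncomputable def Lop (e : Fin n → Matrix (Fin p) (Fin q) ℝ) (σ : ℝ) :
    MvPolynomial (Fin n) ℝ →ₗ[ℝ] MvPolynomial (Fin n) ℝ :=
  Lap - A0 e - σ • Eul

lemma Lop_apply (e : Fin n → Matrix (Fin p) (Fin q) ℝ) (σ : ℝ) (P : MvPolynomial (Fin n) ℝ) :
    Lop e σ P = Lap P - A0 e P - σ • Eul P := rfl

/-- The second order part in the Fischer form. -/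
noncomputable def T0 (e : Fin n → Matrix (Fin p) (Fin q) ℝ) (P : MvPolynomial (Fin n) ℝ) : ℝ :=
  ∑ i, ∑ j, ∑ k, ∑ l, cc e i j k l * fi (pderiv i (pderiv j P)) (pderiv l (pderiv k P))

lemma pderiv_comm' (i j : Fin n) (P : MvPolynomial (Fin n) ℝ) :
    pderiv i (pderiv j P) = pderiv j (pderiv i P) := by
  classical
  ext m
  rw [coeff_pderiv, coeff_pderiv, coeff_pderiv, coeff_pderiv]
  by_cases h : i = j
  · subst h; rfl
  · have h1 : (m + Finsupp.single i 1 : Fin n →₀ ℕ) j = m j := by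
      simp [h]
    have h2 : (m + Finsupp.single j 1 : Fin n →₀ ℕ) i = m i := by
      simp [Ne.symm h]
    rw [h1, h2, add_right_comm]
    ring

lemma fi_term (i j k l : Fin n) (P : MvPolynomial (Fin n) ℝ) :
    fi (pderiv i (X k * (X l * pderiv j P))) P
      = (if i = k then fi (pderiv j P) (pderiv l P) else 0)
        + (if i = l then fi (pderiv j P) (pderiv k P) else 0)
        + fi (pderiv i (pderiv j P)) (pderiv l (pderiv k P)) := by
  classical
  have h1 : ∀ a b : Fin n, (pderiv a (X b : MvPolynomial (Fin n) ℝ)) = if a = b then 1 else 0 := by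
    intro a b
    rw [pderiv_X, Pi.single_apply]
    simp only [eq_comm]
  rw [pderiv_mul, pderiv_mul, h1, h1]
  by_cases hk : i = k
  · by_cases hl : i = l
    · subst hk; subst hl
      simp only [if_true, one_mul, mul_add, map_add, LinearMap.add_apply, fi_X_mul]
      ring
    · subst hk
      simp only [hl, if_true, if_false, one_mul, zero_mul, zero_add, map_add,
        LinearMap.add_apply, fi_X_mul, add_zero]
  · by_cases hl : i = l
    · subst hl
      simp only [hk, if_false, zero_mul, zero_add, if_true, mul_add, map_add,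
        LinearMap.add_apply, one_mul, fi_X_mul]
    · simp only [hk, hl, if_false, zero_mul, zero_add, fi_X_mul]

lemma fi_A0 (e : Fin n → Matrix (Fin p) (Fin q) ℝ) (P : MvPolynomial (Fin n) ℝ) :
    fi (A0 e P) P = ∑ j, ∑ l, RR e j l * fi (pderiv j P) (pderiv l P) + T0 e P := by
  classical
  rw [A0_apply]
  simp only [map_sum, LinearMap.sum_apply, map_smul, LinearMap.smul_apply, smul_eq_mul, fi_term,
    mul_add, Finset.sum_add_distrib, mul_ite, mul_zero]
  unfold T0
  congr 1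
  have h1 : ∑ i, ∑ j, ∑ k, ∑ l, (if i = k then cc e i j k l * fi (pderiv j P) (pderiv l P) else 0)
      = ∑ j, ∑ l, (∑ i, cc e i j i l) * fi (pderiv j P) (pderiv l P) := by
    rw [Finset.sum_comm]
    refine Finset.sum_congr rfl fun j _ => ?_
    rw [show (∑ i, ∑ k, ∑ l, (if i = k then cc e i j k l * fi (pderiv j P) (pderiv l P) else 0))
      = ∑ i, ∑ l, cc e i j i l * fi (pderiv j P) (pderiv l P) from
      Finset.sum_congr rfl fun i _ => by
        rw [Finset.sum_comm]
        refine Finset.sum_congr rfl fun l _ => ?_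
        rw [Finset.sum_ite_eq]
        simp]
    rw [Finset.sum_comm]
    refine Finset.sum_congr rfl fun l _ => ?_
    rw [Finset.sum_mul]
  have h2 : ∑ i, ∑ j, ∑ k, ∑ l, (if i = l then cc e i j k l * fi (pderiv j P) (pderiv k P) else 0)
      = ∑ j, ∑ l, (∑ i, cc e i j l i) * fi (pderiv j P) (pderiv l P) := by
    rw [Finset.sum_comm]
    refine Finset.sum_congr rfl fun j _ => ?_
    rw [show (∑ i, ∑ k, ∑ l, (if i = l then cc e i j k l * fi (pderiv j P) (pderiv k P) else 0))
      = ∑ i, ∑ k, cc e i j k i * fi (pderiv j P) (pderiv k P) from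
      Finset.sum_congr rfl fun i _ => by
        refine Finset.sum_congr rfl fun k _ => ?_
        rw [Finset.sum_ite_eq]
        simp]
    rw [Finset.sum_comm]
    refine Finset.sum_congr rfl fun l _ => ?_
    rw [Finset.sum_mul]
  rw [h1, h2, ← Finset.sum_add_distrib]
  refine Finset.sum_congr rfl fun j _ => ?_
  rw [← Finset.sum_add_distrib]
  refine Finset.sum_congr rfl fun l _ => ?_
  unfold RR
  rw [Finset.sum_add_distrib]
  ring

lemma fi_cross (i j k l : Fin n) (P : MvPolynomial (Fin n) ℝ) :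
    fi (X l * pderiv j P) (X i * pderiv k P)
      = (if i = l then fi (pderiv j P) (pderiv k P) else 0)
        + fi (pderiv i (pderiv j P)) (pderiv l (pderiv k P)) := by
  classical
  have h1 : ∀ a b : Fin n, (pderiv a (X b : MvPolynomial (Fin n) ℝ)) = if a = b then 1 else 0 := by
    intro a b
    rw [pderiv_X, Pi.single_apply]
    simp only [eq_comm]
  rw [fi_mul_X, pderiv_mul, h1]
  by_cases hl : i = l
  · subst hl
    simp only [if_true, one_mul, map_add, LinearMap.add_apply, fi_X_mul]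
  · simp only [hl, if_false, zero_mul, zero_add, fi_X_mul]

lemma sum4 (f : Fin n → Fin n → Fin n → Fin n → ℝ) :
    ∑ j, ∑ l, ∑ k, ∑ i, f i j k l = ∑ i, ∑ j, ∑ k, ∑ l, f i j k l := by
  have h1 : ∑ j, ∑ l, ∑ k, ∑ i, f i j k l = ∑ j, ∑ l, ∑ i, ∑ k, f i j k l :=
    Finset.sum_congr rfl fun j _ => Finset.sum_congr rfl fun l _ => Finset.sum_comm
  have h2 : ∑ j, ∑ l, ∑ i, ∑ k, f i j k l = ∑ j, ∑ i, ∑ l, ∑ k, f i j k l :=
    Finset.sum_congr rfl fun j _ => Finset.sum_comm
  have h3 : ∑ j, ∑ i, ∑ l, ∑ k, f i j k l = ∑ i, ∑ j, ∑ l, ∑ k, f i j k l := Finset.sum_comm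
  have h4 : ∑ i, ∑ j, ∑ l, ∑ k, f i j k l = ∑ i, ∑ j, ∑ k, ∑ l, f i j k l :=
    Finset.sum_congr rfl fun i _ => Finset.sum_congr rfl fun j _ => Finset.sum_comm
  rw [h1, h2, h3, h4]

/-- A sum of Fischer squares. -/
lemma fi_sq_sum {ι : Type*} [Fintype ι] (u : ι → Fin n → Fin n → ℝ) (P : MvPolynomial (Fin n) ℝ) :
    0 ≤ ∑ i, ∑ j, ∑ k, ∑ l, (∑ r, u r j l * u r k i) *
      fi (X l * pderiv j P) (X i * pderiv k P) := by
  classical
  have h0 : ∀ r, 0 ≤ fi (∑ j, ∑ l, u r j l • (X l * pderiv j P))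
      (∑ k, ∑ i, u r k i • (X i * pderiv k P)) := fun r => fi_nonneg _
  have h1 : ∀ r, fi (∑ j, ∑ l, u r j l • (X l * pderiv j P))
      (∑ k, ∑ i, u r k i • (X i * pderiv k P)) =
      ∑ i, ∑ j, ∑ k, ∑ l, (u r j l * u r k i) * fi (X l * pderiv j P) (X i * pderiv k P) := by
    intro r
    rw [← sum4 (fun i j k l => (u r j l * u r k i) * fi (X l * pderiv j P) (X i * pderiv k P))]
    rw [map_sum fi, LinearMap.sum_apply]
    refine Finset.sum_congr rfl fun j _ => ?_
    rw [map_sum fi, LinearMap.sum_apply]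
    refine Finset.sum_congr rfl fun l _ => ?_
    rw [map_sum]
    refine Finset.sum_congr rfl fun k _ => ?_
    rw [map_sum]
    refine Finset.sum_congr rfl fun i _ => ?_
    rw [map_smul, map_smul, LinearMap.smul_apply, smul_eq_mul, smul_eq_mul]
    ring
  have h2 : ∑ i, ∑ j, ∑ k, ∑ l, (∑ r, u r j l * u r k i) *
      fi (X l * pderiv j P) (X i * pderiv k P) = ∑ r, fi (∑ j, ∑ l, u r j l • (X l * pderiv j P))
      (∑ k, ∑ i, u r k i • (X i * pderiv k P)) := by
    simp_rw [h1, Finset.sum_mul]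
    rw [Finset.sum_comm (s := (univ : Finset ι))]
    refine Finset.sum_congr rfl fun i _ => ?_
    rw [Finset.sum_comm (s := (univ : Finset ι))]
    refine Finset.sum_congr rfl fun j _ => ?_
    rw [Finset.sum_comm (s := (univ : Finset ι))]
    refine Finset.sum_congr rfl fun k _ => ?_
    rw [Finset.sum_comm (s := (univ : Finset ι))]
  rw [h2]
  exact Finset.sum_nonneg fun r _ => h0 r

lemma cc_eq_one (e : Fin n → Matrix (Fin p) (Fin q) ℝ) (i j k l : Fin n) :
    ∑ r : Fin q × Fin q, ((e j).transpose * e l) r.1 r.2 * ((e k).transpose * e i) r.1 r.2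
      = cc e i j k l := by
  unfold cc
  rw [Fintype.sum_prod_type]
  have h1 : Matrix.trace ((e i).transpose * e k * (e j).transpose * e l)
      = Matrix.trace (((e j).transpose * e l) * ((e k).transpose * e i).transpose) := by
    rw [Matrix.transpose_mul, Matrix.transpose_transpose, Matrix.mul_assoc ((e i).transpose * e k),
      Matrix.trace_mul_comm]
  rw [h1, Matrix.trace]
  simp only [Matrix.diag_apply, Matrix.mul_apply, Matrix.transpose_apply]

lemma cc_eq_two (e : Fin n → Matrix (Fin p) (Fin q) ℝ) (i j k l : Fin n) :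
    ∑ r : Fin p × Fin p, (e l * (e j).transpose) r.1 r.2 * (e i * (e k).transpose) r.1 r.2
      = cc e i j l k := by
  unfold cc
  rw [Fintype.sum_prod_type]
  have h1 : Matrix.trace ((e i).transpose * e l * (e j).transpose * e k)
      = Matrix.trace ((e l * (e j).transpose) * (e i * (e k).transpose).transpose) := by
    rw [Matrix.transpose_mul, Matrix.transpose_transpose, Matrix.mul_assoc, Matrix.mul_assoc,
      Matrix.trace_mul_comm]
    simp only [Matrix.mul_assoc]
  rw [h1, Matrix.trace]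
  simp only [Matrix.diag_apply, Matrix.mul_apply, Matrix.transpose_apply]

lemma T0_ge (e : Fin n → Matrix (Fin p) (Fin q) ℝ) (P : MvPolynomial (Fin n) ℝ) :
    -(∑ j, ∑ l, RR e j l * fi (pderiv j P) (pderiv l P)) ≤ 2 * T0 e P := by
  classical
  have h1 := fi_sq_sum (fun (r : Fin q × Fin q) j l => ((e j).transpose * e l) r.1 r.2) P
  have h2 := fi_sq_sum (fun (r : Fin p × Fin p) j l => (e l * (e j).transpose) r.1 r.2) P
  simp only [cc_eq_one, cc_eq_two] at h1 h2
  have e1 : ∀ c : Fin n → Fin n → Fin n → Fin n → ℝ,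
      ∑ i, ∑ j, ∑ k, ∑ l, c i j k l * fi (X l * pderiv j P) (X i * pderiv k P)
      = ∑ j, ∑ k, (∑ i, c i j k i) * fi (pderiv j P) (pderiv k P)
        + ∑ i, ∑ j, ∑ k, ∑ l, c i j k l * fi (pderiv i (pderiv j P)) (pderiv l (pderiv k P)) := by
    intro c
    simp only [fi_cross, mul_add, Finset.sum_add_distrib, mul_ite, mul_zero]
    congr 1
    rw [Finset.sum_comm]
    refine Finset.sum_congr rfl fun j _ => ?_
    rw [show (∑ i, ∑ k, ∑ l, (if i = l then c i j k l * fi (pderiv j P) (pderiv k P) else 0))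
      = ∑ i, ∑ k, c i j k i * fi (pderiv j P) (pderiv k P) from
      Finset.sum_congr rfl fun i _ => by
        refine Finset.sum_congr rfl fun k _ => ?_
        rw [Finset.sum_ite_eq]
        simp]
    rw [Finset.sum_comm]
    refine Finset.sum_congr rfl fun l _ => ?_
    rw [Finset.sum_mul]
  rw [e1] at h1
  rw [e1 (fun i j k l => cc e i j l k)] at h2
  have e2 : ∑ i, ∑ j, ∑ k, ∑ l, cc e i j l k * fi (pderiv i (pderiv j P)) (pderiv l (pderiv k P))
      = T0 e P := by
    unfold T0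
    refine Finset.sum_congr rfl fun i _ => Finset.sum_congr rfl fun j _ => ?_
    rw [Finset.sum_comm]
    refine Finset.sum_congr rfl fun k _ => Finset.sum_congr rfl fun l _ => ?_
    rw [pderiv_comm' k l]
  have e3 : ∑ j, ∑ l, RR e j l * fi (pderiv j P) (pderiv l P)
      = ∑ j, ∑ k, (∑ i, cc e i j k i) * fi (pderiv j P) (pderiv k P)
        + ∑ j, ∑ k, (∑ i, cc e i j i k) * fi (pderiv j P) (pderiv k P) := by
    rw [← Finset.sum_add_distrib]
    refine Finset.sum_congr rfl fun j _ => ?_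
    rw [← Finset.sum_add_distrib]
    refine Finset.sum_congr rfl fun k _ => ?_
    unfold RR
    rw [Finset.sum_add_distrib]
    ring
  rw [e2] at h2
  have e4 : T0 e P = ∑ i, ∑ j, ∑ k, ∑ l, cc e i j k l *
    fi (pderiv i (pderiv j P)) (pderiv l (pderiv k P)) := rfl
  rw [← e4] at h1
  rw [e3]
  linarith

/-- The spectral bound on homogeneous polynomials. -/
lemma fi_A0_ge (e : Fin n → Matrix (Fin p) (Fin q) ℝ) (ρ : ℝ) (hρ : 0 ≤ ρ)
    (hR : ∀ x : Fin n → ℝ, ρ * ∑ j, x j ^ 2 ≤ ∑ j, ∑ k, RR e j k * (x j * x k))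
    {P : MvPolynomial (Fin n) ℝ} {m : ℕ} (hm : 1 ≤ m) (h : P.IsHomogeneous m) :
    ρ * fi P P ≤ fi (A0 e P) P := by
  have h1 := fi_quad_ge (RR e) ρ hR (fun j => pderiv j P)
  rw [fi_euler h] at h1
  have h2 := T0_ge e P
  rw [fi_A0]
  rcases Nat.lt_or_ge 1 m with h3 | h3
  · have h4 : (2 : ℝ) ≤ m := by exact_mod_cast h3
    have h5 : 2 * (ρ * fi P P) ≤ ρ * (m * fi P P) := by
      have := mul_le_mul_of_nonneg_right h4 (mul_nonneg hρ (fi_nonneg P))
      linarith
    linarith
  · have hm1 : m = 1 := le_antisymm h3 hm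
    subst hm1
    have h6 : T0 e P = 0 := by
      unfold T0
      refine Finset.sum_eq_zero fun i _ => Finset.sum_eq_zero fun j _ =>
        Finset.sum_eq_zero fun k _ => Finset.sum_eq_zero fun l _ => ?_
      have h7 : (pderiv j P).IsHomogeneous 0 := h.pderiv
      rw [← totalDegree_zero_iff_isHomogeneous, totalDegree_eq_zero_iff_eq_C] at h7
      rw [h7, pderiv_C]
      simp
    rw [h6]
    simpa using h1

end Pool.Agent.Lib.MP_8d00da_gt.h30
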