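import Mathlib
import Pool.Agent.Lib.MP_8d00da_gt.h30.Spectral

/-!
# Eigenvalues of the operator on polynomials
-/

namespace Pool.Agent.Lib.MP_8d00da_gt.h30

open MvPolynomial Finset

variable {n p q : ℕ}

lemma pderiv_zero_of_hom {P : MvPolynomial (Fin n) ℝ} (h : P.IsHomogeneous 0) (j : Fin n) :
    pderiv j P = 0 := by
  rw [← totalDegree_zero_iff_isHomogeneous, totalDegree_eq_zero_iff_eq_C] at h
  rw [h, pderiv_C]

lemma IsHomogeneous.smul' {P : MvPolynomial (Fin n) ℝ} {d : ℕ} (h : P.IsHomogeneous d) (c : ℝ) :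
    (c • P).IsHomogeneous d := by
  rw [MvPolynomial.smul_eq_C_mul]
  exact h.C_mul c

lemma A0_hom (e : Fin n → Matrix (Fin p) (Fin q) ℝ) {P : MvPolynomial (Fin n) ℝ} {d : ℕ}
    (h : P.IsHomogeneous d) : (A0 e P).IsHomogeneous d := by
  rw [A0_apply]
  refine MvPolynomial.IsHomogeneous.sum _ _ _ fun i _ => MvPolynomial.IsHomogeneous.sum _ _ _
    fun j _ => MvPolynomial.IsHomogeneous.sum _ _ _ fun k _ => MvPolynomial.IsHomogeneous.sum _ _ _
    fun l _ => IsHomogeneous.smul' ?_ _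
  rcases Nat.eq_zero_or_pos d with h0 | h0
  · subst h0
    rw [pderiv_zero_of_hom h]
    simpa using isHomogeneous_zero _ _ _
  · have h1 := ((isHomogeneous_X ℝ k).mul ((isHomogeneous_X ℝ l).mul (h.pderiv (i := j)))).pderiv
      (i := i)
    have h2 : 1 + (1 + (d - 1)) - 1 = d := by omega
    rwa [h2] at h1

lemma Eul_hom {P : MvPolynomial (Fin n) ℝ} {d : ℕ} (h : P.IsHomogeneous d) :
    (Eul P).IsHomogeneous d := by
  rw [Eul_apply, h.sum_X_mul_pderiv]
  exact Submodule.smul_of_tower_mem (homogeneousSubmodule (Fin n) ℝ d) d h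

lemma Lap_hom {P : MvPolynomial (Fin n) ℝ} {d : ℕ} (h : P.IsHomogeneous d) :
    (Lap P).IsHomogeneous (d - 1 - 1) := by
  rw [Lap_apply]
  exact MvPolynomial.IsHomogeneous.sum _ _ _ fun i _ => h.pderiv.pderiv

lemma hc_comm (Λ : MvPolynomial (Fin n) ℝ →ₗ[ℝ] MvPolynomial (Fin n) ℝ)
    (hΛ : ∀ d (P : MvPolynomial (Fin n) ℝ), P.IsHomogeneous d → (Λ P).IsHomogeneous d)
    (m : ℕ) (P : MvPolynomial (Fin n) ℝ) :
    homogeneousComponent m (Λ P) = Λ (homogeneousComponent m P) := by
  classical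
  conv_lhs => rw [← sum_homogeneousComponent P]
  rw [map_sum, map_sum]
  have h1 : ∀ d, homogeneousComponent m (Λ (homogeneousComponent d P))
      = if d = m then Λ (homogeneousComponent m P) else 0 := by
    intro d
    rw [homogeneousComponent_of_mem (hΛ d _ (homogeneousComponent_isHomogeneous d P))]
    by_cases h : d = m
    · subst h; simp
    · simp [h, Ne.symm h]
  simp_rw [h1]
  rw [Finset.sum_ite_eq']
  by_cases h : m ∈ range (P.totalDegree + 1)
  · rw [if_pos h]
  · rw [if_neg h]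
    have : P.totalDegree < m := by simpa [Nat.lt_succ_iff] using h
    rw [homogeneousComponent_eq_zero m P this, map_zero]

lemma hc_Lap {P : MvPolynomial (Fin n) ℝ} {m : ℕ} (hm : 1 ≤ m) (hP : P.totalDegree ≤ m) :
    homogeneousComponent m (Lap P) = 0 := by
  classical
  conv_lhs => rw [← sum_homogeneousComponent P]
  rw [map_sum, map_sum]
  refine Finset.sum_eq_zero fun d hd => ?_
  rw [homogeneousComponent_of_mem (Lap_hom (homogeneousComponent_isHomogeneous d P))]
  rw [if_neg]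
  have : d ≤ P.totalDegree := by simpa [Nat.lt_succ_iff] using hd
  omega

/-- Every eigenvalue of `-L` with a nonconstant eigenpolynomial is at least `ρ + σ`. -/
lemma eig_bound (e : Fin n → Matrix (Fin p) (Fin q) ℝ) (ρ σ : ℝ) (hρ : 0 ≤ ρ) (hσ : 0 ≤ σ)
    (hR : ∀ x : Fin n → ℝ, ρ * ∑ j, x j ^ 2 ≤ ∑ j, ∑ k, RR e j k * (x j * x k))
    {P : MvPolynomial (Fin n) ℝ} (hP : 1 ≤ P.totalDegree) {μ : ℝ}
    (h : Lop e σ P = -(μ • P)) : ρ + σ ≤ μ := by
  classical
  set m := P.totalDegree with hm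
  set Pm := homogeneousComponent m P with hPm
  have hhom : Pm.IsHomogeneous m := homogeneousComponent_isHomogeneous m P
  have hne : Pm ≠ 0 := by
    intro h0
    have hP0 : P ≠ 0 := by
      rintro rfl
      simp at hm
      omega
    obtain ⟨b, hb, hb2⟩ := Finset.exists_mem_eq_sup P.support
      (MvPolynomial.support_nonempty.2 hP0) (fun s => s.sum fun _ e => e)
    have h1 : coeff b Pm = coeff b P := by
      rw [hPm, coeff_homogeneousComponent, if_pos]
      rw [hm, MvPolynomial.totalDegree, hb2]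
      rfl
    rw [h0, coeff_zero] at h1
    exact MvPolynomial.mem_support_iff.1 hb h1.symm
  have h1 := congrArg (homogeneousComponent m) h
  rw [Lop_apply, map_sub, map_sub, hc_Lap hP le_rfl, hc_comm (A0 e) (fun d P h => A0_hom e h),
    map_smul, hc_comm Eul (fun d P h => Eul_hom h), map_neg, map_smul] at h1
  rw [← hPm] at h1
  have h2 : Eul Pm = (m : ℝ) • Pm := by
    rw [Eul_apply, hhom.sum_X_mul_pderiv]
    exact (Nat.cast_smul_eq_nsmul ℝ m Pm).symm
  rw [h2] at h1
  have h3 : A0 e Pm = (μ - σ * m) • Pm := by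
    have : A0 e Pm = μ • Pm - σ • (m : ℝ) • Pm := by
      rw [zero_sub] at h1
      have := congrArg Neg.neg h1
      rw [neg_sub, neg_neg, sub_neg_eq_add] at this
      rw [← this]
      abel
    rw [this, sub_smul, smul_smul]
  have h4 := fi_A0_ge e ρ hρ hR hP hhom
  rw [h3, map_smul, LinearMap.smul_apply, smul_eq_mul] at h4
  have h5 := fi_pos hne
  have h6 : ρ ≤ μ - σ * m := le_of_mul_le_mul_right h4 h5
  have h7 : (1 : ℝ) ≤ m := by exact_mod_cast hP
  nlinarith [mul_le_mul_of_nonneg_left h7 hσ]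

lemma Lop_C (e : Fin n → Matrix (Fin p) (Fin q) ℝ) (σ c : ℝ) : Lop e σ (C c) = 0 := by
  rw [Lop_apply, Lap_apply, A0_apply, Eul_apply]
  simp

lemma totalDegree_Lop (e : Fin n → Matrix (Fin p) (Fin q) ℝ) (σ : ℝ) {P : MvPolynomial (Fin n) ℝ}
    {M : ℕ} (hP : P.totalDegree ≤ M) : (Lop e σ P).totalDegree ≤ M := by
  classical
  rw [← mem_restrictTotalDegree]
  rw [← sum_homogeneousComponent P, map_sum]
  refine Submodule.sum_mem _ fun d hd => ?_
  have hd' : d ≤ M := by
    have : d ≤ P.totalDegree := by simpa [Nat.lt_succ_iff] using hd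
    omega
  have h := homogeneousComponent_isHomogeneous d P
  rw [Lop_apply]
  refine Submodule.sub_mem _ (Submodule.sub_mem _ ?_ ?_) (Submodule.smul_mem _ _ ?_)
  · rw [mem_restrictTotalDegree]
    exact (Lap_hom h).totalDegree_le.trans (by omega)
  · rw [mem_restrictTotalDegree]
    exact (A0_hom e h).totalDegree_le.trans hd'
  · rw [mem_restrictTotalDegree]
    exact (Eul_hom h).totalDegree_le.trans hd'

end Pool.Agent.Lib.MP_8d00da_gt.h30
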