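import Mathlib

/-!
# Solving `A u = h` in a finite dimensional inner product space with a spectral gap
-/

namespace Pool.Agent.Lib.MP_8d00da_gt.h30

open scoped InnerProductSpace

lemma finite_dim_solve {F : Type*} [NormedAddCommGroup F] [InnerProductSpace ℝ F]
    [FiniteDimensional ℝ F] (A : F →ₗ[ℝ] F) (hA : A.IsSymmetric) (c : F) (r : ℝ) (hr : 0 < r)
    (hev : ∀ (μ : ℝ) (u : F), u ≠ 0 → A u = μ • u → r ≤ μ ∨ ∃ t : ℝ, u = t • c)
    (h : F) (hh : ⟪c, h⟫_ℝ = 0) :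
    ∃ u, A u = h ∧ ⟪u, h⟫_ℝ ≤ (1 / r) * ⟪h, h⟫_ℝ := by
  classical
  set N := Module.finrank ℝ F with hN
  set b := hA.eigenvectorBasis hN.symm with hb
  set ev := hA.eigenvalues hN.symm with hevd
  have hAb : ∀ i, A (b i) = ev i • b i := fun i => hA.apply_eigenvectorBasis hN.symm i
  have hcase : ∀ i, r ≤ ev i ∨ ⟪b i, h⟫_ℝ = 0 := by
    intro i
    rcases hev (ev i) (b i) (b.orthonormal.ne_zero i) (hAb i) with h1 | ⟨t, h1⟩
    · exact Or.inl h1
    · right
      rw [h1, inner_smul_left, hh, mul_zero]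
  set g : Fin N → ℝ := fun i => (ev i)⁻¹ * ⟪b i, h⟫_ℝ with hg
  refine ⟨∑ i, g i • b i, ?_, ?_⟩
  · rw [map_sum]
    conv_rhs => rw [← b.sum_repr' h]
    refine Finset.sum_congr rfl fun i _ => ?_
    rw [map_smul, hAb, smul_smul]
    rcases hcase i with h1 | h1
    · have : ev i ≠ 0 := by linarith
      rw [hg]
      simp only
      congr 1
      field_simp
    · rw [hg]
      simp only
      rw [h1]
      simp
  · rw [sum_inner]
    have h2 : ⟪h, h⟫_ℝ = ∑ i, ⟪b i, h⟫_ℝ ^ 2 := by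
      rw [real_inner_self_eq_norm_sq, ← b.sum_sq_norm_inner_right h]
      simp
    rw [h2, Finset.mul_sum]
    refine Finset.sum_le_sum fun i _ => ?_
    rw [inner_smul_left]
    simp only [conj_trivial, hg]
    rcases hcase i with h1 | h1
    · have h3 : (ev i)⁻¹ ≤ 1 / r := by
        rw [← one_div]
        exact one_div_le_one_div_of_le hr h1
      calc (ev i)⁻¹ * ⟪b i, h⟫_ℝ * ⟪b i, h⟫_ℝ = (ev i)⁻¹ * ⟪b i, h⟫_ℝ ^ 2 := by ring
        _ ≤ _ := mul_le_mul_of_nonneg_right h3 (sq_nonneg _)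
    · rw [h1]; simp

lemma solve_core {F : Type*} [AddCommGroup F] [Module ℝ F] [Module.Finite ℝ F]
    (cd : InnerProductSpace.Core ℝ F) (A : F →ₗ[ℝ] F)
    (hA : ∀ x y, cd.inner (A x) y = cd.inner x (A y)) (c : F) (r : ℝ) (hr : 0 < r)
    (hev : ∀ (μ : ℝ) (u : F), u ≠ 0 → A u = μ • u → r ≤ μ ∨ ∃ t : ℝ, u = t • c)
    (h : F) (hh : cd.inner c h = 0) :
    ∃ u, A u = h ∧ cd.inner u h ≤ (1 / r) * cd.inner h h := by
  letI : NormedAddCommGroup F := cd.toNormedAddCommGroup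
  letI : InnerProductSpace ℝ F := InnerProductSpace.ofCore cd.toCore
  have : FiniteDimensional ℝ F := inferInstanceAs (Module.Finite ℝ F)
  exact finite_dim_solve A (fun x y => hA x y) c r hr hev h hh

end Pool.Agent.Lib.MP_8d00da_gt.h30
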