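import Mathlib
import Pool.Agent.Lib.MP_8d00da_gt.h30.Graded
import Pool.Agent.Lib.MP_8d00da_gt.h30.Solve
import Pool.Agent.Lib.MP_8d00da_gt.h30.Eval

/-!
# The Poincaré inequality from integration by parts and the algebraic spectral bound
-/

namespace Pool.Agent.Lib.MP_8d00da_gt.h30

open MvPolynomial Finset MeasureTheory

variable {n p q : ℕ}

/-- The bilinear form `⟨v, (1 - Q(a)) w⟩`. -/
noncomputable def Gq (e : Fin n → Matrix (Fin p) (Fin q) ℝ) (a : EuclideanSpace ℝ (Fin n))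
    (v w : Fin n → ℝ) : ℝ :=
  ∑ i, v i * w i - ∑ i, ∑ j, (∑ k, ∑ l, cc e i j k l * (a k * a l)) * (v i * w j)

/-- Partial derivatives. -/
noncomputable def pd (f : EuclideanSpace ℝ (Fin n) → ℝ) (a : EuclideanSpace ℝ (Fin n))
    (i : Fin n) : ℝ := fderiv ℝ f a (EuclideanSpace.single i 1)

/-- The gradient of a polynomial. -/
noncomputable def gp (P : MvPolynomial (Fin n) ℝ) (a : EuclideanSpace ℝ (Fin n))
    (i : Fin n) : ℝ := ev (pderiv i P) a

/-- The analytic input. -/
structure AData (e : Fin n → Matrix (Fin p) (Fin q) ℝ) (σ : ℝ)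
    (μ : Measure (EuclideanSpace ℝ (Fin n))) (K : Set (EuclideanSpace ℝ (Fin n))) : Prop where
  prob : IsProbabilityMeasure μ
  compact : IsCompact K
  supp : ∀ᵐ a ∂μ, a ∈ K
  inj : ∀ P : MvPolynomial (Fin n) ℝ, ∫ a, ev P a * ev P a ∂μ = 0 → P = 0
  Gnonneg : ∀ a ∈ K, ∀ v, 0 ≤ Gq e a v v
  Gle : ∀ a ∈ K, ∀ v, Gq e a v v ≤ 2 * ∑ i, v i ^ 2
  ibp1 : ∀ (f : EuclideanSpace ℝ (Fin n) → ℝ) (C : NNReal), LipschitzWith C f →
    ∀ P : MvPolynomial (Fin n) ℝ,
      ∫ a, f a * ev (Lop e σ P) a ∂μ = -∫ a, Gq e a (pd f a) (gp P a) ∂μ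
  ibp2 : ∀ u P : MvPolynomial (Fin n) ℝ,
      ∫ a, ev u a * ev (Lop e σ P) a ∂μ = -∫ a, Gq e a (gp u a) (gp P a) ∂μ

lemma cc_symm (e : Fin n → Matrix (Fin p) (Fin q) ℝ) (i j k l : Fin n) :
    cc e i j k l = cc e j i l k := by
  unfold cc
  rw [Matrix.mul_assoc, Matrix.trace_mul_comm, ← Matrix.mul_assoc]

lemma Gq_symm (e : Fin n → Matrix (Fin p) (Fin q) ℝ) (a : EuclideanSpace ℝ (Fin n))
    (v w : Fin n → ℝ) : Gq e a v w = Gq e a w v := by
  unfold Gq
  congr 1
  · exact Finset.sum_congr rfl fun i _ => mul_comm _ _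
  · rw [Finset.sum_comm]
    refine Finset.sum_congr rfl fun j _ => Finset.sum_congr rfl fun i _ => ?_
    rw [mul_comm (v i) (w j)]
    congr 1
    rw [Finset.sum_comm]
    refine Finset.sum_congr rfl fun l _ => Finset.sum_congr rfl fun k _ => ?_
    rw [cc_symm, mul_comm (a k)]

lemma Gq_expand (e : Fin n → Matrix (Fin p) (Fin q) ℝ) (a : EuclideanSpace ℝ (Fin n))
    (v w : Fin n → ℝ) (t : ℝ) :
    Gq e a (fun i => v i + t * w i) (fun i => v i + t * w i)
      = Gq e a w w * (t * t) + 2 * Gq e a v w * t + Gq e a v v := by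
  have h1 : Gq e a (fun i => v i + t * w i) (fun i => v i + t * w i)
      = Gq e a w w * (t * t) + (Gq e a v w + Gq e a w v) * t + Gq e a v v := by
    unfold Gq
    simp only [mul_add, add_mul, Finset.sum_add_distrib, sub_mul, Finset.sum_mul]
    have e1 : ∀ i, v i * (t * w i) = v i * w i * t := fun i => by ring
    have e2 : ∀ i, t * w i * v i = w i * v i * t := fun i => by ring
    have e3 : ∀ i, t * w i * (t * w i) = w i * w i * (t * t) := fun i => by ring
    have e4 : ∀ i j (c : ℝ), c * (v i * (t * w j)) = c * (v i * w j) * t := fun i j c => by ring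
    have e5 : ∀ i j (c : ℝ), c * (t * w i * v j) = c * (w i * v j) * t := fun i j c => by ring
    have e6 : ∀ i j (c : ℝ), c * (t * w i * (t * w j)) = c * (w i * w j) * (t * t) :=
      fun i j c => by ring
    simp only [e1, e2, e3, e4, e5, e6]
    ring
  rw [h1, Gq_symm e a w v]
  ring

section

variable {e : Fin n → Matrix (Fin p) (Fin q) ℝ} {σ : ℝ}
  {μ : Measure (EuclideanSpace ℝ (Fin n))} {K : Set (EuclideanSpace ℝ (Fin n))}

lemma AData.integ_bdd (D : AData e σ μ K) {g : EuclideanSpace ℝ (Fin n) → ℝ}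
    (hm : Measurable g) (B : ℝ) (hB : ∀ a ∈ K, ‖g a‖ ≤ B) : Integrable g μ := by
  have := D.prob
  refine Integrable.of_bound hm.aestronglyMeasurable B ?_
  filter_upwards [D.supp] with a ha using hB a ha

lemma AData.integ_cont (D : AData e σ μ K) {g : EuclideanSpace ℝ (Fin n) → ℝ}
    (hg : Continuous g) : Integrable g μ := by
  obtain ⟨B, hB⟩ := D.compact.exists_bound_of_continuousOn hg.continuousOn
  exact D.integ_bdd hg.measurable B hB

/-- The inner product on polynomials of bounded degree. -/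
@[reducible]
noncomputable def AData.core (D : AData e σ μ K) (M : ℕ) :
    InnerProductSpace.Core ℝ (restrictTotalDegree (Fin n) ℝ M) where
  inner P Q := ∫ a, ev P.1 a * ev Q.1 a ∂μ
  conj_inner_symm P Q := by
    simp only [conj_trivial]
    exact integral_congr_ae (Filter.Eventually.of_forall fun a => mul_comm _ _)
  re_inner_nonneg P := by
    simp only [RCLike.re_to_real]
    exact integral_nonneg fun a => mul_self_nonneg _
  add_left P Q R := by
    have h1 : Integrable (fun a => ev P.1 a * ev R.1 a) μ :=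
      D.integ_cont ((ev_continuous _).mul (ev_continuous _))
    have h2 : Integrable (fun a => ev Q.1 a * ev R.1 a) μ :=
      D.integ_cont ((ev_continuous _).mul (ev_continuous _))
    rw [← integral_add h1 h2]
    refine integral_congr_ae (Filter.Eventually.of_forall fun a => ?_)
    simp only [Submodule.coe_add, ev_add]
    ring
  smul_left P Q r := by
    simp only [conj_trivial]
    rw [← integral_const_mul]
    refine integral_congr_ae (Filter.Eventually.of_forall fun a => ?_)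
    simp only [Submodule.coe_smul, ev_smul]
    ring
  definite P h := Subtype.ext (D.inj P.1 h)

lemma AData.solve (D : AData e σ μ K) (ρ : ℝ) (hρ : 0 ≤ ρ) (hσ : 0 ≤ σ) (hr : 0 < ρ + σ)
    (hR : ∀ x : Fin n → ℝ, ρ * ∑ j, x j ^ 2 ≤ ∑ j, ∑ k, RR e j k * (x j * x k))
    (h : MvPolynomial (Fin n) ℝ) (hh : ∫ a, ev h a ∂μ = 0) :
    ∃ u : MvPolynomial (Fin n) ℝ, -Lop e σ u = h ∧
      ∫ a, ev u a * ev h a ∂μ ≤ (1 / (ρ + σ)) * ∫ a, ev h a * ev h a ∂μ := by
  set M := h.totalDegree with hM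
  have hmem : ∀ P ∈ restrictTotalDegree (Fin n) ℝ M,
      (-(Lop e σ)) P ∈ restrictTotalDegree (Fin n) ℝ M := by
    intro P hP
    rw [mem_restrictTotalDegree] at hP ⊢
    rw [LinearMap.neg_apply, totalDegree_neg]
    exact totalDegree_Lop e σ hP
  set A := (-(Lop e σ)).restrict hmem with hA
  have hAval : ∀ P, (A P).1 = -Lop e σ P.1 := fun P => rfl
  have h1mem : (1 : MvPolynomial (Fin n) ℝ) ∈ restrictTotalDegree (Fin n) ℝ M := by
    rw [mem_restrictTotalDegree]; simp
  obtain ⟨u, hu1, hu2⟩ := solve_core (D.core M) A (by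
      intro P Q
      change ∫ a, ev (A P).1 a * ev Q.1 a ∂μ = ∫ a, ev P.1 a * ev (A Q).1 a ∂μ
      rw [hAval, hAval]
      have e1 : ∫ a, ev (-Lop e σ P.1) a * ev Q.1 a ∂μ
          = -∫ a, ev Q.1 a * ev (Lop e σ P.1) a ∂μ := by
        rw [← integral_neg]
        refine integral_congr_ae (Filter.Eventually.of_forall fun a => ?_)
        simp only [ev_neg]; ring
      have e2 : ∫ a, ev P.1 a * ev (-Lop e σ Q.1) a ∂μ
          = -∫ a, ev P.1 a * ev (Lop e σ Q.1) a ∂μ := by
        rw [← integral_neg]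
        refine integral_congr_ae (Filter.Eventually.of_forall fun a => ?_)
        simp only [ev_neg]; ring
      rw [e1, e2, D.ibp2, D.ibp2]
      congr 2
      refine integral_congr_ae (Filter.Eventually.of_forall fun a => ?_)
      exact Gq_symm e a _ _)
    ⟨1, h1mem⟩ (ρ + σ) hr (by
      intro ν u hu0 hu
      have hu' : Lop e σ u.1 = -(ν • u.1) := by
        have := congrArg Subtype.val hu
        rw [hAval] at this
        rw [← neg_neg (Lop e σ u.1), this]
        rfl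
      rcases Nat.eq_zero_or_pos u.1.totalDegree with h0 | h0
      · right
        rw [totalDegree_eq_zero_iff_eq_C] at h0
        refine ⟨coeff 0 u.1, Subtype.ext ?_⟩
        change u.1 = coeff 0 u.1 • (1 : MvPolynomial (Fin n) ℝ)
        conv_lhs => rw [h0]
        rw [MvPolynomial.smul_eq_C_mul, mul_one]
      · left
        exact eig_bound e ρ σ hρ hσ hR h0 hu')
    ⟨h, by rw [mem_restrictTotalDegree]⟩ (by
      change ∫ a, ev (1 : MvPolynomial (Fin n) ℝ) a * ev h a ∂μ = 0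
      simpa [ev_one] using hh)
  exact ⟨u.1, congrArg Subtype.val hu1, hu2⟩


lemma pd_measurable (f : EuclideanSpace ℝ (Fin n) → ℝ) (i : Fin n) :
    Measurable (fun a => pd f a i) := measurable_fderiv_apply_const ℝ f _

lemma gp_continuous (P : MvPolynomial (Fin n) ℝ) (i : Fin n) :
    Continuous (fun a => gp P a i) := ev_continuous _

lemma Gq_measurable {v w : EuclideanSpace ℝ (Fin n) → Fin n → ℝ}
    (hv : ∀ i, Measurable (fun a => v a i)) (hw : ∀ i, Measurable (fun a => w a i)) :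
    Measurable (fun a => Gq e a (v a) (w a)) := by
  unfold Gq
  refine Measurable.sub ?_ ?_
  · exact Finset.measurable_sum _ fun i _ => (hv i).mul (hw i)
  · refine Finset.measurable_sum _ fun i _ => Finset.measurable_sum _ fun j _ =>
      Measurable.mul ?_ ((hv i).mul (hw j))
    refine Finset.measurable_sum _ fun k _ => Finset.measurable_sum _ fun l _ => ?_
    fun_prop

/-- Boundedness of the form on `K`. -/
lemma AData.Gq_bound (D : AData e σ μ K) (B : ℝ) :
    ∃ B', ∀ a ∈ K, ∀ v w : Fin n → ℝ, (∀ i, |v i| ≤ B) → (∀ i, |w i| ≤ B) →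
      ‖Gq e a v w‖ ≤ B' := by
  refine ⟨2 * (2 * (n * B ^ 2)), fun a ha v w hv hw => ?_⟩
  have hb : ∀ (u : Fin n → ℝ), (∀ i, |u i| ≤ B) → ∑ i, u i ^ 2 ≤ n * B ^ 2 := by
    intro u hu
    calc ∑ i, u i ^ 2 ≤ ∑ _i : Fin n, B ^ 2 := Finset.sum_le_sum fun i _ => by
          rw [← sq_abs]
          exact pow_le_pow_left₀ (abs_nonneg _) (hu i) 2
      _ = n * B ^ 2 := by simp
  have h1 := D.Gle a ha v
  have h2 := D.Gle a ha w
  have h3 := D.Gnonneg a ha v
  have h4 := D.Gnonneg a ha w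
  have h5 := D.Gnonneg a ha (fun i => v i + 1 * w i)
  have h6 := D.Gnonneg a ha (fun i => v i + (-1) * w i)
  rw [Gq_expand] at h5 h6
  have hv' := hb v hv
  have hw' := hb w hw
  rw [Real.norm_eq_abs, abs_le]
  constructor <;> nlinarith

lemma sum_sq_pd (f : EuclideanSpace ℝ (Fin n) → ℝ) (a : EuclideanSpace ℝ (Fin n)) :
    ∑ i, pd f a i ^ 2 = ‖fderiv ℝ f a‖ ^ 2 := by
  have h1 : ‖fderiv ℝ f a‖ = ‖(InnerProductSpace.toDual ℝ _).symm (fderiv ℝ f a)‖ := by
    rw [LinearIsometryEquiv.norm_map]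
  rw [h1, EuclideanSpace.norm_sq_eq]
  refine Finset.sum_congr rfl fun i _ => ?_
  have h2 : pd f a i = ((InnerProductSpace.toDual ℝ _).symm (fderiv ℝ f a)) i := by
    unfold pd
    rw [← InnerProductSpace.toDual_symm_apply (y := fderiv ℝ f a)]
    rw [EuclideanSpace.inner_single_right]
    simp
  rw [h2, Real.norm_eq_abs, sq_abs]

lemma pd_abs_le {f : EuclideanSpace ℝ (Fin n) → ℝ} {C : NNReal} (hf : LipschitzWith C f)
    (a : EuclideanSpace ℝ (Fin n)) (i : Fin n) : |pd f a i| ≤ C := by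
  unfold pd
  rw [← Real.norm_eq_abs]
  refine (ContinuousLinearMap.le_opNorm _ _).trans ?_
  have h1 := norm_fderiv_le_of_lipschitz ℝ (x₀ := a) hf
  simpa using h1

/-- The duality bound. -/
lemma AData.dual (D : AData e σ μ K) (ρ : ℝ) (hρ : 0 ≤ ρ) (hσ : 0 ≤ σ) (hr : 0 < ρ + σ)
    (hR : ∀ x : Fin n → ℝ, ρ * ∑ j, x j ^ 2 ≤ ∑ j, ∑ k, RR e j k * (x j * x k))
    {f : EuclideanSpace ℝ (Fin n) → ℝ} {C : NNReal} (hf : LipschitzWith C f)
    (h : MvPolynomial (Fin n) ℝ) (hh : ∫ a, ev h a ∂μ = 0) :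
    (∫ a, f a * ev h a ∂μ) ^ 2 ≤ ((1 / (ρ + σ)) * ∫ a, Gq e a (pd f a) (pd f a) ∂μ) *
      ∫ a, ev h a * ev h a ∂μ := by
  obtain ⟨u, hu1, hu2⟩ := D.solve ρ hρ hσ hr hR h hh
  -- a uniform bound for the gradients on `K`
  obtain ⟨B, hB⟩ : ∃ B : ℝ, ∀ a ∈ K, ∀ i, |gp u a i| ≤ B := by
    have : ∀ i, ∃ B, ∀ a ∈ K, ‖gp u a i‖ ≤ B := fun i =>
      D.compact.exists_bound_of_continuousOn (gp_continuous u i).continuousOn
    choose B hB using this
    exact ⟨∑ i, |B i|, fun a ha i => (hB i a ha).trans ((le_abs_self _).trans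
      (Finset.single_le_sum (f := fun i => |B i|) (fun _ _ => abs_nonneg _) (mem_univ i)))⟩
  set B1 := max B C with hB1
  have hv : ∀ a ∈ K, ∀ i, |gp u a i| ≤ B1 := fun a ha i => (hB a ha i).trans (le_max_left _ _)
  have hw : ∀ a, ∀ i, |pd f a i| ≤ B1 := fun a i => (pd_abs_le hf a i).trans (le_max_right _ _)
  obtain ⟨B', hB'⟩ := D.Gq_bound B1
  have hmpd : ∀ i, Measurable (fun a => pd f a i) := pd_measurable f
  have hmgp : ∀ i, Measurable (fun a => gp u a i) := fun i => (gp_continuous u i).measurable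
  have i1 : Integrable (fun a => Gq e a (pd f a) (pd f a)) μ :=
    D.integ_bdd (Gq_measurable hmpd hmpd) B' fun a ha => hB' a ha _ _ (hw a) (hw a)
  have i2 : Integrable (fun a => Gq e a (pd f a) (gp u a)) μ :=
    D.integ_bdd (Gq_measurable hmpd hmgp) B' fun a ha => hB' a ha _ _ (hw a) (hv a ha)
  have i3 : Integrable (fun a => Gq e a (gp u a) (gp u a)) μ :=
    D.integ_bdd (Gq_measurable hmgp hmgp) B' fun a ha => hB' a ha _ _ (hv a ha) (hv a ha)
  have h1 : ∫ a, f a * ev h a ∂μ = ∫ a, Gq e a (pd f a) (gp u a) ∂μ := by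
    have := D.ibp1 f C hf u
    rw [← neg_eq_iff_eq_neg] at this
    rw [← this, ← hu1, ← integral_neg]
    refine integral_congr_ae (Filter.Eventually.of_forall fun a => ?_)
    simp only [ev_neg]; ring
  have h2 : ∫ a, ev u a * ev h a ∂μ = ∫ a, Gq e a (gp u a) (gp u a) ∂μ := by
    have := D.ibp2 u u
    rw [← neg_eq_iff_eq_neg] at this
    rw [← this, ← hu1, ← integral_neg]
    refine integral_congr_ae (Filter.Eventually.of_forall fun a => ?_)
    simp only [ev_neg]; ring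
  have hcs : ∀ t : ℝ, 0 ≤ (∫ a, Gq e a (gp u a) (gp u a) ∂μ) * (t * t)
      + (2 * ∫ a, Gq e a (pd f a) (gp u a) ∂μ) * t + ∫ a, Gq e a (pd f a) (pd f a) ∂μ := by
    intro t
    have e1 : (∫ a, Gq e a (gp u a) (gp u a) ∂μ) * (t * t)
      + (2 * ∫ a, Gq e a (pd f a) (gp u a) ∂μ) * t + ∫ a, Gq e a (pd f a) (pd f a) ∂μ
      = ∫ a, Gq e a (fun i => pd f a i + t * gp u a i) (fun i => pd f a i + t * gp u a i) ∂μ := by
      simp_rw [Gq_expand]
      have j1 : Integrable (fun a => Gq e a (gp u a) (gp u a) * (t * t)) μ := i3.mul_const _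
      have j2 : Integrable (fun a => 2 * Gq e a (pd f a) (gp u a) * t) μ :=
        (i2.const_mul 2).mul_const _
      have j3 : Integrable (fun a => Gq e a (gp u a) (gp u a) * (t * t) +
        2 * Gq e a (pd f a) (gp u a) * t) μ := j1.add j2
      rw [integral_add j3 i1, integral_add j1 j2, integral_mul_const, integral_mul_const,
        integral_const_mul]
    rw [e1]
    refine integral_nonneg_of_ae ?_
    filter_upwards [D.supp] with a ha using D.Gnonneg a ha _
  have hd := discrim_le_zero hcs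
  rw [discrim] at hd
  have h3 : (∫ a, Gq e a (pd f a) (gp u a) ∂μ) ^ 2 ≤
      (∫ a, Gq e a (pd f a) (pd f a) ∂μ) * ∫ a, Gq e a (gp u a) (gp u a) ∂μ := by
    nlinarith
  have h4 : 0 ≤ ∫ a, Gq e a (pd f a) (pd f a) ∂μ := by
    refine integral_nonneg_of_ae ?_
    filter_upwards [D.supp] with a ha using D.Gnonneg a ha _
  rw [h1]
  refine h3.trans ?_
  rw [← h2]
  calc _ ≤ (∫ a, Gq e a (pd f a) (pd f a) ∂μ) *
        ((1 / (ρ + σ)) * ∫ a, ev h a * ev h a ∂μ) := mul_le_mul_of_nonneg_left hu2 h4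
    _ = _ := by ring

end

end Pool.Agent.Lib.MP_8d00da_gt.h30
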