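import Mathlib
import Pool.Agent.Lib.MP_8d00da_gt.h30.Abstract

/-!
# Matrix identities and inequalities
-/

namespace Pool.Agent.Lib.MP_8d00da_gt.h30

open Finset Matrix

variable {n p q : ℕ}

/-- The matrix `∑ aᵢ eᵢ`. -/
noncomputable def Am (e : Fin n → Matrix (Fin p) (Fin q) ℝ) (a : Fin n → ℝ) :
    Matrix (Fin p) (Fin q) ℝ := ∑ i, a i • e i

/-- The squared Frobenius norm. -/
noncomputable def fro {r s : Type*} [Fintype r] [Fintype s] (X : Matrix r s ℝ) : ℝ :=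
  ∑ i, ∑ j, X i j ^ 2

lemma fro_nonneg {r s : Type*} [Fintype r] [Fintype s] (X : Matrix r s ℝ) : 0 ≤ fro X :=
  Finset.sum_nonneg fun _ _ => Finset.sum_nonneg fun _ _ => sq_nonneg _

lemma fro_transpose {r s : Type*} [Fintype r] [Fintype s] (X : Matrix r s ℝ) :
    fro Xᵀ = fro X := by
  unfold fro
  rw [Finset.sum_comm]
  rfl

lemma trace_tr_mul {r s : Type*} [Fintype r] [Fintype s] (X Y : Matrix r s ℝ) :
    trace (Xᵀ * Y) = ∑ i, ∑ j, X i j * Y i j := by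
  rw [trace, Finset.sum_comm]
  rfl

lemma trace_self {r s : Type*} [Fintype r] [Fintype s] (X : Matrix r s ℝ) :
    trace (Xᵀ * X) = fro X := by
  rw [trace_tr_mul]
  unfold fro
  exact Finset.sum_congr rfl fun _ _ => Finset.sum_congr rfl fun _ _ => (sq _).symm

lemma two_trace_le {r s : Type*} [Fintype r] [Fintype s] (X Y : Matrix r s ℝ) :
    |2 * trace (Xᵀ * Y)| ≤ fro X + fro Y := by
  rw [trace_tr_mul]
  unfold fro
  rw [Finset.mul_sum, ← Finset.sum_add_distrib]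
  refine (Finset.abs_sum_le_sum_abs _ _).trans (Finset.sum_le_sum fun i _ => ?_)
  rw [Finset.mul_sum, ← Finset.sum_add_distrib]
  refine (Finset.abs_sum_le_sum_abs _ _).trans (Finset.sum_le_sum fun j _ => ?_)
  rw [abs_le]
  constructor <;> nlinarith [sq_nonneg (X i j - Y i j), sq_nonneg (X i j + Y i j)]

lemma sum4' (f : Fin n → Fin n → Fin n → Fin n → ℝ) :
    ∑ l, ∑ j, ∑ k, ∑ i, f i j k l = ∑ i, ∑ j, ∑ k, ∑ l, f i j k l := by
  have h1 : ∑ l, ∑ j, ∑ k, ∑ i, f i j k l = ∑ j, ∑ l, ∑ k, ∑ i, f i j k l := Finset.sum_comm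
  have h2 : ∑ j, ∑ l, ∑ k, ∑ i, f i j k l = ∑ i, ∑ j, ∑ k, ∑ l, f i j k l := sum4 f
  rw [h1, h2]

lemma Am_tr_four (e : Fin n → Matrix (Fin p) (Fin q) ℝ) (v a w b : Fin n → ℝ) :
    trace ((Am e v)ᵀ * Am e a * (Am e w)ᵀ * Am e b)
      = ∑ i, ∑ j, (∑ k, ∑ l, cc e i j k l * (a k * b l)) * (v i * w j) := by
  unfold Am cc
  simp only [Matrix.transpose_sum, Matrix.transpose_smul, Matrix.sum_mul, Matrix.mul_sum,
    Matrix.smul_mul, Matrix.mul_smul, trace_sum, trace_smul, smul_eq_mul, Finset.sum_mul,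
    Finset.mul_sum]
  rw [sum4' (fun i j k l => b l * (w j * (a k * (v i * ((e i)ᵀ * e k * (e j)ᵀ * e l).trace))))]
  refine Finset.sum_congr rfl fun i _ => Finset.sum_congr rfl fun j _ =>
    Finset.sum_congr rfl fun k _ => Finset.sum_congr rfl fun l _ => ?_
  ring

lemma Gq_eq (e : Fin n → Matrix (Fin p) (Fin q) ℝ) (a : EuclideanSpace ℝ (Fin n))
    (v w : Fin n → ℝ) :
    Gq e a v w = ∑ i, v i * w i
      - trace ((Am e v)ᵀ * Am e (fun i => a i) * (Am e w)ᵀ * Am e (fun i => a i)) := by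
  rw [Am_tr_four]; rfl

/-- Orthonormality of the system `e`. -/
def ON (e : Fin n → Matrix (Fin p) (Fin q) ℝ) : Prop :=
  ∀ i j, trace ((e i)ᵀ * e j) = if i = j then 1 else 0

lemma ON.trace_Am {e : Fin n → Matrix (Fin p) (Fin q) ℝ} (h : ON e) (v w : Fin n → ℝ) :
    trace ((Am e v)ᵀ * Am e w) = ∑ i, v i * w i := by
  classical
  unfold Am
  simp only [Matrix.transpose_sum, Matrix.transpose_smul, Matrix.sum_mul, Matrix.mul_sum,
    Matrix.smul_mul, Matrix.mul_smul, trace_sum, trace_smul, smul_eq_mul]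
  refine Finset.sum_congr rfl fun i _ => ?_
  simp only [h _ i, mul_ite, mul_one, mul_zero, Finset.sum_ite_eq', Finset.mem_univ, if_true]
  exact mul_comm _ _

lemma ON.fro_Am {e : Fin n → Matrix (Fin p) (Fin q) ℝ} (h : ON e) (v : Fin n → ℝ) :
    fro (Am e v) = ∑ i, v i ^ 2 := by
  rw [← trace_self, h.trace_Am]
  exact Finset.sum_congr rfl fun _ _ => (sq _).symm

/-- A contraction (coordinate form). -/
def Contr (A : Matrix (Fin p) (Fin q) ℝ) : Prop :=
  ∀ v : Fin q → ℝ, ∑ r, (A *ᵥ v) r ^ 2 ≤ ∑ s, v s ^ 2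

lemma Contr.fro_mul {A : Matrix (Fin p) (Fin q) ℝ} (h : Contr A) {s : Type*} [Fintype s]
    (Y : Matrix (Fin q) s ℝ) : fro (A * Y) ≤ fro Y := by
  unfold fro
  rw [Finset.sum_comm, Finset.sum_comm (f := fun i j => Y i j ^ 2)]
  refine Finset.sum_le_sum fun j _ => ?_
  exact h (fun i => Y i j)

lemma Contr.transpose {A : Matrix (Fin p) (Fin q) ℝ} (h : Contr A) : Contr Aᵀ := by
  intro w
  set z := Aᵀ *ᵥ w with hz
  -- `|z|² = ⟨A z, w⟩ ≤ |A z| |w| ≤ |z| |w|`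
  have h1 : ∑ r, z r ^ 2 = ∑ s, (A *ᵥ z) s * w s := by
    have : (A *ᵥ z) ⬝ᵥ w = z ⬝ᵥ z := by
      rw [dotProduct_comm, Matrix.dotProduct_mulVec, ← Matrix.mulVec_transpose, ← hz]
    simp only [dotProduct] at this
    rw [this]
    exact Finset.sum_congr rfl fun _ _ => sq _
  have h2 : (∑ s, (A *ᵥ z) s * w s) ^ 2 ≤ (∑ s, (A *ᵥ z) s ^ 2) * ∑ s, w s ^ 2 :=
    Finset.sum_mul_sq_le_sq_mul_sq _ _ _
  have h3 := h z
  set Z := ∑ r, z r ^ 2 with hZ
  have hZ0 : 0 ≤ Z := Finset.sum_nonneg fun _ _ => sq_nonneg _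
  have hW0 : 0 ≤ ∑ s, w s ^ 2 := Finset.sum_nonneg fun _ _ => sq_nonneg _
  rw [← h1] at h2
  have h4 : Z ^ 2 ≤ Z * ∑ s, w s ^ 2 := h2.trans (mul_le_mul_of_nonneg_right h3 hW0)
  rcases hZ0.eq_or_lt with h5 | h5
  · rw [← h5]; exact hW0
  · exact le_of_mul_le_mul_left (by nlinarith : Z * Z ≤ Z * ∑ s, w s ^ 2) h5

lemma Contr.fro_mul_right {A : Matrix (Fin p) (Fin q) ℝ} (h : Contr A) {s : Type*} [Fintype s]
    (Y : Matrix s (Fin p) ℝ) : fro (Y * A) ≤ fro Y := by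
  rw [← fro_transpose (Y * A), Matrix.transpose_mul, ← fro_transpose Y]
  exact h.transpose.fro_mul _

lemma Contr.trace_bound {A V : Matrix (Fin p) (Fin q) ℝ} (h : Contr A) :
    |trace (Vᵀ * A * Vᵀ * A)| ≤ fro V := by
  have h1 := two_trace_le V (A * (Vᵀ * A))
  have h2 : fro (A * (Vᵀ * A)) ≤ fro V := by
    refine (h.fro_mul _).trans ((h.fro_mul_right _).trans ?_)
    rw [fro_transpose]
  have h3 : Vᵀ * A * Vᵀ * A = Vᵀ * (A * (Vᵀ * A)) := by
    simp only [Matrix.mul_assoc]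
  rw [h3]
  rw [abs_mul, abs_of_nonneg (by norm_num : (0 : ℝ) ≤ 2)] at h1
  linarith

lemma ON.G_nonneg {e : Fin n → Matrix (Fin p) (Fin q) ℝ} (h : ON e)
    {a : EuclideanSpace ℝ (Fin n)} (ha : Contr (Am e (fun i => a i))) (v : Fin n → ℝ) :
    0 ≤ Gq e a v v := by
  rw [Gq_eq]
  have h1 := ha.trace_bound (V := Am e v)
  rw [h.fro_Am, abs_le] at h1
  have h2 : ∑ i, v i * v i = ∑ i, v i ^ 2 := Finset.sum_congr rfl fun _ _ => (sq _).symm
  rw [h2]
  linarith [h1.2]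

lemma ON.G_le {e : Fin n → Matrix (Fin p) (Fin q) ℝ} (h : ON e)
    {a : EuclideanSpace ℝ (Fin n)} (ha : Contr (Am e (fun i => a i))) (v : Fin n → ℝ) :
    Gq e a v v ≤ 2 * ∑ i, v i ^ 2 := by
  rw [Gq_eq]
  have h1 := ha.trace_bound (V := Am e v)
  rw [h.fro_Am, abs_le] at h1
  have h2 : ∑ i, v i * v i = ∑ i, v i ^ 2 := Finset.sum_congr rfl fun _ _ => (sq _).symm
  rw [h2]
  linarith [h1.1]

/-- `RR` as a sum of Frobenius norms. -/
lemma RR_quad (e : Fin n → Matrix (Fin p) (Fin q) ℝ) (x : Fin n → ℝ) :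
    ∑ j, ∑ k, RR e j k * (x j * x k)
      = ∑ i, (fro ((Am e x)ᵀ * e i) + fro (e i * (Am e x)ᵀ)) := by
  classical
  have h1 : ∀ i, fro (e i * (Am e x)ᵀ) = ∑ j, ∑ k, cc e i j i k * (x j * x k) := by
    intro i
    rw [← trace_self, Matrix.transpose_mul, Matrix.transpose_transpose]
    have : trace (Am e x * (e i)ᵀ * (e i * (Am e x)ᵀ))
        = trace ((e i)ᵀ * e i * (Am e x)ᵀ * Am e x) := by
      rw [Matrix.mul_assoc, Matrix.trace_mul_comm]
      simp only [Matrix.mul_assoc]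
    rw [this]
    unfold Am cc
    simp only [Matrix.transpose_sum, Matrix.transpose_smul, Matrix.sum_mul, Matrix.mul_sum,
      Matrix.smul_mul, Matrix.mul_smul, trace_sum, trace_smul, smul_eq_mul, Finset.mul_sum]
    rw [Finset.sum_comm]
    refine Finset.sum_congr rfl fun j _ => Finset.sum_congr rfl fun k _ => ?_
    ring
  have h2 : ∀ i, fro ((Am e x)ᵀ * e i) = ∑ j, ∑ k, cc e i j k i * (x j * x k) := by
    intro i
    rw [← trace_self, Matrix.transpose_mul, Matrix.transpose_transpose]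
    have : trace ((e i)ᵀ * Am e x * ((Am e x)ᵀ * e i))
        = trace ((e i)ᵀ * Am e x * (Am e x)ᵀ * e i) := by
      simp only [Matrix.mul_assoc]
    rw [this]
    unfold Am cc
    simp only [Matrix.transpose_sum, Matrix.transpose_smul, Matrix.sum_mul, Matrix.mul_sum,
      Matrix.smul_mul, Matrix.mul_smul, trace_sum, trace_smul, smul_eq_mul, Finset.mul_sum]
    refine Finset.sum_congr rfl fun j _ => Finset.sum_congr rfl fun k _ => ?_
    ring
  simp_rw [h1, h2]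
  unfold RR
  simp_rw [Finset.sum_mul]
  rw [Finset.sum_add_distrib]
  have h3 : ∀ F : Fin n → Fin n → Fin n → ℝ, ∑ i, ∑ j, ∑ k, F i j k = ∑ j, ∑ k, ∑ i, F i j k := by
    intro F
    rw [Finset.sum_comm]
    exact Finset.sum_congr rfl fun j _ => Finset.sum_comm
  rw [h3, h3, ← Finset.sum_add_distrib]
  refine Finset.sum_congr rfl fun j _ => ?_
  rw [← Finset.sum_add_distrib]
  refine Finset.sum_congr rfl fun k _ => ?_
  rw [← Finset.sum_add_distrib]
  refine Finset.sum_congr rfl fun i _ => ?_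
  ring

lemma RR_symm (e : Fin n → Matrix (Fin p) (Fin q) ℝ) (j k : Fin n) : RR e j k = RR e k j := by
  unfold RR cc
  refine Finset.sum_congr rfl fun i _ => ?_
  congr 1
  · rw [← Matrix.trace_transpose]
    simp only [Matrix.transpose_mul, Matrix.transpose_transpose]
    rw [← Matrix.mul_assoc, ← Matrix.mul_assoc, Matrix.mul_assoc, Matrix.trace_mul_comm,
      ← Matrix.mul_assoc]
  · rw [← Matrix.trace_transpose]
    simp only [Matrix.transpose_mul, Matrix.transpose_transpose, Matrix.mul_assoc]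

lemma ON.RR_pos {e : Fin n → Matrix (Fin p) (Fin q) ℝ} (h : ON e) {x : Fin n → ℝ} (hx : x ≠ 0) :
    0 < ∑ j, ∑ k, RR e j k * (x j * x k) := by
  rw [RR_quad]
  have h0 : ∀ i, 0 ≤ fro ((Am e x)ᵀ * e i) + fro (e i * (Am e x)ᵀ) := fun i =>
    add_nonneg (fro_nonneg _) (fro_nonneg _)
  refine lt_of_le_of_ne (Finset.sum_nonneg fun i _ => h0 i) fun h1 => hx ?_
  have h2 : ∀ i, fro ((Am e x)ᵀ * e i) = 0 := by
    intro i
    have := (Finset.sum_eq_zero_iff_of_nonneg (fun i _ => h0 i)).1 h1.symm i (mem_univ i)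
    linarith [fro_nonneg ((Am e x)ᵀ * e i), fro_nonneg (e i * (Am e x)ᵀ)]
  have h3 : ∀ i, (Am e x)ᵀ * e i = 0 := by
    intro i
    ext r s
    have h4 := h2 i
    unfold fro at h4
    have h5 := (Finset.sum_eq_zero_iff_of_nonneg (fun r _ =>
      Finset.sum_nonneg fun s _ => sq_nonneg _)).1 h4 r (mem_univ r)
    have h6 := (Finset.sum_eq_zero_iff_of_nonneg (fun s _ => sq_nonneg _)).1 h5 s (mem_univ s)
    simpa using h6
  have h4 : ∑ i, x i ^ 2 = 0 := by
    rw [← h.fro_Am, ← trace_self]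
    conv_lhs => rw [show Am e x = ∑ i, x i • e i from rfl]
    have : (∑ i, x i • e i)ᵀ * ∑ i, x i • e i = ∑ i, x i • ((Am e x)ᵀ * e i) := by
      rw [Matrix.mul_sum]
      exact Finset.sum_congr rfl fun i _ => by rw [Matrix.mul_smul]; rfl
    rw [this]
    simp [h3]
  ext i
  have := (Finset.sum_eq_zero_iff_of_nonneg (fun i _ => sq_nonneg (x i))).1 h4 i (mem_univ i)
  simpa using this

end Pool.Agent.Lib.MP_8d00da_gt.h30
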