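import Mathlib
import Pool.Agent.Lib.MP_8d00da_gt.h30.Abstract

/-!
# The abstract Poincaré inequality
-/

namespace Pool.Agent.Lib.MP_8d00da_gt.h30

open MvPolynomial Finset MeasureTheory Filter Topology

variable {n p q : ℕ}

lemma poly_dense {K : Set (EuclideanSpace ℝ (Fin n))} (hK : IsCompact K)
    {f : EuclideanSpace ℝ (Fin n) → ℝ} (hf : Continuous f) {ε : ℝ} (hε : 0 < ε) :
    ∃ P : MvPolynomial (Fin n) ℝ, ∀ a ∈ K, |f a - ev P a| ≤ ε := by
  have : CompactSpace K := isCompact_iff_compactSpace.1 hK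
  let φ : Fin n → C(K, ℝ) := fun i => ⟨fun a => a.1 i, by fun_prop⟩
  let A : Subalgebra ℝ C(K, ℝ) := (MvPolynomial.aeval φ : MvPolynomial (Fin n) ℝ →ₐ[ℝ] _).range
  have hval : ∀ (P : MvPolynomial (Fin n) ℝ) (a : K), (MvPolynomial.aeval φ P) a = ev P a.1 := by
    intro P a
    induction P using MvPolynomial.induction_on with
    | C c => rw [ev_C]; simp
    | add P Q hP hQ => rw [map_add, ContinuousMap.add_apply, hP, hQ, ev_add]
    | mul_X P i hP => rw [map_mul, ContinuousMap.mul_apply, hP, ev_mul, ev_X, aeval_X]; rfl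
  have hsep : A.SeparatesPoints := by
    intro a b hab
    have h1 : ∃ i, a.1 i ≠ b.1 i := by
      by_contra h
      push Not at h
      exact hab (Subtype.ext (by ext i; exact h i))
    obtain ⟨i, hi⟩ := h1
    refine ⟨φ i, ⟨φ i, ?_, rfl⟩, hi⟩
    exact ⟨X i, by simp⟩
  obtain ⟨⟨g, P, hP⟩, hg⟩ := ContinuousMap.exists_mem_subalgebra_near_continuousMap_of_separatesPoints
    A hsep ⟨fun a : K => f a.1, by fun_prop⟩ ε hε
  refine ⟨P, fun a ha => ?_⟩
  have h1 := (ContinuousMap.norm_coe_le_norm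
    (g - (⟨fun a : K => f a.1, by fun_prop⟩ : C(K, ℝ))) ⟨a, ha⟩).trans hg.le
  rw [ContinuousMap.sub_apply, Real.norm_eq_abs, abs_sub_comm] at h1
  have h2 : g ⟨a, ha⟩ = ev P a := by
    rw [← hval P ⟨a, ha⟩]
    exact congrArg (fun F : C(K, ℝ) => F ⟨a, ha⟩) hP.symm
  rw [h2] at h1
  exact h1

variable {e : Fin n → Matrix (Fin p) (Fin q) ℝ} {σ : ℝ}
  {μ : Measure (EuclideanSpace ℝ (Fin n))} {K : Set (EuclideanSpace ℝ (Fin n))}

lemma AData.poincare (D : AData e σ μ K) (ρ : ℝ) (hρ : 0 ≤ ρ) (hσ : 0 ≤ σ) (hr : 0 < ρ + σ)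
    (hR : ∀ x : Fin n → ℝ, ρ * ∑ j, x j ^ 2 ≤ ∑ j, ∑ k, RR e j k * (x j * x k))
    {f : EuclideanSpace ℝ (Fin n) → ℝ} {C : NNReal} (hf : LipschitzWith C f) :
    ∫ a, (f a - ∫ b, f b ∂μ) ^ 2 ∂μ ≤ (1 / (ρ + σ)) * ∫ a, Gq e a (pd f a) (pd f a) ∂μ := by
  have := D.prob
  set c := ∫ b, f b ∂μ with hc
  set S := (1 / (ρ + σ)) * ∫ a, Gq e a (pd f a) (pd f a) ∂μ with hS
  have hS0 : 0 ≤ S := by
    refine mul_nonneg (by positivity) (integral_nonneg_of_ae ?_)
    filter_upwards [D.supp] with a ha using D.Gnonneg a ha _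
  set V := ∫ a, (f a - c) ^ 2 ∂μ with hV
  have hV0 : 0 ≤ V := integral_nonneg fun a => sq_nonneg _
  set B := ∫ a, |f a - c| ∂μ with hB
  have hB0 : 0 ≤ B := integral_nonneg fun a => abs_nonneg _
  have hfi : Integrable f μ := D.integ_cont hf.continuous
  -- the approximate inequality
  have key : ∀ ε : ℝ, 0 < ε → (max (V - 2 * ε * B) 0) ^ 2 ≤ S * (V + 4 * ε * B + 4 * ε ^ 2) := by
    intro ε hε
    obtain ⟨P, hP⟩ := poly_dense D.compact hf.continuous hε
    have hPi : Integrable (ev P) μ := D.integ_cont (ev_continuous P)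
    set m := ∫ a, ev P a ∂μ with hm
    have hmc : |c - m| ≤ ε := by
      have e1 : c - m = ∫ a, (f a - ev P a) ∂μ := (integral_sub hfi hPi).symm
      have e2 : ‖∫ a, (f a - ev P a) ∂μ‖ ≤ ε * μ.real Set.univ :=
        norm_integral_le_of_norm_le_const (by
          filter_upwards [D.supp] with a ha using hP a ha)
      rw [← Real.norm_eq_abs, e1]
      simpa using e2
    set h : MvPolynomial (Fin n) ℝ := P - MvPolynomial.C m with hh
    have hev : ∀ a, ev h a = ev P a - m := fun a => by rw [hh, ev_sub, ev_C]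
    have hclose : ∀ a ∈ K, |(f a - c) - ev h a| ≤ 2 * ε := by
      intro a ha
      rw [hev]
      have e1 : (f a - c) - (ev P a - m) = (f a - ev P a) + -(c - m) := by ring
      rw [e1]
      refine (abs_add_le _ _).trans ?_
      rw [abs_neg]
      linarith [hP a ha]
    have hh0 : ∫ a, ev h a ∂μ = 0 := by
      simp_rw [hev]
      rw [integral_sub hPi (integrable_const _)]
      simp [hm]
    have hd := D.dual ρ hρ hσ hr hR hf h hh0
    have c1 : Continuous fun a => f a - c := hf.continuous.sub continuous_const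
    have c2 : Continuous (ev h) := ev_continuous h
    have e3 : ∫ a, f a * ev h a ∂μ = ∫ a, (f a - c) * ev h a ∂μ := by
      have i1 : Integrable (fun a => f a * ev h a) μ := D.integ_cont (hf.continuous.mul c2)
      have i2 : Integrable (fun a => c * ev h a) μ := D.integ_cont (continuous_const.mul c2)
      have e4 : ∫ a, (f a - c) * ev h a ∂μ = ∫ a, (f a * ev h a - c * ev h a) ∂μ :=
        integral_congr_ae (Eventually.of_forall fun a => by ring)
      rw [e4, integral_sub i1 i2, integral_const_mul, hh0]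
      ring
    rw [e3] at hd
    have iabs : Integrable (fun a => |f a - c|) μ := D.integ_cont c1.abs
    have isq : Integrable (fun a => (f a - c) ^ 2) μ := D.integ_cont (c1.pow 2)
    have ifh : Integrable (fun a => (f a - c) * ev h a) μ := D.integ_cont (c1.mul c2)
    have ihh : Integrable (fun a => ev h a * ev h a) μ := D.integ_cont (c2.mul c2)
    have e5 : V - 2 * ε * B ≤ ∫ a, (f a - c) * ev h a ∂μ := by
      have e6 : V - 2 * ε * B = ∫ a, ((f a - c) ^ 2 - 2 * ε * |f a - c|) ∂μ := by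
        rw [integral_sub isq (iabs.const_mul _), integral_const_mul]
      rw [e6]
      refine integral_mono_ae (isq.sub (iabs.const_mul _)) ifh ?_
      filter_upwards [D.supp] with a ha
      have h1 := hclose a ha
      have h2 : (f a - c) * ev h a = (f a - c) ^ 2 - (f a - c) * ((f a - c) - ev h a) := by ring
      rw [h2]
      have h3 : (f a - c) * ((f a - c) - ev h a) ≤ |f a - c| * (2 * ε) := by
        refine (le_abs_self _).trans ?_
        rw [abs_mul]
        exact mul_le_mul_of_nonneg_left h1 (abs_nonneg _)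
      linarith
    have e7 : ∫ a, ev h a * ev h a ∂μ ≤ V + 4 * ε * B + 4 * ε ^ 2 := by
      have e8 : V + 4 * ε * B + 4 * ε ^ 2
          = ∫ a, ((f a - c) ^ 2 + 4 * ε * |f a - c| + 4 * ε ^ 2) ∂μ := by
        have j1 : Integrable (fun a => (f a - c) ^ 2 + 4 * ε * |f a - c|) μ :=
          isq.add (iabs.const_mul _)
        rw [integral_add j1 (integrable_const _), integral_add isq (iabs.const_mul _),
          integral_const_mul, ← hV, ← hB]
        simp
      rw [e8]
      refine integral_mono_ae ihh ((isq.add (iabs.const_mul _)).add (integrable_const _)) ?_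
      filter_upwards [D.supp] with a ha
      have h1 := hclose a ha
      have h2 : |ev h a| ≤ |f a - c| + 2 * ε := by
        have : ev h a = (f a - c) - ((f a - c) - ev h a) := by ring
        rw [this]
        exact (abs_sub _ _).trans (by linarith)
      have h3 : ev h a * ev h a = |ev h a| ^ 2 := by rw [sq_abs]; ring
      rw [h3]
      calc |ev h a| ^ 2 ≤ (|f a - c| + 2 * ε) ^ 2 := pow_le_pow_left₀ (abs_nonneg _) h2 2
        _ = |f a - c| ^ 2 + 4 * ε * |f a - c| + 4 * ε ^ 2 := by ring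
        _ = (f a - c) ^ 2 + 4 * ε * |f a - c| + 4 * ε ^ 2 := by rw [sq_abs]
    calc (max (V - 2 * ε * B) 0) ^ 2 ≤ |∫ a, (f a - c) * ev h a ∂μ| ^ 2 := by
          refine pow_le_pow_left₀ (le_max_right _ _) (max_le (e5.trans (le_abs_self _))
            (abs_nonneg _)) 2
      _ = (∫ a, (f a - c) * ev h a ∂μ) ^ 2 := sq_abs _
      _ ≤ S * ∫ a, ev h a * ev h a ∂μ := hd
      _ ≤ S * (V + 4 * ε * B + 4 * ε ^ 2) := mul_le_mul_of_nonneg_left e7 hS0
  -- pass to the limit
  have hlim : (max (V - 2 * 0 * B) 0) ^ 2 ≤ S * (V + 4 * 0 * B + 4 * 0 ^ 2) := by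
    have t1 : Tendsto (fun ε : ℝ => (max (V - 2 * ε * B) 0) ^ 2) (𝓝[>] 0)
        (𝓝 ((max (V - 2 * 0 * B) 0) ^ 2)) := by
      refine (Continuous.tendsto ?_ 0).mono_left nhdsWithin_le_nhds
      fun_prop
    have t2 : Tendsto (fun ε : ℝ => S * (V + 4 * ε * B + 4 * ε ^ 2)) (𝓝[>] 0)
        (𝓝 (S * (V + 4 * 0 * B + 4 * 0 ^ 2))) := by
      refine (Continuous.tendsto ?_ 0).mono_left nhdsWithin_le_nhds
      fun_prop
    exact le_of_tendsto_of_tendsto t1 t2 (by
      filter_upwards [self_mem_nhdsWithin] with ε hε using key ε hε)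
  have h1 : V ^ 2 ≤ S * V := by
    have h2 : max V 0 = V := max_eq_left hV0
    simpa [h2] using hlim
  rcases hV0.eq_or_lt with h2 | h2
  · rw [← h2]; exact hS0
  · exact le_of_mul_le_mul_right (by nlinarith : V * V ≤ S * V) h2

end Pool.Agent.Lib.MP_8d00da_gt.h30
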