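import Mathlib
import Pool.Agent.Lib.MP_8d00da_gt.h30.Mat
import Pool.Agent.Lib.MP_8d00da_gt.h30.Poin

/-!
# The covariance bound
-/

namespace Pool.Agent.Lib.MP_8d00da_gt.h30

open MvPolynomial Finset MeasureTheory Matrix
open scoped InnerProductSpace

variable {n p q : ℕ}

/-- The smallest eigenvalue of `RR` with an eigenvector. -/
lemma ON.exists_min {e : Fin n → Matrix (Fin p) (Fin q) ℝ} (h : ON e) (hn : 0 < n) :
    ∃ (ρ : ℝ) (x : Fin n → ℝ), 0 < ρ ∧ ∑ j, x j ^ 2 = 1 ∧
      (∀ j, ∑ k, RR e j k * x k = ρ * x j) ∧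
      ∀ y : Fin n → ℝ, ρ * ∑ j, y j ^ 2 ≤ ∑ j, ∑ k, RR e j k * (y j * y k) := by
  classical
  set Rm : Matrix (Fin n) (Fin n) ℝ := Matrix.of (RR e) with hRm
  have hH : Rm.IsHermitian := by
    ext j k
    simp only [Matrix.conjTranspose_apply, star_trivial, hRm, Matrix.of_apply]
    exact RR_symm e k j
  set T := Matrix.toEuclideanLin Rm with hT
  have hsym : T.IsSymmetric := Matrix.isHermitian_iff_isSymmetric.1 hH
  have hfr : Module.finrank ℝ (EuclideanSpace ℝ (Fin n)) = n := by simp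
  set b := hsym.eigenvectorBasis hfr with hb
  set lam := hsym.eigenvalues hfr with hlam
  have hTb : ∀ i, T (b i) = lam i • b i := fun i => hsym.apply_eigenvectorBasis hfr i
  have hne : (univ : Finset (Fin n)).Nonempty := ⟨⟨0, hn⟩, mem_univ _⟩
  obtain ⟨i0, -, hi0⟩ := Finset.exists_min_image univ lam hne
  have hTx : ∀ (y : EuclideanSpace ℝ (Fin n)) j, T y j = ∑ k, RR e j k * y k := by
    intro y j
    rw [hT, Matrix.toEuclideanLin_apply]
    simp [Matrix.mulVec, dotProduct, hRm]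
  have hquad : ∀ y : EuclideanSpace ℝ (Fin n),
      ⟪y, T y⟫_ℝ = ∑ j, ∑ k, RR e j k * (y j * y k) := by
    intro y
    rw [PiLp.inner_apply]
    refine Finset.sum_congr rfl fun j _ => ?_
    rw [hTx]
    simp only [RCLike.inner_apply, conj_trivial, Finset.sum_mul]
    exact Finset.sum_congr rfl fun k _ => by ring
  have hlow : ∀ y : EuclideanSpace ℝ (Fin n), lam i0 * ‖y‖ ^ 2 ≤ ⟪y, T y⟫_ℝ := by
    intro y
    have e1 : ⟪y, T y⟫_ℝ = ∑ i, lam i * ⟪b i, y⟫_ℝ ^ 2 := by
      rw [← b.sum_inner_mul_inner]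
      refine Finset.sum_congr rfl fun i _ => ?_
      rw [← hsym (b i) y, hTb, inner_smul_left, real_inner_comm]
      simp only [conj_trivial]
      ring
    rw [e1, ← b.sum_sq_norm_inner_right y, Finset.mul_sum]
    refine Finset.sum_le_sum fun i _ => ?_
    rw [Real.norm_eq_abs, sq_abs]
    exact mul_le_mul_of_nonneg_right (hi0 i (mem_univ i)) (sq_nonneg _)
  have hbn : ∑ j, (b i0 j) ^ 2 = 1 := by
    have h1 : ‖b i0‖ = 1 := b.orthonormal.1 i0
    have h2 := EuclideanSpace.norm_sq_eq (b i0)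
    rw [h1] at h2
    simp only [Real.norm_eq_abs, sq_abs] at h2
    rw [← h2]; norm_num
  have heig : ∀ j, ∑ k, RR e j k * (b i0) k = lam i0 * (b i0) j := by
    intro j
    rw [← hTx, hTb]
    simp
  have hpos : 0 < lam i0 := by
    have h1 : (fun j => b i0 j) ≠ 0 := by
      intro h0
      have : ∑ j, (b i0 j) ^ 2 = 0 := by
        refine Finset.sum_eq_zero fun j _ => ?_
        have := congrFun h0 j
        simp only [Pi.zero_apply] at this
        rw [this]; norm_num
      rw [hbn] at this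
      norm_num at this
    have h2 := h.RR_pos h1
    have h3 : ∑ j, ∑ k, RR e j k * ((b i0) j * (b i0) k) = lam i0 := by
      have : ∀ j, ∑ k, RR e j k * ((b i0) j * (b i0) k) = lam i0 * (b i0 j) ^ 2 := by
        intro j
        rw [show ∑ k, RR e j k * ((b i0) j * (b i0) k) = (b i0) j * ∑ k, RR e j k * (b i0) k by
          rw [Finset.mul_sum]; exact Finset.sum_congr rfl fun k _ => by ring, heig]
        ring
      simp_rw [this]
      rw [← Finset.mul_sum, hbn, mul_one]
    rwa [h3] at h2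
  refine ⟨lam i0, fun j => b i0 j, hpos, hbn, heig, fun y => ?_⟩
  have h1 := hlow (WithLp.toLp 2 y)
  rw [hquad, EuclideanSpace.norm_sq_eq] at h1
  simpa using h1

/-- The linear polynomial `⟨x, a⟩`. -/
noncomputable def lin (x : Fin n → ℝ) : MvPolynomial (Fin n) ℝ := ∑ i, x i • X i

lemma ev_lin (x : Fin n → ℝ) (a : EuclideanSpace ℝ (Fin n)) : ev (lin x) a = ∑ i, x i * a i := by
  unfold lin
  rw [ev_sum]
  exact Finset.sum_congr rfl fun i _ => by rw [ev_smul, ev_X]

lemma pderiv_lin (x : Fin n → ℝ) (j : Fin n) : pderiv j (lin x) = MvPolynomial.C (x j) := by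
  classical
  unfold lin
  rw [map_sum]
  rw [Finset.sum_eq_single j]
  · rw [Derivation.map_smul, pderiv_X_self, MvPolynomial.smul_eq_C_mul, mul_one]
  · intro i _ hi
    rw [Derivation.map_smul, pderiv_X_of_ne hi, smul_zero]
  · simp

lemma gp_lin (x : Fin n → ℝ) (a : EuclideanSpace ℝ (Fin n)) : gp (lin x) a = x := by
  ext i
  unfold gp
  rw [pderiv_lin, ev_C]

lemma Lop_lin (e : Fin n → Matrix (Fin p) (Fin q) ℝ) (σ ρ : ℝ) {x : Fin n → ℝ}
    (hx : ∀ j, ∑ k, RR e j k * x k = ρ * x j) :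
    Lop e σ (lin x) = -((ρ + σ) • lin x) := by
  classical
  rw [Lop_apply, Lap_apply, A0_apply, Eul_apply]
  have h1 : ∀ a b : Fin n, (pderiv a (X b : MvPolynomial (Fin n) ℝ)) = if a = b then 1 else 0 := by
    intro a b
    rw [pderiv_X, Pi.single_apply]
    simp only [eq_comm]
  have h2 : ∑ i, pderiv i (pderiv i (lin x)) = 0 := by
    refine Finset.sum_eq_zero fun i _ => ?_
    rw [pderiv_lin, pderiv_C]
  have h3 : ∑ i, X i * pderiv i (lin x) = lin x := by
    unfold lin
    refine Finset.sum_congr rfl fun i _ => ?_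
    have := pderiv_lin x i
    unfold lin at this
    rw [this, MvPolynomial.smul_eq_C_mul, mul_comm]
  have h4 : ∀ i j k l, pderiv i (X k * (X l * pderiv j (lin x)))
      = (if i = k then x j • X l else 0) + (if i = l then x j • X k else 0) := by
    intro i j k l
    rw [pderiv_lin, pderiv_mul, pderiv_mul, h1, h1, pderiv_C]
    by_cases hk : i = k
    · by_cases hl : i = l
      · simp only [hk, hl, if_true, MvPolynomial.smul_eq_C_mul]
        subst hk; subst hl
        simp only [if_true]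
        ring
      · simp only [hk, if_true]
        subst hk
        simp only [hl, if_false, MvPolynomial.smul_eq_C_mul]
        ring
    · by_cases hl : i = l
      · simp only [hk, if_false]
        subst hl
        simp only [if_true, MvPolynomial.smul_eq_C_mul]
        ring
      · simp only [hk, hl, if_false]
        ring
  have h5 : ∑ i, ∑ j, ∑ k, ∑ l, cc e i j k l • pderiv i (X k * (X l * pderiv j (lin x)))
      = ρ • lin x := by
    simp only [h4, smul_add, Finset.sum_add_distrib, smul_ite, smul_zero]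
    have e1 : ∑ i, ∑ j, ∑ k, ∑ l, (if i = k then cc e i j k l • x j • (X l : MvPolynomial (Fin n) ℝ)
        else 0) = ∑ l, (∑ j, ∑ i, cc e i j i l * x j) • (X l : MvPolynomial (Fin n) ℝ) := by
      have : ∀ i j, ∑ k, ∑ l, (if i = k then cc e i j k l • x j • (X l : MvPolynomial (Fin n) ℝ)
        else 0) = ∑ l, (cc e i j i l * x j) • (X l : MvPolynomial (Fin n) ℝ) := by
        intro i j
        rw [Finset.sum_comm]
        refine Finset.sum_congr rfl fun l _ => ?_
        rw [Finset.sum_ite_eq]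
        simp [smul_smul]
      simp_rw [this]
      rw [Finset.sum_comm]
      rw [show (∑ j, ∑ i, ∑ l, (cc e i j i l * x j) • (X l : MvPolynomial (Fin n) ℝ))
        = ∑ j, ∑ l, ∑ i, (cc e i j i l * x j) • (X l : MvPolynomial (Fin n) ℝ) from
        Finset.sum_congr rfl fun _ _ => Finset.sum_comm]
      rw [Finset.sum_comm]
      refine Finset.sum_congr rfl fun l _ => ?_
      simp_rw [Finset.sum_smul]
    have e2 : ∑ i, ∑ j, ∑ k, ∑ l, (if i = l then cc e i j k l • x j • (X k : MvPolynomial (Fin n) ℝ)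
        else 0) = ∑ l, (∑ j, ∑ i, cc e i j l i * x j) • (X l : MvPolynomial (Fin n) ℝ) := by
      have : ∀ i j, ∑ k, ∑ l, (if i = l then cc e i j k l • x j • (X k : MvPolynomial (Fin n) ℝ)
        else 0) = ∑ k, (cc e i j k i * x j) • (X k : MvPolynomial (Fin n) ℝ) := by
        intro i j
        refine Finset.sum_congr rfl fun l _ => ?_
        rw [Finset.sum_ite_eq]
        simp [smul_smul]
      simp_rw [this]
      rw [Finset.sum_comm]
      rw [show (∑ j, ∑ i, ∑ l, (cc e i j l i * x j) • (X l : MvPolynomial (Fin n) ℝ))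
        = ∑ j, ∑ l, ∑ i, (cc e i j l i * x j) • (X l : MvPolynomial (Fin n) ℝ) from
        Finset.sum_congr rfl fun _ _ => Finset.sum_comm]
      rw [Finset.sum_comm]
      refine Finset.sum_congr rfl fun l _ => ?_
      simp_rw [Finset.sum_smul]
    rw [e1, e2, ← Finset.sum_add_distrib]
    unfold lin
    rw [Finset.smul_sum]
    refine Finset.sum_congr rfl fun l _ => ?_
    rw [← add_smul, smul_smul, ← hx l]
    congr 1
    rw [← Finset.sum_add_distrib]
    refine Finset.sum_congr rfl fun j _ => ?_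
    rw [RR_symm]
    unfold RR
    rw [Finset.sum_mul, ← Finset.sum_add_distrib]
    exact Finset.sum_congr rfl fun i _ => by ring
  rw [h2, h3, h5, add_smul]
  abel

variable {e : Fin n → Matrix (Fin p) (Fin q) ℝ} {σ : ℝ}
  {μ : Measure (EuclideanSpace ℝ (Fin n))} {K : Set (EuclideanSpace ℝ (Fin n))}

/-- The variances of the linear functionals are not too small. -/
lemma AData.cov (D : AData e σ μ K) (h : ON e) (ρ : ℝ) (hρ : 0 ≤ ρ) (hσ : 0 ≤ σ)
    {x : Fin n → ℝ} (hx1 : ∑ j, x j ^ 2 = 1)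
    (hx : ∀ j, ∑ k, RR e j k * x k = ρ * x j)
    (β : ℝ) (hβ : ∀ θ : Fin n → ℝ, ∫ a, (∑ i, θ i * a i) ^ 2 ∂μ ≤ β * ∑ i, θ i ^ 2) :
    1 ≤ 3 / 2 * β * (ρ + σ) := by
  have := D.prob
  have hcont : ∀ θ : Fin n → ℝ, Continuous fun a : EuclideanSpace ℝ (Fin n) =>
      (∑ i, θ i * a i) ^ 2 := fun θ => by fun_prop
  have hβ0 : 0 ≤ β := by
    have h1 := hβ x
    rw [hx1, mul_one] at h1
    exact (integral_nonneg fun a => sq_nonneg _).trans h1
  have h1 := D.ibp2 (lin x) (lin x)
  rw [Lop_lin e σ ρ hx] at h1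
  simp only [ev_neg, ev_smul, gp_lin] at h1
  have h2 : ∫ a, ev (lin x) a * -((ρ + σ) * ev (lin x) a) ∂μ
      = -((ρ + σ) * ∫ a, (∑ i, x i * a i) ^ 2 ∂μ) := by
    rw [← integral_const_mul, ← integral_neg]
    refine integral_congr_ae (Filter.Eventually.of_forall fun a => ?_)
    simp only [ev_lin]; ring
  rw [h2, neg_inj] at h1
  -- pointwise lower bound for the form
  have hpt : ∀ a : EuclideanSpace ℝ (Fin n), 1 - (fro ((Am e x)ᵀ * Am e (fun i => a i))
      + fro (Am e (fun i => a i) * (Am e x)ᵀ)) / 2 ≤ Gq e a x x := by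
    intro a
    rw [Gq_eq]
    set A := Am e (fun i => a i)
    set X' := Am e x
    have e1 : ∑ i, x i * x i = 1 := by
      rw [← hx1]; exact Finset.sum_congr rfl fun _ _ => (sq _).symm
    rw [e1]
    have e2 := two_trace_le (X'ᵀ * A)ᵀ (X'ᵀ * A)
    rw [Matrix.transpose_transpose, fro_transpose] at e2
    have e3 := two_trace_le (A * X'ᵀ)ᵀ (A * X'ᵀ)
    rw [Matrix.transpose_transpose, fro_transpose] at e3
    have e4 : trace (A * X'ᵀ * (A * X'ᵀ)) = trace (X'ᵀ * A * X'ᵀ * A) := by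
      rw [Matrix.mul_assoc, Matrix.trace_mul_comm]
      simp only [Matrix.mul_assoc]
    have e5 : trace (X'ᵀ * A * (X'ᵀ * A)) = trace (X'ᵀ * A * X'ᵀ * A) := by
      simp only [Matrix.mul_assoc]
    rw [e4] at e3
    rw [e5] at e2
    have e6 := (abs_le.1 e2).2
    have e7 := (abs_le.1 e3).2
    linarith
  -- integrate
  have hfro : ∀ (r s : ℕ) (F : Fin n → Matrix (Fin r) (Fin s) ℝ),
      Integrable (fun a : EuclideanSpace ℝ (Fin n) => fro (∑ i, a i • F i)) μ ∧
      ∫ a : EuclideanSpace ℝ (Fin n), fro (∑ i, a i • F i) ∂μ ≤ β * ∑ i, fro (F i) := by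
    intro r s F
    have e0 : ∀ a : EuclideanSpace ℝ (Fin n), fro (∑ i, a i • F i)
        = ∑ u, ∑ v, (∑ i, F i u v * a i) ^ 2 := by
      intro a
      unfold fro
      refine Finset.sum_congr rfl fun u _ => Finset.sum_congr rfl fun v _ => ?_
      rw [Matrix.sum_apply]
      congr 1
      exact Finset.sum_congr rfl fun i _ => by rw [Matrix.smul_apply, smul_eq_mul, mul_comm]
    have hint : ∀ u v, Integrable (fun a : EuclideanSpace ℝ (Fin n) =>
        (∑ i, F i u v * a i) ^ 2) μ := fun u v => D.integ_cont (hcont fun i => F i u v)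
    have hint2 : ∀ u, Integrable (fun a : EuclideanSpace ℝ (Fin n) =>
        ∑ v, (∑ i, F i u v * a i) ^ 2) μ := fun u => integrable_finsetSum _ fun v _ => hint u v
    simp_rw [e0]
    refine ⟨integrable_finsetSum _ fun u _ => hint2 u, ?_⟩
    rw [integral_finsetSum _ fun u _ => hint2 u]
    have e1 : ∑ i, fro (F i) = ∑ u, ∑ v, ∑ i, (F i u v) ^ 2 := by
      unfold fro
      rw [Finset.sum_comm]
      exact Finset.sum_congr rfl fun u _ => Finset.sum_comm
    rw [e1, Finset.mul_sum]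
    refine Finset.sum_le_sum fun u _ => ?_
    rw [integral_finsetSum _ fun v _ => hint u v, Finset.mul_sum]
    exact Finset.sum_le_sum fun v _ => hβ fun i => F i u v
  have hexp1 : ∀ a : EuclideanSpace ℝ (Fin n), (Am e x)ᵀ * Am e (fun i => a i)
      = ∑ i, a i • ((Am e x)ᵀ * e i) := by
    intro a
    conv_lhs => rw [show Am e (fun i => a i) = ∑ i, a i • e i from rfl]
    rw [Matrix.mul_sum]
    exact Finset.sum_congr rfl fun i _ => by rw [Matrix.mul_smul]
  have hexp2 : ∀ a : EuclideanSpace ℝ (Fin n), Am e (fun i => a i) * (Am e x)ᵀ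
      = ∑ i, a i • (e i * (Am e x)ᵀ) := by
    intro a
    conv_lhs => rw [show Am e (fun i => a i) = ∑ i, a i • e i from rfl]
    rw [Matrix.sum_mul]
    exact Finset.sum_congr rfl fun i _ => by rw [Matrix.smul_mul]
  simp_rw [hexp1, hexp2] at hpt
  obtain ⟨j1, j2⟩ := hfro q q fun i => (Am e x)ᵀ * e i
  obtain ⟨j3, j4⟩ := hfro p p fun i => e i * (Am e x)ᵀ
  have j5 : Integrable (fun a : EuclideanSpace ℝ (Fin n) =>
      (fro (∑ i, a i • ((Am e x)ᵀ * e i)) + fro (∑ i, a i • (e i * (Am e x)ᵀ))) / 2) μ :=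
    (j1.add j3).div_const 2
  have hGint : Integrable (fun a => Gq e a x x) μ := by
    refine D.integ_cont ?_
    unfold Gq
    fun_prop
  have h3 : 1 - (β * ρ) / 2 ≤ ∫ a, Gq e a x x ∂μ := by
    have e1 : ∫ a, (1 - (fro (∑ i, a i • ((Am e x)ᵀ * e i))
        + fro (∑ i, a i • (e i * (Am e x)ᵀ))) / 2) ∂μ ≤ ∫ a, Gq e a x x ∂μ :=
      integral_mono ((integrable_const _).sub j5) hGint hpt
    have e2 : ∫ a, (1 - (fro (∑ i, a i • ((Am e x)ᵀ * e i))
        + fro (∑ i, a i • (e i * (Am e x)ᵀ))) / 2) ∂μ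
        = 1 - (∫ a, fro (∑ i, a i • ((Am e x)ᵀ * e i)) ∂μ
          + ∫ a, fro (∑ i, a i • (e i * (Am e x)ᵀ)) ∂μ) / 2 := by
      rw [integral_sub (integrable_const _) j5, integral_div, integral_add j1 j3]
      simp
    rw [e2] at e1
    have e3 : ∑ i, fro ((Am e x)ᵀ * e i) + ∑ i, fro (e i * (Am e x)ᵀ) = ρ := by
      rw [← Finset.sum_add_distrib, ← RR_quad]
      have : ∀ j, ∑ k, RR e j k * (x j * x k) = ρ * x j ^ 2 := by
        intro j
        rw [show ∑ k, RR e j k * (x j * x k) = x j * ∑ k, RR e j k * x k by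
          rw [Finset.mul_sum]; exact Finset.sum_congr rfl fun k _ => by ring, hx]
        ring
      simp_rw [this]
      rw [← Finset.mul_sum, hx1, mul_one]
    have e4 : ∫ a, fro (∑ i, a i • ((Am e x)ᵀ * e i)) ∂μ
          + ∫ a, fro (∑ i, a i • (e i * (Am e x)ᵀ)) ∂μ ≤ β * ρ := by
      rw [← e3, mul_add]
      exact add_le_add j2 j4
    linarith
  rw [← h1] at h3
  have h4 : ∫ a, (∑ i, x i * a i) ^ 2 ∂μ ≤ β := by
    have := hβ x
    rwa [hx1, mul_one] at this
  have h5 : (ρ + σ) * ∫ a, (∑ i, x i * a i) ^ 2 ∂μ ≤ (ρ + σ) * β :=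
    mul_le_mul_of_nonneg_left h4 (by positivity)
  nlinarith [mul_nonneg hβ0 hσ]

end Pool.Agent.Lib.MP_8d00da_gt.h30
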