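import Mathlib
import Pool.Agent.Lib.MP_8d00da_gt.h30.Mat

/-!
# The function `det(1 - AᵀA)` and its derivative along tangential fields
-/

namespace Pool.Agent.Lib.MP_8d00da_gt.h30

open Finset Matrix

variable {n p q : ℕ}

/-- The determinant as a function of the entries. -/
noncomputable def detf (q : ℕ) (M : Fin q → Fin q → ℝ) : ℝ := Matrix.det (Matrix.of M)

lemma detf_contDiff (q : ℕ) : ContDiff ℝ (⊤ : ℕ∞) (detf q) := by
  unfold detf
  simp only [Matrix.det_apply, Matrix.of_apply]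
  refine ContDiff.sum fun σ _ => ?_
  refine ContDiff.const_smul _ ?_
  refine contDiff_prod fun i _ => ?_
  fun_prop

lemma detf_coe (M : Matrix (Fin q) (Fin q) ℝ) : detf q (fun i j => M i j) = M.det := rfl

lemma hasDerivAt_det_one (Z : Matrix (Fin q) (Fin q) ℝ) :
    HasDerivAt (fun t : ℝ => (1 + t • Z).det) (trace Z) 0 := by
  have h1 : (fun t : ℝ => (1 + t • Z).det) = fun t : ℝ => 1 + trace Z * t +
      (det (1 + (Polynomial.X : Polynomial ℝ) • Z.map Polynomial.C)).divX.divX.eval t * t ^ 2 := by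
    ext t
    exact Matrix.det_one_add_smul t Z
  rw [h1]
  set g := (det (1 + (Polynomial.X : Polynomial ℝ) • Z.map Polynomial.C)).divX.divX
  have h2 : HasDerivAt (fun t : ℝ => g.eval t * t ^ 2)
      ((Polynomial.derivative g).eval 0 * 0 ^ 2 + g.eval 0 * (2 * 0 ^ 1 * 1)) 0 := by
    have := (g.hasDerivAt (x := (0 : ℝ))).fun_mul ((hasDerivAt_id (0 : ℝ)).fun_pow 2)
    simpa using this
  have h3 : HasDerivAt (fun t : ℝ => 1 + trace Z * t) (trace Z) 0 := by
    simpa using ((hasDerivAt_id (0 : ℝ)).const_mul (trace Z)).const_add 1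
  have h4 := h3.fun_add h2
  simpa using h4

/-- A curve of matrices `M + t N + t² R`. -/
lemma hasDerivAt_quad (M N R : Matrix (Fin q) (Fin q) ℝ) :
    HasDerivAt (fun t : ℝ => (fun i j => (M + t • N + t ^ 2 • R) i j : Fin q → Fin q → ℝ))
      (fun i j => N i j) 0 := by
  rw [hasDerivAt_pi]
  intro i
  rw [hasDerivAt_pi]
  intro j
  simp only [Matrix.add_apply, Matrix.smul_apply, smul_eq_mul]
  have h1 : HasDerivAt (fun t : ℝ => M i j + t * N i j) (N i j) 0 := by
    simpa using ((hasDerivAt_id (0 : ℝ)).mul_const (N i j)).const_add (M i j)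
  have h2 : HasDerivAt (fun t : ℝ => t ^ 2 * R i j) 0 0 := by
    simpa using ((hasDerivAt_id (0 : ℝ)).fun_pow 2).mul_const (R i j)
  simpa using h1.fun_add h2

/-- The derivative of the determinant in the direction `ZᵀM + MZ`. -/
lemma fderiv_detf (M Z : Matrix (Fin q) (Fin q) ℝ) :
    fderiv ℝ (detf q) (fun i j => M i j) (fun i j => (-(Zᵀ * M + M * Z)) i j)
      = -2 * trace Z * M.det := by
  have hd : HasFDerivAt (detf q) (fderiv ℝ (detf q) (fun i j => M i j)) (fun i j => M i j) :=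
    ((detf_contDiff q).differentiable (by simp) _).hasFDerivAt
  have hc := hasDerivAt_quad M (-(Zᵀ * M + M * Z)) (Zᵀ * M * Z)
  have hd' : HasFDerivAt (detf q) (fderiv ℝ (detf q) (fun i j => M i j))
      ((fun t : ℝ => (fun i j => (M + t • (-(Zᵀ * M + M * Z)) + t ^ 2 • (Zᵀ * M * Z)) i j :
        Fin q → Fin q → ℝ)) 0) := by
    simpa using hd
  have h1 := hd'.comp_hasDerivAt (0 : ℝ) hc
  have h2 : (detf q ∘ fun t : ℝ => (fun i j => (M + t • (-(Zᵀ * M + M * Z))
      + t ^ 2 • (Zᵀ * M * Z)) i j : Fin q → Fin q → ℝ))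
      = fun t : ℝ => (1 + t • (-Z)).det ^ 2 * M.det := by
    ext t
    simp only [Function.comp_apply]
    rw [detf_coe]
    have e1 : M + t • (-(Zᵀ * M + M * Z)) + t ^ 2 • (Zᵀ * M * Z)
        = (1 + t • (-Z))ᵀ * M * (1 + t • (-Z)) := by
      simp only [Matrix.transpose_add, Matrix.transpose_one, Matrix.transpose_smul,
        Matrix.transpose_neg, Matrix.add_mul, Matrix.mul_add, Matrix.one_mul, Matrix.mul_one,
        Matrix.smul_mul, Matrix.mul_smul, Matrix.neg_mul, Matrix.mul_neg, smul_neg, neg_neg,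
        smul_smul, neg_add, smul_add, Matrix.mul_assoc, sq]
      abel
    rw [e1, Matrix.det_mul, Matrix.det_mul, Matrix.det_transpose]
    ring
  rw [h2] at h1
  have h3 := ((hasDerivAt_det_one (-Z)).fun_pow 2).mul_const M.det
  have h4 := h1.unique h3
  rw [h4]
  simp [Matrix.trace_neg]

/-- The weight `det(1 - AᵀA)`. -/
noncomputable def Dt (e : Fin n → Matrix (Fin p) (Fin q) ℝ) (a : EuclideanSpace ℝ (Fin n)) : ℝ :=
  (1 - (Am e (fun i => a i))ᵀ * Am e (fun i => a i)).det

/-- The entries of `1 - AᵀA`. -/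
noncomputable def Me (e : Fin n → Matrix (Fin p) (Fin q) ℝ) (a : EuclideanSpace ℝ (Fin n)) :
    Fin q → Fin q → ℝ :=
  fun i j => (1 - (Am e (fun i => a i))ᵀ * Am e (fun i => a i) : Matrix (Fin q) (Fin q) ℝ) i j

lemma Me_contDiff (e : Fin n → Matrix (Fin p) (Fin q) ℝ) : ContDiff ℝ (⊤ : ℕ∞) (Me e) := by
  rw [contDiff_pi]
  intro i
  rw [contDiff_pi]
  intro j
  unfold Me Am
  simp only [Matrix.sub_apply, Matrix.mul_apply, Matrix.transpose_apply, Matrix.sum_apply,
    Matrix.smul_apply, smul_eq_mul]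
  fun_prop

lemma Dt_eq (e : Fin n → Matrix (Fin p) (Fin q) ℝ) : Dt e = detf q ∘ Me e := rfl

lemma Dt_contDiff (e : Fin n → Matrix (Fin p) (Fin q) ℝ) : ContDiff ℝ (⊤ : ℕ∞) (Dt e) := by
  rw [Dt_eq]
  exact (detf_contDiff q).comp (Me_contDiff e)

lemma Dt_continuous (e : Fin n → Matrix (Fin p) (Fin q) ℝ) : Continuous (Dt e) :=
  (Dt_contDiff e).continuous

lemma Am_add (e : Fin n → Matrix (Fin p) (Fin q) ℝ) (a b : Fin n → ℝ) :
    Am e (fun i => a i + b i) = Am e a + Am e b := by
  unfold Am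
  simp only [add_smul, Finset.sum_add_distrib]

lemma Am_smul (e : Fin n → Matrix (Fin p) (Fin q) ℝ) (c : ℝ) (a : Fin n → ℝ) :
    Am e (fun i => c * a i) = c • Am e a := by
  unfold Am
  rw [Finset.smul_sum]
  exact Finset.sum_congr rfl fun i _ => by rw [smul_smul]

/-- The derivative of the weight in a tangential direction. -/
lemma fderiv_Dt (e : Fin n → Matrix (Fin p) (Fin q) ℝ) (a w : EuclideanSpace ℝ (Fin n))
    (X : Matrix (Fin p) (Fin q) ℝ)
    (hw : Am e (fun i => w i) = X - Am e (fun i => a i) * Xᵀ * Am e (fun i => a i)) :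
    fderiv ℝ (Dt e) a w = -2 * trace (Xᵀ * Am e (fun i => a i)) * Dt e a := by
  set A := Am e (fun i => a i) with hA
  set W := Am e (fun i => w i) with hW
  set M : Matrix (Fin q) (Fin q) ℝ := 1 - Aᵀ * A with hM
  set Z := Xᵀ * A with hZ
  have hdM : DifferentiableAt ℝ (Me e) a := (Me_contDiff e).differentiable (by simp) a
  have hdd : DifferentiableAt ℝ (detf q) (Me e a) := (detf_contDiff q).differentiable (by simp) _
  have h1 : fderiv ℝ (Dt e) a w = fderiv ℝ (detf q) (Me e a) (fderiv ℝ (Me e) a w) := by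
    rw [Dt_eq, fderiv_comp a hdd hdM]
    rfl
  have h2 : fderiv ℝ (Me e) a w = fun i j => (-(Zᵀ * M + M * Z)) i j := by
    have hl : HasDerivAt (fun t : ℝ => Me e (a + t • w)) (fderiv ℝ (Me e) a w) 0 := by
      have hc : HasDerivAt (fun t : ℝ => a + t • w) w 0 := by
        simpa using ((hasDerivAt_id (0 : ℝ)).smul_const w).const_add a
      have hdM' : HasFDerivAt (Me e) (fderiv ℝ (Me e) a) ((fun t : ℝ => a + t • w) 0) := by
        simpa using hdM.hasFDerivAt
      exact hdM'.comp_hasDerivAt (0 : ℝ) hc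
    have hq := hasDerivAt_quad M (-(Zᵀ * M + M * Z)) (-(Wᵀ * W))
    have heq : (fun t : ℝ => Me e (a + t • w)) = fun t : ℝ =>
        (fun i j => (M + t • (-(Zᵀ * M + M * Z)) + t ^ 2 • (-(Wᵀ * W))) i j :
          Fin q → Fin q → ℝ) := by
      ext t i j
      unfold Me
      have e1 : Am e (fun i => (a + t • w) i) = A + t • W := by
        have : (fun i => (a + t • w) i) = fun i => a i + t * w i := by
          ext i; simp
        rw [this, Am_add e (fun i => a i) (fun i => t * w i), Am_smul]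
      rw [e1]
      have e2 : (1 : Matrix (Fin q) (Fin q) ℝ) - (A + t • W)ᵀ * (A + t • W)
          = M + t • (-(Zᵀ * M + M * Z)) + t ^ 2 • (-(Wᵀ * W)) := by
        have e3 : Wᵀ * A + Aᵀ * W = Zᵀ * M + M * Z := by
          rw [hw, hM, hZ]
          simp only [Matrix.transpose_sub, Matrix.transpose_mul, Matrix.transpose_transpose,
            Matrix.sub_mul, Matrix.mul_sub, Matrix.mul_one, Matrix.one_mul, Matrix.mul_assoc]
          abel
        rw [← e3, hM]
        simp only [Matrix.transpose_add, Matrix.transpose_smul, Matrix.add_mul, Matrix.mul_add,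
          Matrix.smul_mul, Matrix.mul_smul, smul_neg, smul_add, smul_smul, sq]
        abel
      rw [e2]
    rw [heq] at hl
    exact hl.unique hq
  rw [h1, h2]
  have h3 : Me e a = fun i j => M i j := rfl
  rw [h3, fderiv_detf]
  rfl

end Pool.Agent.Lib.MP_8d00da_gt.h30
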