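import Mathlib
import Pool.Agent.Lib.MP_8d00da_gt.h30.Det

/-!
# Geometry of the operator norm ball
-/

namespace Pool.Agent.Lib.MP_8d00da_gt.h30

open Finset Matrix MeasureTheory Metric

variable {n p q : ℕ}

/-- The unit ball of the operator norm. -/
def opK (e : Fin n → Matrix (Fin p) (Fin q) ℝ) : Set (EuclideanSpace ℝ (Fin n)) :=
  {a | Contr (Am e (fun i => a i))}

/-- The linear map `a ↦ A(a) v`. -/
noncomputable def Lv (e : Fin n → Matrix (Fin p) (Fin q) ℝ) (v : Fin q → ℝ) :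
    EuclideanSpace ℝ (Fin n) →ₗ[ℝ] EuclideanSpace ℝ (Fin p) where
  toFun a := WithLp.toLp 2 (Am e (fun i => a i) *ᵥ v)
  map_add' a b := by
    have : Am e (fun i => (a + b) i) = Am e (fun i => a i) + Am e (fun i => b i) := by
      rw [← Am_add]; rfl
    rw [this, Matrix.add_mulVec]
    rfl
  map_smul' c a := by
    have : Am e (fun i => (c • a) i) = c • Am e (fun i => a i) := by
      rw [← Am_smul]; rfl
    rw [this, Matrix.smul_mulVec]
    rfl

lemma Lv_norm_sq (e : Fin n → Matrix (Fin p) (Fin q) ℝ) (v : Fin q → ℝ)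
    (a : EuclideanSpace ℝ (Fin n)) :
    ‖Lv e v a‖ ^ 2 = ∑ r, (Am e (fun i => a i) *ᵥ v) r ^ 2 := by
  rw [EuclideanSpace.norm_sq_eq]
  exact Finset.sum_congr rfl fun r _ => by rw [Real.norm_eq_abs, sq_abs]; rfl

lemma toLp_norm_sq (v : Fin q → ℝ) : ‖(WithLp.toLp 2 v : EuclideanSpace ℝ (Fin q))‖ ^ 2
    = ∑ s, v s ^ 2 := by
  rw [EuclideanSpace.norm_sq_eq]
  exact Finset.sum_congr rfl fun r _ => by rw [Real.norm_eq_abs, sq_abs]

lemma mem_opK_iff (e : Fin n → Matrix (Fin p) (Fin q) ℝ) (a : EuclideanSpace ℝ (Fin n)) :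
    a ∈ opK e ↔ ∀ v : Fin q → ℝ, ‖Lv e v a‖ ≤ ‖(WithLp.toLp 2 v : EuclideanSpace ℝ (Fin q))‖ := by
  constructor
  · intro h v
    have h1 := h v
    rw [← Lv_norm_sq, ← toLp_norm_sq] at h1
    exact le_of_sq_le_sq h1 (norm_nonneg _)
  · intro h v
    rw [← Lv_norm_sq, ← toLp_norm_sq]
    exact pow_le_pow_left₀ (norm_nonneg _) (h v) 2

lemma opK_eq (e : Fin n → Matrix (Fin p) (Fin q) ℝ) :
    opK e = ⋂ v : Fin q → ℝ, (Lv e v) ⁻¹'
      (closedBall 0 ‖(WithLp.toLp 2 v : EuclideanSpace ℝ (Fin q))‖) := by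
  ext a
  rw [mem_opK_iff]
  simp

lemma opK_convex (e : Fin n → Matrix (Fin p) (Fin q) ℝ) : Convex ℝ (opK e) := by
  rw [opK_eq]
  exact convex_iInter fun v => (convex_closedBall _ _).linear_preimage _

lemma opK_closed (e : Fin n → Matrix (Fin p) (Fin q) ℝ) : IsClosed (opK e) := by
  rw [opK_eq]
  exact isClosed_iInter fun v => isClosed_closedBall.preimage
    (LinearMap.continuous_of_finiteDimensional (Lv e v))

lemma ON.norm_sq {e : Fin n → Matrix (Fin p) (Fin q) ℝ} (h : ON e)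
    (a : EuclideanSpace ℝ (Fin n)) : ‖a‖ ^ 2 = fro (Am e (fun i => a i)) := by
  rw [h.fro_Am, EuclideanSpace.norm_sq_eq]
  exact Finset.sum_congr rfl fun r _ => by rw [Real.norm_eq_abs, sq_abs]

lemma ON.opK_bdd {e : Fin n → Matrix (Fin p) (Fin q) ℝ} (h : ON e)
    {a : EuclideanSpace ℝ (Fin n)} (ha : a ∈ opK e) : ‖a‖ ^ 2 ≤ q := by
  classical
  rw [h.norm_sq]
  have h1 := Contr.fro_mul (A := Am e (fun i => a i)) ha (1 : Matrix (Fin q) (Fin q) ℝ)
  rw [Matrix.mul_one] at h1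
  refine h1.trans (le_of_eq ?_)
  unfold fro
  simp [Matrix.one_apply]

lemma ON.opK_compact {e : Fin n → Matrix (Fin p) (Fin q) ℝ} (h : ON e) :
    IsCompact (opK e) := by
  refine Metric.isCompact_of_isClosed_isBounded (opK_closed e) ?_
  refine (Metric.isBounded_closedBall (x := (0 : EuclideanSpace ℝ (Fin n))) (r := (q : ℝ) + 1)).subset
    fun a ha => ?_
  rw [mem_closedBall_zero_iff]
  have h1 := h.opK_bdd ha
  have hq : (0 : ℝ) ≤ q := Nat.cast_nonneg q
  nlinarith [norm_nonneg a]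

lemma mulVec_sq_le (A : Matrix (Fin p) (Fin q) ℝ) (v : Fin q → ℝ) :
    ∑ r, (A *ᵥ v) r ^ 2 ≤ fro A * ∑ s, v s ^ 2 := by
  unfold fro
  rw [Finset.sum_mul]
  refine Finset.sum_le_sum fun r _ => ?_
  exact Finset.sum_mul_sq_le_sq_mul_sq univ (fun s => A r s) v

lemma ON.Lv_le {e : Fin n → Matrix (Fin p) (Fin q) ℝ} (h : ON e) (v : Fin q → ℝ)
    (a : EuclideanSpace ℝ (Fin n)) :
    ‖Lv e v a‖ ≤ ‖a‖ * ‖(WithLp.toLp 2 v : EuclideanSpace ℝ (Fin q))‖ := by
  refine (sq_le_sq₀ (norm_nonneg _) (by positivity)).1 ?_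
  rw [Lv_norm_sq, mul_pow, h.norm_sq, toLp_norm_sq]
  exact mulVec_sq_le _ _

lemma ON.ball_sub {e : Fin n → Matrix (Fin p) (Fin q) ℝ} (h : ON e) :
    closedBall 0 1 ⊆ opK e := by
  intro a ha
  rw [mem_closedBall_zero_iff] at ha
  rw [mem_opK_iff]
  intro v
  refine (h.Lv_le v a).trans ?_
  calc ‖a‖ * ‖(WithLp.toLp 2 v : EuclideanSpace ℝ (Fin q))‖
      ≤ 1 * ‖(WithLp.toLp 2 v : EuclideanSpace ℝ (Fin q))‖ :=
        mul_le_mul_of_nonneg_right ha (norm_nonneg _)
    _ = _ := one_mul _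

/-- `1 - AᵀA` -/
lemma quad_M (A : Matrix (Fin p) (Fin q) ℝ) (v : Fin q → ℝ) :
    v ⬝ᵥ ((1 - Aᵀ * A) *ᵥ v) = ∑ s, v s ^ 2 - ∑ r, (A *ᵥ v) r ^ 2 := by
  rw [Matrix.sub_mulVec, Matrix.one_mulVec, dotProduct_sub, ← Matrix.mulVec_mulVec,
    Matrix.dotProduct_mulVec, Matrix.vecMul_transpose]
  congr 1
  · exact Finset.sum_congr rfl fun _ _ => (sq _).symm
  · exact Finset.sum_congr rfl fun _ _ => (sq _).symm

lemma M_posSemidef {A : Matrix (Fin p) (Fin q) ℝ} (hA : Contr A) : (1 - Aᵀ * A).PosSemidef := by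
  refine Matrix.PosSemidef.of_dotProduct_mulVec_nonneg ?_ fun v => ?_
  · ext i j
    simp [Matrix.conjTranspose_apply, Matrix.one_apply, Matrix.mul_apply, eq_comm, mul_comm]
  · simp only [star_trivial]
    rw [quad_M]
    linarith [hA v]

lemma Dt_nonneg {e : Fin n → Matrix (Fin p) (Fin q) ℝ} {a : EuclideanSpace ℝ (Fin n)}
    (ha : a ∈ opK e) : 0 ≤ Dt e a := (M_posSemidef ha).det_nonneg

/-- If the determinant does not vanish then the matrix is a strict contraction. -/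
lemma strict_of_det_ne {A : Matrix (Fin p) (Fin q) ℝ} (hA : Contr A)
    (hd : (1 - Aᵀ * A).det ≠ 0) {v : Fin q → ℝ} (hv : v ≠ 0) :
    ∑ r, (A *ᵥ v) r ^ 2 < ∑ s, v s ^ 2 := by
  refine lt_of_le_of_ne (hA v) fun h => hd ?_
  rw [← Matrix.exists_mulVec_eq_zero_iff]
  refine ⟨v, hv, ?_⟩
  rw [← (M_posSemidef hA).dotProduct_mulVec_zero_iff, star_trivial, quad_M, h, sub_self]

lemma exists_eq_of_det_zero {A : Matrix (Fin p) (Fin q) ℝ}
    (hd : (1 - Aᵀ * A).det = 0) : ∃ v : Fin q → ℝ, v ≠ 0 ∧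
    ∑ r, (A *ᵥ v) r ^ 2 = ∑ s, v s ^ 2 := by
  obtain ⟨v, hv, h⟩ := Matrix.exists_mulVec_eq_zero_iff.2 hd
  refine ⟨v, hv, ?_⟩
  have h1 := quad_M A v
  rw [h, dotProduct_zero] at h1
  linarith

/-- Points of `K` with nonvanishing determinant are interior. -/
lemma ON.mem_interior {e : Fin n → Matrix (Fin p) (Fin q) ℝ} (h : ON e)
    {a : EuclideanSpace ℝ (Fin n)} (ha : a ∈ opK e) (hd : Dt e a ≠ 0) :
    a ∈ interior (opK e) := by
  classical
  rcases Nat.eq_zero_or_pos q with hq | hq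
  · subst hq
    have : opK e = Set.univ := by
      ext b
      simp only [Set.mem_univ, iff_true]
      intro v
      simp
    rw [this, interior_univ]; trivial
  · have : Nonempty (Fin q) := ⟨⟨0, hq⟩⟩
    have hcont : Continuous fun u : EuclideanSpace ℝ (Fin q) =>
        ∑ r, (Am e (fun i => a i) *ᵥ (fun s => u s)) r ^ 2 := by
      simp only [Matrix.mulVec, dotProduct]
      fun_prop
    have hne : (sphere (0 : EuclideanSpace ℝ (Fin q)) 1).Nonempty :=
      NormedSpace.sphere_nonempty.2 zero_le_one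
    obtain ⟨u0, hu0, hmax⟩ := (isCompact_sphere (0 : EuclideanSpace ℝ (Fin q)) 1).exists_isMaxOn
      hne hcont.continuousOn
    set m := ∑ r, (Am e (fun i => a i) *ᵥ (fun s => u0 s)) r ^ 2 with hm
    have hm0 : 0 ≤ m := Finset.sum_nonneg fun _ _ => sq_nonneg _
    have hm1 : m < 1 := by
      have h1 : (fun s => u0 s) ≠ 0 := by
        intro h0
        have : u0 = 0 := by ext s; exact congrFun h0 s
        rw [this] at hu0
        simp at hu0
      have h2 := strict_of_det_ne ha hd h1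
      have h3 : ∑ s, (u0 s) ^ 2 = 1 := by
        have := EuclideanSpace.norm_sq_eq u0
        rw [mem_sphere_zero_iff_norm.1 hu0] at this
        simp only [Real.norm_eq_abs, sq_abs] at this
        rw [← this]; norm_num
      rwa [h3] at h2
    have hall : ∀ v : Fin q → ℝ, ‖Lv e v a‖ ≤
        Real.sqrt m * ‖(WithLp.toLp 2 v : EuclideanSpace ℝ (Fin q))‖ := by
      intro v
      rcases eq_or_ne v 0 with hv | hv
      · subst hv
        have : Lv e 0 a = 0 := by
          change WithLp.toLp 2 (Am e (fun i => a i) *ᵥ 0) = 0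
          rw [Matrix.mulVec_zero]; rfl
        rw [this]; simp
      · set N := ‖(WithLp.toLp 2 v : EuclideanSpace ℝ (Fin q))‖ with hN
        have hNpos : 0 < N := by
          rw [hN, norm_pos_iff]
          intro h0
          refine hv (funext fun s => ?_)
          have := congrArg (fun z : EuclideanSpace ℝ (Fin q) => z s) h0
          simpa using this
        set u : EuclideanSpace ℝ (Fin q) := N⁻¹ • WithLp.toLp 2 v with hu
        have hus : u ∈ sphere (0 : EuclideanSpace ℝ (Fin q)) 1 := by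
          rw [mem_sphere_zero_iff_norm, hu, norm_smul, ← hN, Real.norm_eq_abs,
            abs_of_pos (inv_pos.2 hNpos), inv_mul_cancel₀ hNpos.ne']
        have h1 := hmax hus
        simp only [Set.mem_ofPred_eq] at h1
        have h2 : (fun s => u s) = N⁻¹ • v := by
          ext s; rw [hu]; simp
        rw [h2, Matrix.mulVec_smul, ← hm] at h1
        have h3 : ∑ r, (N⁻¹ • (Am e (fun i => a i) *ᵥ v)) r ^ 2
            = (N⁻¹) ^ 2 * ∑ r, (Am e (fun i => a i) *ᵥ v) r ^ 2 := by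
          rw [Finset.mul_sum]
          exact Finset.sum_congr rfl fun r _ => by
            rw [Pi.smul_apply, smul_eq_mul]; ring
        rw [h3, ← Lv_norm_sq] at h1
        refine (sq_le_sq₀ (norm_nonneg _) (by positivity)).1 ?_
        rw [mul_pow, Real.sq_sqrt hm0]
        have h4 : ‖Lv e v a‖ ^ 2 = N ^ 2 * ((N⁻¹) ^ 2 * ‖Lv e v a‖ ^ 2) := by
          field_simp
        rw [h4, mul_comm m]
        exact mul_le_mul_of_nonneg_left h1 (by positivity)
    rw [mem_interior_iff_mem_nhds, Metric.mem_nhds_iff]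
    have hsm : Real.sqrt m < 1 := by
      rw [show (1 : ℝ) = Real.sqrt 1 by simp]
      exact Real.sqrt_lt_sqrt hm0 hm1
    refine ⟨1 - Real.sqrt m, by linarith, fun b hb => ?_⟩
    rw [mem_opK_iff]
    intro v
    have hb' : ‖b - a‖ ≤ 1 - Real.sqrt m := by
      rw [← dist_eq_norm]; exact (mem_ball.1 hb).le
    have h1 : Lv e v b = Lv e v a + Lv e v (b - a) := by
      rw [← map_add]; congr 1; abel
    rw [h1]
    refine (norm_add_le _ _).trans ?_
    have h2 := h.Lv_le v (b - a)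
    have h3 := hall v
    have h4 : ‖b - a‖ * ‖(WithLp.toLp 2 v : EuclideanSpace ℝ (Fin q))‖
        ≤ (1 - Real.sqrt m) * ‖(WithLp.toLp 2 v : EuclideanSpace ℝ (Fin q))‖ :=
      mul_le_mul_of_nonneg_right hb' (norm_nonneg _)
    linarith

/-- Points of `K` with vanishing determinant lie on the frontier. -/
lemma mem_frontier_of_det_zero {e : Fin n → Matrix (Fin p) (Fin q) ℝ}
    {a : EuclideanSpace ℝ (Fin n)} (ha : a ∈ opK e) (hd : Dt e a = 0) :
    a ∈ frontier (opK e) := by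
  refine ⟨subset_closure ha, fun hint => ?_⟩
  obtain ⟨v, hv, hv2⟩ := exists_eq_of_det_zero hd
  rw [mem_interior_iff_mem_nhds] at hint
  have ht : Filter.Tendsto (fun t : ℝ => (1 + t) • a) (nhdsWithin 0 (Set.Ioi 0)) (nhds a) := by
    have h0 : Continuous fun t : ℝ => (1 + t) • a := by fun_prop
    have h1 : Filter.Tendsto (fun t : ℝ => (1 + t) • a) (nhds 0) (nhds ((1 + (0 : ℝ)) • a)) :=
      h0.tendsto 0
    simpa using h1.mono_left nhdsWithin_le_nhds
  have h2 := (ht.eventually hint).and self_mem_nhdsWithin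
  obtain ⟨t, ht1, ht2⟩ := h2.exists
  have h3 := ht1 v
  have h4 : Am e (fun i => ((1 + t) • a) i) = (1 + t) • Am e (fun i => a i) := by
    rw [← Am_smul]; rfl
  rw [h4] at h3
  have h5 : ∑ r, (((1 + t) • Am e (fun i => a i)) *ᵥ v) r ^ 2
      = (1 + t) ^ 2 * ∑ r, (Am e (fun i => a i) *ᵥ v) r ^ 2 := by
    rw [Finset.mul_sum]
    refine Finset.sum_congr rfl fun r _ => ?_
    rw [Matrix.smul_mulVec, Pi.smul_apply, smul_eq_mul]
    ring
  rw [h5, hv2] at h3
  have h6 : 0 < ∑ s, v s ^ 2 := by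
    obtain ⟨s, hs⟩ := Function.ne_iff.1 hv
    have hs' : 0 < v s ^ 2 := by
      rw [Pi.zero_apply] at hs
      exact lt_of_le_of_ne (sq_nonneg _) (Ne.symm (pow_ne_zero 2 hs))
    refine lt_of_lt_of_le hs' ?_
    exact Finset.single_le_sum (f := fun s => v s ^ 2) (fun _ _ => sq_nonneg _) (mem_univ s)
  have h7 : (0 : ℝ) < t := ht2
  have h8 : 1 < (1 + t) ^ 2 := by nlinarith
  have h9 := mul_lt_mul_of_pos_right h8 h6
  rw [one_mul] at h9
  exact absurd h3 (not_le.2 h9)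

lemma opK_null (e : Fin n → Matrix (Fin p) (Fin q) ℝ) :
    ∀ᵐ a ∂(volume.restrict (opK e)), 0 < Dt e a := by
  rw [ae_restrict_iff' (opK_closed e).measurableSet]
  have h1 : volume (frontier (opK e)) = 0 := (opK_convex e).addHaar_frontier _
  have h2 : ∀ᵐ a ∂(volume : Measure (EuclideanSpace ℝ (Fin n))), a ∉ frontier (opK e) := by
    rw [ae_iff]
    simpa using h1
  filter_upwards [h2] with a ha haK
  refine lt_of_le_of_ne (Dt_nonneg haK) fun h0 => ha (mem_frontier_of_det_zero haK h0.symm)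

end Pool.Agent.Lib.MP_8d00da_gt.h30
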