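import Mathlib
import Pool.Agent.Lib.MP_8d00da_gt.h30.Geom

/-!
# Integration by parts with cutoffs
-/

namespace Pool.Agent.Lib.MP_8d00da_gt.h30

open Finset Matrix MeasureTheory Metric Filter Topology MvPolynomial

variable {n p q : ℕ}

/-- The cutoff `1_K ψ(D)`. -/
noncomputable def cut (e : Fin n → Matrix (Fin p) (Fin q) ℝ) (ψ : ℝ → ℝ) :
    EuclideanSpace ℝ (Fin n) → ℝ := (opK e).indicator fun a => ψ (Dt e a)

lemma cut_mem {e : Fin n → Matrix (Fin p) (Fin q) ℝ} {ψ : ℝ → ℝ} {a : EuclideanSpace ℝ (Fin n)}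
    (ha : a ∈ opK e) : cut e ψ a = ψ (Dt e a) := Set.indicator_of_mem ha _

lemma cut_notMem {e : Fin n → Matrix (Fin p) (Fin q) ℝ} {ψ : ℝ → ℝ}
    {a : EuclideanSpace ℝ (Fin n)} (ha : a ∉ opK e) : cut e ψ a = 0 :=
  Set.indicator_of_notMem ha _

lemma cut_near_out {e : Fin n → Matrix (Fin p) (Fin q) ℝ} {ψ : ℝ → ℝ}
    {a : EuclideanSpace ℝ (Fin n)} (ha : a ∉ opK e) : cut e ψ =ᶠ[𝓝 a] fun _ => 0 := by
  have h1 : (opK e)ᶜ ∈ 𝓝 a := (opK_closed e).isOpen_compl.mem_nhds ha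
  filter_upwards [h1] with b hb using cut_notMem hb

lemma ON.cut_near_in {e : Fin n → Matrix (Fin p) (Fin q) ℝ} (h : ON e) {ψ : ℝ → ℝ}
    {a : EuclideanSpace ℝ (Fin n)} (ha : a ∈ opK e) (hd : Dt e a ≠ 0) :
    cut e ψ =ᶠ[𝓝 a] fun b => ψ (Dt e b) := by
  have h1 : opK e ∈ 𝓝 a := mem_interior_iff_mem_nhds.1 (h.mem_interior ha hd)
  filter_upwards [h1] with b hb using cut_mem hb

lemma cut_near_zero {e : Fin n → Matrix (Fin p) (Fin q) ℝ} {ψ : ℝ → ℝ} {ε : ℝ} (hε : 0 < ε)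
    (hψ : ∀ t ≤ ε, ψ t = 0) {a : EuclideanSpace ℝ (Fin n)} (hd : Dt e a = 0) :
    cut e ψ =ᶠ[𝓝 a] fun _ => 0 := by
  have h1 : {b | Dt e b < ε} ∈ 𝓝 a :=
    (isOpen_lt (Dt_continuous e) continuous_const).mem_nhds (by
      simp only [Set.mem_ofPred_eq, hd]; exact hε)
  filter_upwards [h1] with b hb
  by_cases hbK : b ∈ opK e
  · rw [cut_mem hbK]; exact hψ _ (le_of_lt hb)
  · exact cut_notMem hbK

lemma ON.cut_contDiff {e : Fin n → Matrix (Fin p) (Fin q) ℝ} (h : ON e) {ψ : ℝ → ℝ}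
    (hψc : ContDiff ℝ (⊤ : ℕ∞) ψ) {ε : ℝ} (hε : 0 < ε) (hψ : ∀ t ≤ ε, ψ t = 0) :
    ContDiff ℝ (⊤ : ℕ∞) (cut e ψ) := by
  rw [contDiff_iff_contDiffAt]
  intro a
  by_cases ha : a ∈ opK e
  · by_cases hd : Dt e a = 0
    · exact contDiffAt_const.congr_of_eventuallyEq (cut_near_zero hε hψ hd)
    · exact (hψc.comp (Dt_contDiff e)).contDiffAt.congr_of_eventuallyEq (h.cut_near_in ha hd)
  · exact contDiffAt_const.congr_of_eventuallyEq (cut_near_out ha)

lemma ON.cut_fderiv {e : Fin n → Matrix (Fin p) (Fin q) ℝ} (h : ON e) {ψ : ℝ → ℝ}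
    (hψc : ContDiff ℝ (⊤ : ℕ∞) ψ) {ε : ℝ} (hε : 0 < ε) (hψ : ∀ t ≤ ε, ψ t = 0)
    {a : EuclideanSpace ℝ (Fin n)} (ha : a ∈ opK e) (w : EuclideanSpace ℝ (Fin n)) :
    fderiv ℝ (cut e ψ) a w = deriv ψ (Dt e a) * fderiv ℝ (Dt e) a w := by
  by_cases hd : Dt e a = 0
  · rw [(cut_near_zero hε hψ hd).fderiv_eq]
    have h1 : ψ =ᶠ[𝓝 (Dt e a)] fun _ => 0 := by
      rw [hd]
      filter_upwards [Iio_mem_nhds hε] with t ht using hψ t (le_of_lt ht)
    rw [h1.deriv_eq]
    simp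
  · rw [(h.cut_near_in ha hd).fderiv_eq]
    have h1 : HasFDerivAt (fun b => ψ (Dt e b)) (deriv ψ (Dt e a) • fderiv ℝ (Dt e) a) a :=
      ((hψc.differentiable (by simp) _).hasDerivAt).comp_hasFDerivAt a
        ((Dt_contDiff e).differentiable (by simp) a).hasFDerivAt
    rw [h1.fderiv]
    rfl

lemma cut_fderiv_out {e : Fin n → Matrix (Fin p) (Fin q) ℝ} {ψ : ℝ → ℝ}
    {a : EuclideanSpace ℝ (Fin n)} (ha : a ∉ opK e) (w : EuclideanSpace ℝ (Fin n)) :
    fderiv ℝ (cut e ψ) a w = 0 := by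
  rw [(cut_near_out ha).fderiv_eq]
  simp

lemma ON.cut_compact {e : Fin n → Matrix (Fin p) (Fin q) ℝ} (h : ON e) (ψ : ℝ → ℝ) :
    HasCompactSupport (cut e ψ) :=
  HasCompactSupport.intro h.opK_compact fun _ ha => cut_notMem ha

/-- The polynomial vector field. -/
noncomputable def vf (W : Fin n → MvPolynomial (Fin n) ℝ) (a : EuclideanSpace ℝ (Fin n)) :
    EuclideanSpace ℝ (Fin n) := WithLp.toLp 2 fun i => ev (W i) a

lemma vf_apply (W : Fin n → MvPolynomial (Fin n) ℝ) (a : EuclideanSpace ℝ (Fin n)) (i : Fin n) :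
    vf W a i = ev (W i) a := rfl

lemma apply_eq_sum (L : EuclideanSpace ℝ (Fin n) →L[ℝ] ℝ) (w : EuclideanSpace ℝ (Fin n)) :
    L w = ∑ i, L (EuclideanSpace.single i 1) * w i := by
  have h1 : w = ∑ i, w i • EuclideanSpace.single i (1 : ℝ) := by
    ext j
    simp [Finset.sum_apply, Pi.single_apply]
  conv_lhs => rw [h1]
  rw [map_sum]
  exact Finset.sum_congr rfl fun i _ => by rw [map_smul, smul_eq_mul, mul_comm]

/-- Integration by parts against a smooth compactly supported cutoff. -/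
lemma ibp_smooth {f : EuclideanSpace ℝ (Fin n) → ℝ} {C : NNReal} (hf : LipschitzWith C f)
    {g : EuclideanSpace ℝ (Fin n) → ℝ} (hg : ContDiff ℝ (⊤ : ℕ∞) g) (hgc : HasCompactSupport g)
    (W : Fin n → MvPolynomial (Fin n) ℝ) :
    ∫ a, g a * ∑ i, pd f a i * ev (W i) a
      = -∫ a, f a * (fderiv ℝ g a (vf W a) + g a * ∑ i, ev (pderiv i (W i)) a) := by
  classical
  set G : Fin n → EuclideanSpace ℝ (Fin n) → ℝ := fun i a => g a * ev (W i) a with hG
  have hGc : ∀ i, ContDiff ℝ (⊤ : ℕ∞) (G i) := fun i => hg.mul (ev_contDiff _)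
  have hGs : ∀ i, HasCompactSupport (G i) := fun i => hgc.mul_right
  have hGd : ∀ i a w, fderiv ℝ (G i) a w
      = fderiv ℝ g a w * ev (W i) a + g a * fderiv ℝ (ev (W i)) a w := by
    intro i a w
    have h1 := ((hg.differentiable (by simp) a).hasFDerivAt).fun_mul
      (((ev_contDiff (W i)).differentiable (by simp) a).hasFDerivAt)
    rw [h1.fderiv]
    simp only [ContinuousLinearMap.add_apply, ContinuousLinearMap.smul_apply, smul_eq_mul]
    ring
  have hae : ∀ᵐ a ∂(volume : Measure (EuclideanSpace ℝ (Fin n))), ∀ i,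
      lineDeriv ℝ f a (EuclideanSpace.single i 1) = pd f a i := by
    filter_upwards [hf.ae_differentiableAt] with a ha i
    exact ha.lineDeriv_eq_fderiv
  have hi : ∀ i, ∫ a, pd f a i * G i a = -∫ a, f a * fderiv ℝ (G i) a (EuclideanSpace.single i 1) := by
    intro i
    obtain ⟨D, hD⟩ := ContDiff.lipschitzWith_of_hasCompactSupport (hGs i) (hGc i) (by simp)
    have h1 := hf.integral_lineDeriv_mul_eq (μ := volume) hD (hGs i) (EuclideanSpace.single i 1)
    have h2 : ∫ a, pd f a i * G i a = ∫ a, lineDeriv ℝ f a (EuclideanSpace.single i 1) * G i a := by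
      refine integral_congr_ae ?_
      filter_upwards [hae] with a ha
      rw [ha i]
    rw [h2, h1, ← integral_neg]
    refine integral_congr_ae (Eventually.of_forall fun a => ?_)
    simp only
    rw [((hGc i).differentiable (by simp) a).lineDeriv_eq_fderiv, map_neg]
    ring
  have hint1 : ∀ i, Integrable (fun a => pd f a i * G i a) := by
    intro i
    refine Integrable.bdd_mul (c := C) ((hGc i).continuous.integrable_of_hasCompactSupport (hGs i))
      (pd_measurable f i).aestronglyMeasurable (Eventually.of_forall fun a => ?_)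
    rw [Real.norm_eq_abs]
    exact pd_abs_le hf a i
  have hint2 : ∀ i, Integrable (fun a => f a * fderiv ℝ (G i) a (EuclideanSpace.single i 1)) := by
    intro i
    have h1 : Continuous fun a => fderiv ℝ (G i) a (EuclideanSpace.single i (1 : ℝ)) :=
      ((hGc i).continuous_fderiv (by simp)).clm_apply continuous_const
    refine (hf.continuous.mul h1).integrable_of_hasCompactSupport ?_
    exact ((hGs i).fderiv_apply (𝕜 := ℝ) (EuclideanSpace.single i (1 : ℝ))).mul_left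
  have e1 : ∫ a, g a * ∑ i, pd f a i * ev (W i) a = ∑ i, ∫ a, pd f a i * G i a := by
    rw [← integral_finsetSum _ fun i _ => hint1 i]
    refine integral_congr_ae (Eventually.of_forall fun a => ?_)
    simp only [hG]
    rw [Finset.mul_sum]
    exact Finset.sum_congr rfl fun i _ => by ring
  have e2 : ∫ a, f a * (fderiv ℝ g a (vf W a) + g a * ∑ i, ev (pderiv i (W i)) a)
      = ∑ i, ∫ a, f a * fderiv ℝ (G i) a (EuclideanSpace.single i 1) := by
    rw [← integral_finsetSum _ fun i _ => hint2 i]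
    refine integral_congr_ae (Eventually.of_forall fun a => ?_)
    simp only
    rw [← Finset.mul_sum]
    congr 1
    rw [apply_eq_sum (fderiv ℝ g a) (vf W a), Finset.mul_sum, ← Finset.sum_add_distrib]
    refine Finset.sum_congr rfl fun i _ => ?_
    rw [hGd, vf_apply]
    congr 2
    rw [ev_fderiv, Finset.sum_eq_single i]
    · simp
    · intro j _ hj; simp [hj]
    · simp
  rw [e1, e2, ← Finset.sum_neg_distrib]
  exact Finset.sum_congr rfl fun i _ => hi i

/-- The cutoff version on `K`. -/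
lemma ON.ibp_cut {e : Fin n → Matrix (Fin p) (Fin q) ℝ} (h : ON e) {ψ : ℝ → ℝ}
    (hψc : ContDiff ℝ (⊤ : ℕ∞) ψ) {ε : ℝ} (hε : 0 < ε) (hψ : ∀ t ≤ ε, ψ t = 0)
    {f : EuclideanSpace ℝ (Fin n) → ℝ} {C : NNReal} (hf : LipschitzWith C f)
    (W : Fin n → MvPolynomial (Fin n) ℝ) (c : MvPolynomial (Fin n) ℝ)
    (hW : ∀ a ∈ opK e, fderiv ℝ (Dt e) a (vf W a) = Dt e a * ev c a) :
    ∫ a in opK e, (ψ (Dt e a) * ∑ i, pd f a i * ev (W i) a)
      = -∫ a in opK e, f a * (deriv ψ (Dt e a) * (Dt e a * ev c a)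
          + ψ (Dt e a) * ∑ i, ev (pderiv i (W i)) a) := by
  have h1 := ibp_smooth hf (h.cut_contDiff hψc hε hψ) (h.cut_compact ψ) W
  have hm := (opK_closed e).measurableSet
  rw [← integral_indicator hm, ← integral_indicator hm]
  have e1 : ((opK e).indicator fun a => ψ (Dt e a) * ∑ i, pd f a i * ev (W i) a)
      = fun a => cut e ψ a * ∑ i, pd f a i * ev (W i) a := by
    ext a
    by_cases ha : a ∈ opK e
    · rw [Set.indicator_of_mem ha, cut_mem ha]
    · rw [Set.indicator_of_notMem ha, cut_notMem ha, zero_mul]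
  have e2 : ((opK e).indicator fun a => f a * (deriv ψ (Dt e a) * (Dt e a * ev c a)
          + ψ (Dt e a) * ∑ i, ev (pderiv i (W i)) a))
      = fun a => f a * (fderiv ℝ (cut e ψ) a (vf W a)
          + cut e ψ a * ∑ i, ev (pderiv i (W i)) a) := by
    ext a
    by_cases ha : a ∈ opK e
    · rw [Set.indicator_of_mem ha, cut_mem ha, h.cut_fderiv hψc hε hψ ha, hW a ha]
    · rw [Set.indicator_of_notMem ha, cut_notMem ha, cut_fderiv_out ha, zero_mul, add_zero,
        mul_zero]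
  rw [e1, e2, h1]

end Pool.Agent.Lib.MP_8d00da_gt.h30
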