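import Mathlib
import Pool.Agent.Lib.MP_8d00da_gt.h30.Ibp

/-!
# Removing the cutoff
-/

namespace Pool.Agent.Lib.MP_8d00da_gt.h30

open Finset Matrix MeasureTheory Metric Filter Topology MvPolynomial

variable {n p q : ℕ}

/-- The cutoff profile. -/
noncomputable def psi (ε s t : ℝ) : ℝ := Real.smoothTransition (t / ε - 1) * t ^ s

lemma psi_zero {ε s t : ℝ} (hε : 0 < ε) (ht : t ≤ ε) : psi ε s t = 0 := by
  unfold psi
  rw [Real.smoothTransition.zero_of_nonpos, zero_mul]
  rw [sub_nonpos, div_le_one hε]
  exact ht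

lemma psi_contDiff {ε : ℝ} (s : ℝ) (hε : 0 < ε) : ContDiff ℝ (⊤ : ℕ∞) (psi ε s) := by
  rw [contDiff_iff_contDiffAt]
  intro t
  rcases lt_or_ge t ε with ht | ht
  · refine contDiffAt_const (c := (0 : ℝ)) |>.congr_of_eventuallyEq ?_
    filter_upwards [Iio_mem_nhds ht] with u hu using psi_zero hε (le_of_lt hu)
  · unfold psi
    have h1 : ContDiff ℝ (⊤ : ℕ∞) fun t : ℝ => Real.smoothTransition (t / ε - 1) :=
      Real.smoothTransition.contDiff.comp (by fun_prop)
    refine h1.contDiffAt.mul ?_
    exact contDiffAt_id.rpow_const_of_ne (by simp only [id]; linarith)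

/-- The derivative of the transition function times `x + 1`. -/
noncomputable def gst (x : ℝ) : ℝ := deriv Real.smoothTransition x * (x + 1)

lemma gst_zero_left {x : ℝ} (hx : x < 0) : gst x = 0 := by
  unfold gst
  have h1 : Real.smoothTransition =ᶠ[𝓝 x] fun _ => (0 : ℝ) := by
    filter_upwards [Iio_mem_nhds hx] with u hu
      using Real.smoothTransition.zero_of_nonpos (le_of_lt hu)
  rw [h1.deriv_eq]
  simp

lemma gst_zero_right {x : ℝ} (hx : 1 < x) : gst x = 0 := by
  unfold gst
  have h1 : Real.smoothTransition =ᶠ[𝓝 x] fun _ => (1 : ℝ) := by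
    filter_upwards [Ioi_mem_nhds hx] with u hu
      using Real.smoothTransition.one_of_one_le (le_of_lt hu)
  rw [h1.deriv_eq]
  simp

lemma gst_continuous : Continuous gst := by
  unfold gst
  have h1 : Continuous (deriv Real.smoothTransition) :=
    (Real.smoothTransition.contDiff (n := (⊤ : ℕ∞))).continuous_deriv (by simp)
  fun_prop

lemma gst_bound : ∃ B : ℝ, 0 ≤ B ∧ ∀ x, |gst x| ≤ B := by
  obtain ⟨B, hB⟩ := (isCompact_Icc (a := (0 : ℝ)) (b := 1)).exists_bound_of_continuousOn
    gst_continuous.continuousOn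
  refine ⟨|B|, abs_nonneg _, fun x => ?_⟩
  rcases lt_or_ge x 0 with h | h
  · rw [gst_zero_left h]; simp
  · rcases lt_or_ge 1 x with h' | h'
    · rw [gst_zero_right h']; simp
    · exact (hB x ⟨h, h'⟩).trans (le_abs_self _)

lemma psi_deriv {ε s t : ℝ} (hε : 0 < ε) (ht : 0 < t) :
    deriv (psi ε s) t * t
      = gst (t / ε - 1) * t ^ s + s * (Real.smoothTransition (t / ε - 1) * t ^ s) := by
  have h1 : HasDerivAt (fun t : ℝ => Real.smoothTransition (t / ε - 1))
      (deriv Real.smoothTransition (t / ε - 1) * (1 / ε)) t := by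
    have h2 : HasDerivAt (fun t : ℝ => t / ε - 1) (1 / ε) t :=
      ((hasDerivAt_id t).div_const ε).sub_const 1
    have h3 : HasDerivAt Real.smoothTransition (deriv Real.smoothTransition (t / ε - 1))
        (t / ε - 1) :=
      ((Real.smoothTransition.contDiff (n := (⊤ : ℕ∞))).differentiable (by simp) _).hasDerivAt
    exact h3.comp t h2
  have h4 : HasDerivAt (fun t : ℝ => t ^ s) (s * t ^ (s - 1)) t :=
    Real.hasDerivAt_rpow_const (Or.inl ht.ne')
  have h5 := h1.fun_mul h4
  have h6 : deriv (psi ε s) t = deriv Real.smoothTransition (t / ε - 1) * (1 / ε) * t ^ s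
      + Real.smoothTransition (t / ε - 1) * (s * t ^ (s - 1)) := h5.deriv
  rw [h6]
  unfold gst
  have h7 : t ^ s = t ^ (s - 1) * t := by
    rw [← Real.rpow_add_one ht.ne']
    congr 1; ring
  rw [h7]
  have h8 : t / ε - 1 + 1 = t / ε := by ring
  rw [h8]
  field_simp

lemma ON.ibp_weight {e : Fin n → Matrix (Fin p) (Fin q) ℝ} (h : ON e) {s : ℝ} (hs : 0 ≤ s)
    {f : EuclideanSpace ℝ (Fin n) → ℝ} {C : NNReal} (hf : LipschitzWith C f)
    (W : Fin n → MvPolynomial (Fin n) ℝ) (c : MvPolynomial (Fin n) ℝ)
    (hW : ∀ a ∈ opK e, fderiv ℝ (Dt e) a (vf W a) = Dt e a * ev c a) :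
    ∫ a in opK e, (Dt e a) ^ s * (∑ i, pd f a i * ev (W i) a
      + f a * (∑ i, ev (pderiv i (W i)) a + s * ev c a)) = 0 := by
  classical
  set K := opK e with hK
  have hKm : MeasurableSet K := (opK_closed e).measurableSet
  have hKc : IsCompact K := h.opK_compact
  have hfin : IsFiniteMeasure (volume.restrict K) := ⟨by
    rw [Measure.restrict_apply_univ]; exact hKc.measure_lt_top⟩
  set D := Dt e with hD
  have hDc : Continuous D := Dt_continuous e
  have hDs : Continuous fun a => D a ^ s := hDc.rpow_const fun _ => Or.inr hs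
  set H1 : EuclideanSpace ℝ (Fin n) → ℝ := fun a => ∑ i, pd f a i * ev (W i) a with hH1
  set H2 : EuclideanSpace ℝ (Fin n) → ℝ := fun a => f a * ∑ i, ev (pderiv i (W i)) a with hH2
  set H3 : EuclideanSpace ℝ (Fin n) → ℝ := fun a => f a * ev c a with hH3
  have mH1 : Measurable H1 := Finset.measurable_sum _ fun i _ =>
    (pd_measurable f i).mul (ev_continuous _).measurable
  have cH2 : Continuous H2 := hf.continuous.mul
    (continuous_finset_sum _ fun i _ => ev_continuous _)
  have cH3 : Continuous H3 := hf.continuous.mul (ev_continuous _)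
  -- integrability helpers
  have hbi : ∀ (g : EuclideanSpace ℝ (Fin n) → ℝ), Continuous g → Integrable g (volume.restrict K) :=
    fun g hg => hg.continuousOn.integrableOn_compact hKc
  have iH1 : Integrable H1 (volume.restrict K) := by
    refine integrable_finsetSum _ fun i _ => ?_
    exact (hbi _ (ev_continuous (W i))).bdd_mul (c := C) (pd_measurable f i).aestronglyMeasurable
      (Eventually.of_forall fun a => by rw [Real.norm_eq_abs]; exact pd_abs_le hf a i)
  have iH1' : ∀ g : EuclideanSpace ℝ (Fin n) → ℝ, Continuous g →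
      Integrable (fun a => g a * H1 a) (volume.restrict K) := by
    intro g hg
    have : (fun a => g a * H1 a) = fun a => ∑ i, pd f a i * (g a * ev (W i) a) := by
      ext a
      simp only [hH1]
      rw [Finset.mul_sum]
      exact Finset.sum_congr rfl fun i _ => by ring
    rw [this]
    refine integrable_finsetSum _ fun i _ => ?_
    exact (hbi _ (hg.mul (ev_continuous (W i)))).bdd_mul (c := C)
      (pd_measurable f i).aestronglyMeasurable
      (Eventually.of_forall fun a => by rw [Real.norm_eq_abs]; exact pd_abs_le hf a i)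
  obtain ⟨B, hB0, hB⟩ := gst_bound
  set F : ℕ → EuclideanSpace ℝ (Fin n) → ℝ := fun k a =>
    D a ^ s * (Real.smoothTransition (D a / (1 / ((k : ℝ) + 1)) - 1) * (H1 a + H2 a + s * H3 a)
      + gst (D a / (1 / ((k : ℝ) + 1)) - 1) * H3 a) with hF
  have hF0 : ∀ k, ∫ a in K, F k a = 0 := by
    intro k
    set ε : ℝ := 1 / ((k : ℝ) + 1) with hε
    have hεpos : 0 < ε := by positivity
    have hψc := psi_contDiff s hεpos
    have h1 := h.ibp_cut hψc hεpos (fun t ht => psi_zero hεpos ht) hf W c hW
    have i1 : Integrable (fun a => psi ε s (D a) * H1 a) (volume.restrict K) :=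
      iH1' _ (hψc.continuous.comp hDc)
    have i2 : Integrable (fun a => f a * (deriv (psi ε s) (D a) * (D a * ev c a)
          + psi ε s (D a) * ∑ i, ev (pderiv i (W i)) a)) (volume.restrict K) := by
      refine hbi _ (hf.continuous.mul ?_)
      have c1 : Continuous (deriv (psi ε s)) := hψc.continuous_deriv (by simp)
      exact ((c1.comp hDc).mul (hDc.mul (ev_continuous c))).add
        ((hψc.continuous.comp hDc).mul (continuous_finset_sum _ fun i _ => ev_continuous _))
    have h2 : ∫ a in K, (psi ε s (D a) * H1 a + f a * (deriv (psi ε s) (D a) * (D a * ev c a)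
          + psi ε s (D a) * ∑ i, ev (pderiv i (W i)) a)) = 0 := by
      rw [integral_add i1 i2]
      have h3 : ∫ a in K, psi ε s (D a) * H1 a = -∫ a in K, f a * (deriv (psi ε s) (D a) *
        (D a * ev c a) + psi ε s (D a) * ∑ i, ev (pderiv i (W i)) a) := h1
      rw [h3]; ring
    rw [← h2]
    refine integral_congr_ae ?_
    filter_upwards [opK_null e] with a ha
    have h4 := psi_deriv (s := s) hεpos ha
    simp only [hF, ← hε]
    have h5 : deriv (psi ε s) (D a) * (D a * ev c a)
        = (deriv (psi ε s) (D a) * D a) * ev c a := by ring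
    rw [h5, h4]
    simp only [hH2, hH3, psi]
    ring
  have hlim : Tendsto (fun k => ∫ a in K, F k a) atTop
      (𝓝 (∫ a in K, D a ^ s * (H1 a + H2 a + s * H3 a))) := by
    refine tendsto_integral_of_dominated_convergence
      (fun a => D a ^ s * (|H1 a + H2 a + s * H3 a| + B * |H3 a|)) (fun k => ?_) ?_ (fun k => ?_) ?_
    · refine Measurable.aestronglyMeasurable ?_
      have m1 : Measurable fun a => D a / (1 / ((k : ℝ) + 1)) - 1 := by fun_prop
      have m2 : Measurable fun a => Real.smoothTransition (D a / (1 / ((k : ℝ) + 1)) - 1) :=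
        (Real.smoothTransition.continuous.measurable).comp m1
      have m3 : Measurable fun a => gst (D a / (1 / ((k : ℝ) + 1)) - 1) :=
        gst_continuous.measurable.comp m1
      exact hDs.measurable.mul ((m2.mul ((mH1.add cH2.measurable).add
        (cH3.measurable.const_mul s))).add (m3.mul cH3.measurable))
    · have j1 : Integrable (fun a => D a ^ s * (H1 a + H2 a + s * H3 a)) (volume.restrict K) := by
        have e1 : (fun a => D a ^ s * (H1 a + H2 a + s * H3 a))
            = fun a => D a ^ s * H1 a + D a ^ s * (H2 a + s * H3 a) := by ext a; ring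
        rw [e1]
        exact (iH1' _ hDs).add (hbi _ (hDs.mul (cH2.add (continuous_const.mul cH3))))
      have j2 : Integrable (fun a => D a ^ s * (B * |H3 a|)) (volume.restrict K) :=
        hbi _ (hDs.mul (continuous_const.mul cH3.abs))
      have j3 : Integrable (fun a => |D a ^ s * (H1 a + H2 a + s * H3 a)|
        + D a ^ s * (B * |H3 a|)) (volume.restrict K) := j1.abs.add j2
      refine j3.congr ?_
      filter_upwards [opK_null e] with a ha
      have : 0 ≤ D a ^ s := Real.rpow_nonneg (le_of_lt ha) _
      rw [abs_mul, abs_of_nonneg this]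
      ring
    · filter_upwards [opK_null e] with a ha
      have h0 : 0 ≤ D a ^ s := Real.rpow_nonneg (le_of_lt ha) _
      simp only [hF]
      rw [norm_mul, Real.norm_eq_abs, abs_of_nonneg h0]
      refine mul_le_mul_of_nonneg_left ?_ h0
      refine (norm_add_le _ _).trans (add_le_add ?_ ?_)
      · rw [norm_mul, Real.norm_eq_abs, Real.norm_eq_abs,
          abs_of_nonneg (Real.smoothTransition.nonneg _)]
        calc _ ≤ 1 * |H1 a + H2 a + s * H3 a| :=
              mul_le_mul_of_nonneg_right (Real.smoothTransition.le_one _) (abs_nonneg _)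
          _ = _ := one_mul _
      · rw [norm_mul, Real.norm_eq_abs, Real.norm_eq_abs]
        exact mul_le_mul_of_nonneg_right (hB _) (abs_nonneg _)
    · filter_upwards [opK_null e] with a ha
      refine tendsto_const_nhds.congr' ?_
      have ht : Tendsto (fun k : ℕ => D a / (1 / ((k : ℝ) + 1)) - 1) atTop atTop := by
        have : (fun k : ℕ => D a / (1 / ((k : ℝ) + 1)) - 1) = fun k : ℕ => D a * ((k : ℝ) + 1) - 1 := by
          ext k; rw [div_div_eq_mul_div, div_one]
        rw [this]
        refine tendsto_atTop_add_const_right _ _ ?_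
        exact (tendsto_atTop_add_const_right _ _ tendsto_natCast_atTop_atTop).const_mul_atTop ha
      filter_upwards [ht.eventually_gt_atTop 1] with k hk
      simp only [hF]
      rw [gst_zero_right hk, Real.smoothTransition.one_of_one_le hk.le]
      ring
  have h0 : ∫ a in K, D a ^ s * (H1 a + H2 a + s * H3 a) = 0 := by
    simp_rw [hF0] at hlim
    exact tendsto_nhds_unique hlim tendsto_const_nhds |>.symm ▸ rfl
  rw [← h0]
  refine integral_congr_ae (Eventually.of_forall fun a => ?_)
  simp only [hH1, hH2, hH3]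
  ring

end Pool.Agent.Lib.MP_8d00da_gt.h30
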