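import Mathlib
import Pool.Agent.Lib.MP_8d00da_gt.h30.Limit
import Pool.Agent.Lib.MP_8d00da_gt.h30.Cov

/-!
# The weighted measures on the ball satisfy the analytic input
-/

namespace Pool.Agent.Lib.MP_8d00da_gt.h30

open Finset Matrix MeasureTheory Metric Filter Topology MvPolynomial

variable {n p q : ℕ}

/-- Closure of the span of `e` under the triple product. -/
def TC (e : Fin n → Matrix (Fin p) (Fin q) ℝ) : Prop :=
  ∀ a x : Fin n → ℝ, ∃ y : Fin n → ℝ, Am e a * (Am e x)ᵀ * Am e a = Am e y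

/-- The coordinates of `Q(a) x`. -/
noncomputable def Qv (e : Fin n → Matrix (Fin p) (Fin q) ℝ) (a x : Fin n → ℝ) (i : Fin n) : ℝ :=
  ∑ j, (∑ k, ∑ l, cc e i j k l * (a k * a l)) * x j

lemma Am_single (e : Fin n → Matrix (Fin p) (Fin q) ℝ) (i : Fin n) :
    Am e (Pi.single i 1) = e i := by
  unfold Am
  rw [Finset.sum_eq_single i]
  · simp
  · intro j _ hj; simp [hj]
  · simp

lemma Am_Qv {e : Fin n → Matrix (Fin p) (Fin q) ℝ} (h : ON e) (ht : TC e) (a x : Fin n → ℝ) :
    Am e (Qv e a x) = Am e a * (Am e x)ᵀ * Am e a := by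
  obtain ⟨y, hy⟩ := ht a x
  have h1 : y = Qv e a x := by
    ext i
    have h2 := h.trace_Am (Pi.single i 1) y
    have h3 := Am_tr_four e (Pi.single i 1) a x a
    have h4 : (Am e (Pi.single i 1))ᵀ * Am e a * (Am e x)ᵀ * Am e a
        = (Am e (Pi.single i 1))ᵀ * Am e y := by
      rw [← hy]; simp only [Matrix.mul_assoc]
    rw [h4, h2] at h3
    rw [Finset.sum_eq_single i (by intro j _ hj; simp [hj]) (by simp),
      Finset.sum_eq_single i (by intro j _ hj; simp [hj]) (by simp)] at h3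
    simp only [Pi.single_eq_same, one_mul] at h3
    exact h3
  rw [hy, h1]

/-- The polynomial field `(1 - Q(a)) ∇P`. -/
noncomputable def Vp (e : Fin n → Matrix (Fin p) (Fin q) ℝ) (P : MvPolynomial (Fin n) ℝ)
    (i : Fin n) : MvPolynomial (Fin n) ℝ :=
  pderiv i P - ∑ j, ∑ k, ∑ l, cc e i j k l • (X k * (X l * pderiv j P))

lemma ev_Vp (e : Fin n → Matrix (Fin p) (Fin q) ℝ) (P : MvPolynomial (Fin n) ℝ)
    (i : Fin n) (a : EuclideanSpace ℝ (Fin n)) :
    ev (Vp e P i) a = gp P a i - Qv e (fun i => a i) (gp P a) i := by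
  unfold Vp Qv gp
  rw [ev_sub, ev_sum]
  congr 1
  refine Finset.sum_congr rfl fun j _ => ?_
  rw [ev_sum, Finset.sum_mul]
  refine Finset.sum_congr rfl fun k _ => ?_
  rw [ev_sum, Finset.sum_mul]
  refine Finset.sum_congr rfl fun l _ => ?_
  rw [ev_smul, ev_mul, ev_mul, ev_X, ev_X]
  ring

lemma sum_Vp (e : Fin n → Matrix (Fin p) (Fin q) ℝ) (P : MvPolynomial (Fin n) ℝ) :
    ∑ i, pderiv i (Vp e P i) = Lap P - A0 e P := by
  rw [Lap_apply, A0_apply, ← Finset.sum_sub_distrib]
  refine Finset.sum_congr rfl fun i _ => ?_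
  unfold Vp
  rw [map_sub, map_sum]
  congr 1
  refine Finset.sum_congr rfl fun j _ => ?_
  rw [map_sum]
  refine Finset.sum_congr rfl fun k _ => ?_
  rw [map_sum]
  refine Finset.sum_congr rfl fun l _ => ?_
  rw [Derivation.map_smul]

lemma Gq_Vp (e : Fin n → Matrix (Fin p) (Fin q) ℝ) (P : MvPolynomial (Fin n) ℝ)
    (a : EuclideanSpace ℝ (Fin n)) (v : Fin n → ℝ) :
    ∑ i, v i * ev (Vp e P i) a = Gq e a v (gp P a) := by
  unfold Gq
  simp_rw [ev_Vp, mul_sub, Finset.sum_sub_distrib]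
  congr 1
  refine Finset.sum_congr rfl fun i _ => ?_
  unfold Qv
  rw [Finset.mul_sum]
  exact Finset.sum_congr rfl fun j _ => by ring

lemma tangent {e : Fin n → Matrix (Fin p) (Fin q) ℝ} (h : ON e) (ht : TC e)
    (u P : MvPolynomial (Fin n) ℝ) (a : EuclideanSpace ℝ (Fin n)) :
    fderiv ℝ (Dt e) a (vf (fun i => u * Vp e P i) a)
      = Dt e a * ev (-(2 : ℝ) • (u * Eul P)) a := by
  set A := Am e (fun i => a i) with hA
  rw [fderiv_Dt e a _ (ev u a • Am e (gp P a)) ?_]
  · rw [Matrix.transpose_smul, Matrix.smul_mul, trace_smul, h.trace_Am]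
    rw [ev_smul, ev_mul, Eul_apply, ev_sum]
    have : ∑ i, ev (X i * pderiv i P) a = ∑ i, gp P a i * a i :=
      Finset.sum_congr rfl fun i _ => by rw [ev_mul, ev_X, mul_comm]; rfl
    rw [this, smul_eq_mul]
    ring
  · have h1 : (fun i => (vf (fun i => u * Vp e P i) a) i)
        = fun i => ev u a * (gp P a i + (-1) * Qv e (fun i => a i) (gp P a) i) := by
      ext i
      rw [vf_apply, ev_mul, ev_Vp]
      ring
    rw [h1, Am_smul, Am_add e (gp P a) (fun i => (-1) * Qv e (fun i => a i) (gp P a) i), Am_smul,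
      Am_Qv h ht]
    rw [Matrix.transpose_smul, Matrix.mul_smul, Matrix.smul_mul]
    rw [smul_add, neg_one_smul, smul_neg, sub_eq_add_neg]

/-- The unnormalised weighted measure. -/
noncomputable def nu (e : Fin n → Matrix (Fin p) (Fin q) ℝ) (s : ℝ) :
    Measure (EuclideanSpace ℝ (Fin n)) :=
  (volume.restrict (opK e)).withDensity fun a => ENNReal.ofReal (Dt e a ^ s)

/-- The weighted probability measure. -/
noncomputable def mu (e : Fin n → Matrix (Fin p) (Fin q) ℝ) (s : ℝ) :
    Measure (EuclideanSpace ℝ (Fin n)) := (nu e s Set.univ)⁻¹ • nu e s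

section

variable {e : Fin n → Matrix (Fin p) (Fin q) ℝ} {s : ℝ}

lemma Ds_continuous (e : Fin n → Matrix (Fin p) (Fin q) ℝ) (hs : 0 ≤ s) :
    Continuous fun a => Dt e a ^ s :=
  (Dt_continuous e).rpow_const fun _ => Or.inr hs

lemma Ds_meas (e : Fin n → Matrix (Fin p) (Fin q) ℝ) (hs : 0 ≤ s) :
    Measurable fun a => ENNReal.ofReal (Dt e a ^ s) :=
  (Ds_continuous e hs).measurable.ennreal_ofReal

lemma ON.nu_lt_top (h : ON e) (hs : 0 ≤ s) : nu e s Set.univ < ⊤ := by
  unfold nu
  rw [withDensity_apply _ MeasurableSet.univ, Measure.restrict_univ]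
  obtain ⟨B, hB⟩ := h.opK_compact.exists_bound_of_continuousOn (Ds_continuous e hs).continuousOn
  calc ∫⁻ a in opK e, ENNReal.ofReal (Dt e a ^ s) ≤ ∫⁻ _a in opK e, ENNReal.ofReal B := by
        refine setLIntegral_mono' (opK_closed e).measurableSet fun a ha => ?_
        exact ENNReal.ofReal_le_ofReal ((le_abs_self _).trans (hB a ha))
    _ = ENNReal.ofReal B * volume (opK e) := by simp
    _ < ⊤ := ENNReal.mul_lt_top ENNReal.ofReal_lt_top h.opK_compact.measure_lt_top

lemma ON.vol_pos (h : ON e) : 0 < volume (opK e) :=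
  lt_of_lt_of_le (measure_ball_pos volume (0 : EuclideanSpace ℝ (Fin n)) one_pos)
    (measure_mono (ball_subset_closedBall.trans h.ball_sub))

lemma ON.nu_pos (h : ON e) (hs : 0 ≤ s) : 0 < nu e s Set.univ := by
  unfold nu
  rw [withDensity_apply _ MeasurableSet.univ, Measure.restrict_univ, pos_iff_ne_zero]
  intro h0
  rw [lintegral_eq_zero_iff (Ds_meas e hs)] at h0
  have h1 : ∀ᵐ _a ∂(volume.restrict (opK e)), False := by
    filter_upwards [h0, opK_null e] with a ha hb
    simp only [Pi.zero_apply, ENNReal.ofReal_eq_zero] at ha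
    have := Real.rpow_pos_of_pos hb s
    linarith
  rw [ae_iff] at h1
  simp only [not_false_eq_true, Set.ofPred_true, Measure.restrict_apply_univ] at h1
  exact (h.vol_pos).ne' h1

lemma ON.integral_mu (h : ON e) (hs : 0 ≤ s) (g : EuclideanSpace ℝ (Fin n) → ℝ) :
    ∫ a, g a ∂(mu e s) = ((nu e s Set.univ)⁻¹).toReal * ∫ a in opK e, Dt e a ^ s * g a := by
  unfold mu
  rw [integral_smul_measure, smul_eq_mul]
  congr 1
  unfold nu
  rw [integral_withDensity_eq_integral_toReal_smul (Ds_meas e hs)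
    (Eventually.of_forall fun a => ENNReal.ofReal_lt_top)]
  refine integral_congr_ae ?_
  filter_upwards [opK_null e] with a ha
  rw [ENNReal.toReal_ofReal (Real.rpow_nonneg ha.le _), smul_eq_mul]

lemma ON.Zinv_pos (h : ON e) (hs : 0 ≤ s) : 0 < ((nu e s Set.univ)⁻¹).toReal :=
  ENNReal.toReal_pos (ENNReal.inv_ne_zero.2 (h.nu_lt_top hs).ne)
    (ENNReal.inv_ne_top.2 (h.nu_pos hs).ne')

lemma ON.mu_prob (h : ON e) (hs : 0 ≤ s) : IsProbabilityMeasure (mu e s) := by
  constructor
  unfold mu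
  rw [Measure.smul_apply, smul_eq_mul]
  exact ENNReal.inv_mul_cancel (h.nu_pos hs).ne' (h.nu_lt_top hs).ne

lemma mu_supp (e : Fin n → Matrix (Fin p) (Fin q) ℝ) (s : ℝ) : ∀ᵐ a ∂(mu e s), a ∈ opK e := by
  unfold mu nu
  refine Measure.ae_smul_measure ?_ _
  exact (withDensity_absolutelyContinuous _ _).ae_le
    (ae_restrict_mem (opK_closed e).measurableSet)

lemma ON.inj (h : ON e) (hs : 0 ≤ s) (P : MvPolynomial (Fin n) ℝ)
    (hP : ∫ a, ev P a * ev P a ∂(mu e s) = 0) : P = 0 := by
  rw [h.integral_mu hs] at hP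
  have h1 : ∫ a in opK e, Dt e a ^ s * (ev P a * ev P a) = 0 := by
    rcases mul_eq_zero.1 hP with h0 | h0
    · exact absurd h0 (h.Zinv_pos hs).ne'
    · exact h0
  have hc : Continuous fun a => Dt e a ^ s * (ev P a * ev P a) :=
    (Ds_continuous e hs).mul ((ev_continuous P).mul (ev_continuous P))
  have hi : Integrable (fun a => Dt e a ^ s * (ev P a * ev P a)) (volume.restrict (opK e)) :=
    hc.continuousOn.integrableOn_compact h.opK_compact
  have h2 : ∀ᵐ a ∂(volume.restrict (opK e)), 0 ≤ Dt e a ^ s * (ev P a * ev P a) := by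
    filter_upwards [opK_null e] with a ha
    exact mul_nonneg (Real.rpow_nonneg ha.le _) (mul_self_nonneg _)
  rw [integral_eq_zero_iff_of_nonneg_ae h2 hi] at h1
  have h3 : ∀ᵐ a ∂(volume.restrict (opK e)), ev P a = 0 := by
    filter_upwards [h1, opK_null e] with a ha hb
    simp only [Pi.zero_apply] at ha
    rcases mul_eq_zero.1 ha with h0 | h0
    · exact absurd h0 (Real.rpow_pos_of_pos hb s).ne'
    · exact mul_self_eq_zero.1 h0
  have h4 : ev P =ᵐ[volume.restrict (ball (0 : EuclideanSpace ℝ (Fin n)) 1)] fun _ => 0 :=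
    ae_mono (Measure.restrict_mono (ball_subset_closedBall.trans h.ball_sub) le_rfl) h3
  have h5 := Measure.eqOn_open_of_ae_eq h4 isOpen_ball (ev_continuous P).continuousOn
    continuousOn_const
  have hr : (0 : ℝ) < 1 / ((n : ℝ) + 1) := by positivity
  refine MvPolynomial.funext_set (fun _ => Set.Ioo (-(1 / ((n : ℝ) + 1))) (1 / ((n : ℝ) + 1)))
    (fun _ => Set.Ioo_infinite (by linarith)) fun x hx => ?_
  have h6 : (WithLp.toLp 2 x : EuclideanSpace ℝ (Fin n)) ∈ ball (0 : EuclideanSpace ℝ (Fin n)) 1 := by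
    rw [mem_ball_zero_iff]
    have h7 : ‖(WithLp.toLp 2 x : EuclideanSpace ℝ (Fin n))‖ ^ 2 < 1 := by
      rw [EuclideanSpace.norm_sq_eq]
      calc ∑ i, ‖x i‖ ^ 2 ≤ ∑ _i : Fin n, (1 / ((n : ℝ) + 1)) ^ 2 := by
            refine Finset.sum_le_sum fun i _ => ?_
            have h8 := hx i (Set.mem_univ i)
            rw [Real.norm_eq_abs]
            exact pow_le_pow_left₀ (abs_nonneg _) (abs_le.2 ⟨h8.1.le, h8.2.le⟩) 2
        _ = n * (1 / ((n : ℝ) + 1)) ^ 2 := by simp
        _ < 1 := by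
            have hn : (0 : ℝ) ≤ n := Nat.cast_nonneg n
            rw [div_pow, one_pow, mul_one_div, div_lt_one (by positivity)]
            nlinarith
    by_contra h9
    push Not at h9
    nlinarith
  have h7 := h5 h6
  rw [map_zero]
  exact h7

lemma Gq_cont {v w : EuclideanSpace ℝ (Fin n) → Fin n → ℝ} (hv : ∀ i, Continuous fun a => v a i)
    (hw : ∀ i, Continuous fun a => w a i) : Continuous fun a => Gq e a (v a) (w a) := by
  unfold Gq
  refine Continuous.sub ?_ ?_
  · exact continuous_finsetSum _ fun i _ => (hv i).mul (hw i)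
  · refine continuous_finsetSum _ fun i _ => continuous_finsetSum _ fun j _ =>
      Continuous.mul ?_ ((hv i).mul (hw j))
    fun_prop

lemma ev_Lop (P : MvPolynomial (Fin n) ℝ) (a : EuclideanSpace ℝ (Fin n)) :
    ev (Lop e (2 * s) P) a = ev (Lap P - A0 e P) a + s * ev (-(2 : ℝ) • Eul P) a := by
  rw [Lop_apply, ev_sub, ev_smul, ev_smul]
  ring

lemma ON.ibp1' (h : ON e) (ht : TC e) (hs : 0 ≤ s) {f : EuclideanSpace ℝ (Fin n) → ℝ}
    {C : NNReal} (hf : LipschitzWith C f) (P : MvPolynomial (Fin n) ℝ) :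
    ∫ a in opK e, Dt e a ^ s * (f a * ev (Lop e (2 * s) P) a)
      = -∫ a in opK e, Dt e a ^ s * Gq e a (pd f a) (gp P a) := by
  have h1 := h.ibp_weight hs hf (fun i => 1 * Vp e P i) (-(2 : ℝ) • (1 * Eul P))
    (fun a _ => tangent h ht 1 P a)
  simp only [one_mul] at h1
  have hbi : ∀ (g : EuclideanSpace ℝ (Fin n) → ℝ), Continuous g →
      Integrable g (volume.restrict (opK e)) :=
    fun g hg => hg.continuousOn.integrableOn_compact h.opK_compact
  have i1 : Integrable (fun a => Dt e a ^ s * Gq e a (pd f a) (gp P a))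
      (volume.restrict (opK e)) := by
    have : (fun a => Dt e a ^ s * Gq e a (pd f a) (gp P a))
        = fun a => ∑ i, pd f a i * (Dt e a ^ s * ev (Vp e P i) a) := by
      ext a
      rw [← Gq_Vp, Finset.mul_sum]
      exact Finset.sum_congr rfl fun i _ => by ring
    rw [this]
    refine integrable_finsetSum _ fun i _ => ?_
    exact (hbi _ ((Ds_continuous e hs).mul (ev_continuous _))).bdd_mul (c := C)
      (pd_measurable f i).aestronglyMeasurable
      (Eventually.of_forall fun a => by rw [Real.norm_eq_abs]; exact pd_abs_le hf a i)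
  have i2 : Integrable (fun a => Dt e a ^ s * (f a * ev (Lop e (2 * s) P) a))
      (volume.restrict (opK e)) :=
    hbi _ ((Ds_continuous e hs).mul (hf.continuous.mul (ev_continuous _)))
  have h2 : ∫ a in opK e, (Dt e a ^ s * Gq e a (pd f a) (gp P a)
      + Dt e a ^ s * (f a * ev (Lop e (2 * s) P) a)) = 0 := by
    rw [← h1]
    refine integral_congr_ae (Eventually.of_forall fun a => ?_)
    simp only
    rw [Gq_Vp, ← ev_sum, sum_Vp, ev_Lop]
    ring
  rw [integral_add i1 i2] at h2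
  linarith

lemma ON.ibp2' (h : ON e) (ht : TC e) (hs : 0 ≤ s) (u P : MvPolynomial (Fin n) ℝ) :
    ∫ a in opK e, Dt e a ^ s * (ev u a * ev (Lop e (2 * s) P) a)
      = -∫ a in opK e, Dt e a ^ s * Gq e a (gp u a) (gp P a) := by
  have h1 := h.ibp_weight hs (LipschitzWith.const (1 : ℝ)) (fun i => u * Vp e P i)
    (-(2 : ℝ) • (u * Eul P)) (fun a _ => tangent h ht u P a)
  have hpd : ∀ (a : EuclideanSpace ℝ (Fin n)) (i : Fin n),
      pd (fun _ : EuclideanSpace ℝ (Fin n) => (1 : ℝ)) a i = 0 := by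
    intro a i
    unfold pd
    simp
  simp only [hpd, zero_mul, Finset.sum_const_zero, zero_add, one_mul] at h1
  have hbi : ∀ (g : EuclideanSpace ℝ (Fin n) → ℝ), Continuous g →
      Integrable g (volume.restrict (opK e)) :=
    fun g hg => hg.continuousOn.integrableOn_compact h.opK_compact
  have i1 : Integrable (fun a => Dt e a ^ s * Gq e a (gp u a) (gp P a))
      (volume.restrict (opK e)) :=
    hbi _ ((Ds_continuous e hs).mul (Gq_cont (gp_continuous u) (gp_continuous P)))
  have i2 : Integrable (fun a => Dt e a ^ s * (ev u a * ev (Lop e (2 * s) P) a))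
      (volume.restrict (opK e)) :=
    hbi _ ((Ds_continuous e hs).mul ((ev_continuous _).mul (ev_continuous _)))
  have h2 : ∫ a in opK e, (Dt e a ^ s * Gq e a (gp u a) (gp P a)
      + Dt e a ^ s * (ev u a * ev (Lop e (2 * s) P) a)) = 0 := by
    rw [← h1]
    refine integral_congr_ae (Eventually.of_forall fun a => ?_)
    simp only
    have e1 : ∑ i, ev (pderiv i (u * Vp e P i)) a
        = Gq e a (gp u a) (gp P a) + ev u a * ev (Lap P - A0 e P) a := by
      rw [← Gq_Vp, ← sum_Vp, ev_sum, Finset.mul_sum, ← Finset.sum_add_distrib]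
      refine Finset.sum_congr rfl fun i _ => ?_
      rw [pderiv_mul, ev_add, ev_mul, ev_mul]
      rfl
    rw [e1, ev_Lop, ev_smul, ev_smul, ev_mul]
    ring
  rw [integral_add i1 i2] at h2
  linarith

/-- The analytic input holds for the weighted measures. -/
theorem ON.data (h : ON e) (ht : TC e) (hs : 0 ≤ s) : AData e (2 * s) (mu e s) (opK e) where
  prob := h.mu_prob hs
  compact := h.opK_compact
  supp := mu_supp e s
  inj := h.inj hs
  Gnonneg a ha v := h.G_nonneg ha v
  Gle a ha v := h.G_le ha v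
  ibp1 f C hf P := by
    rw [h.integral_mu hs, h.integral_mu hs, ← mul_neg, h.ibp1' ht hs hf P]
  ibp2 u P := by
    rw [h.integral_mu hs, h.integral_mu hs, ← mul_neg, h.ibp2' ht hs u P]

end

end Pool.Agent.Lib.MP_8d00da_gt.h30
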