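import Mathlib
import Pool.Agent.Lib.MP_8d00da_gt.h30.Data

/-!
# The Poincaré inequality for the weighted ball measures and their linear images
-/

namespace Pool.Agent.Lib.MP_8d00da_gt.h30

open Finset Matrix MeasureTheory Metric Filter Topology MvPolynomial
open scoped InnerProductSpace

variable {n p q : ℕ} {e : Fin n → Matrix (Fin p) (Fin q) ℝ} {s : ℝ}

lemma inner_coord (a θ : EuclideanSpace ℝ (Fin n)) : ⟪a, θ⟫_ℝ = ∑ i, θ i * a i := by
  rw [PiLp.inner_apply]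
  exact Finset.sum_congr rfl fun i _ => by simp

lemma neg_mem_opK {a : EuclideanSpace ℝ (Fin n)} : -a ∈ opK e ↔ a ∈ opK e := by
  have h1 : ∀ b : EuclideanSpace ℝ (Fin n), b ∈ opK e → -b ∈ opK e := by
    intro b hb v
    have h2 : Am e (fun i => (-b) i) = -Am e (fun i => b i) := by
      have := Am_smul e (-1) (fun i => b i)
      simp only [neg_mul, one_mul, neg_smul, one_smul] at this
      exact this
    rw [h2, Matrix.neg_mulVec]
    simp only [Pi.neg_apply, neg_sq]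
    exact hb v
  exact ⟨fun h => by simpa using h1 _ h, h1 a⟩

lemma Dt_neg (a : EuclideanSpace ℝ (Fin n)) : Dt e (-a) = Dt e a := by
  unfold Dt
  have h2 : Am e (fun i => (-a) i) = -Am e (fun i => a i) := by
    have := Am_smul e (-1) (fun i => a i)
    simp only [neg_mul, one_mul, neg_smul, one_smul] at this
    exact this
  rw [h2]
  simp

/-- Odd functions have mean zero. -/
lemma ON.mean_zero (h : ON e) (hs : 0 ≤ s) (θ : EuclideanSpace ℝ (Fin n)) :
    ∫ a, ⟪a, θ⟫_ℝ ∂(mu e s) = 0 := by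
  rw [h.integral_mu hs]
  have h1 : ∫ a in opK e, Dt e a ^ s * ⟪a, θ⟫_ℝ = 0 := by
    rw [← integral_indicator (opK_closed e).measurableSet]
    set g := (opK e).indicator fun a => Dt e a ^ s * ⟪a, θ⟫_ℝ with hg
    have h2 : ∀ a, g (-a) = -g a := by
      intro a
      by_cases ha : a ∈ opK e
      · rw [hg, Set.indicator_of_mem ha, Set.indicator_of_mem (neg_mem_opK.2 ha), Dt_neg,
          inner_neg_left]
        ring
      · rw [hg, Set.indicator_of_notMem ha, Set.indicator_of_notMem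
          (fun h => ha (neg_mem_opK.1 h)), neg_zero]
    have h3 : ∫ a, g (-a) = ∫ a, g a := integral_neg_eq_self g volume
    simp_rw [h2] at h3
    rw [integral_neg] at h3
    linarith
  rw [h1, mul_zero]

/-- The main inequality: with `β` bounding the second moments,
`Var f ≤ 3 β ∫ |∇f|²`. -/
theorem ON.main (h : ON e) (ht : TC e) (hs : 0 ≤ s) (β : ℝ)
    (hβ : ∀ θ : EuclideanSpace ℝ (Fin n), ∫ a, ⟪a, θ⟫_ℝ ^ 2 ∂(mu e s) ≤ β * ‖θ‖ ^ 2)
    {f : EuclideanSpace ℝ (Fin n) → ℝ} {C : NNReal} (hf : LipschitzWith C f) :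
    ∫ a, (f a - ∫ b, f b ∂(mu e s)) ^ 2 ∂(mu e s)
      ≤ 3 * β * ∫ a, ‖fderiv ℝ f a‖ ^ 2 ∂(mu e s) := by
  have hprob := h.mu_prob hs
  rcases Nat.eq_zero_or_pos n with hn | hn
  · subst hn
    have h1 : ∀ a, f a = f 0 := fun a => congrArg f (Subsingleton.elim a 0)
    have h2 : ∫ b, f b ∂(mu e s) = f 0 := by
      simp_rw [h1]; simp
    have h3 : ∀ a, fderiv ℝ f a = 0 := by
      intro a
      have : f = fun _ => f 0 := by ext b; exact h1 b
      rw [this]; simp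
    simp_rw [h2, h1, h3]
    simp
  · obtain ⟨ρ, x, hρ, hx1, hx, hR⟩ := h.exists_min hn
    have D := h.data ht hs
    have hσ : (0 : ℝ) ≤ 2 * s := by positivity
    have hr : 0 < ρ + 2 * s := by positivity
    have h1 := D.poincare ρ hρ.le hσ hr hR hf
    have h2 := D.cov h ρ hρ.le hσ hx1 hx β (fun θ => by
      have h3 := hβ (WithLp.toLp 2 θ)
      simp_rw [inner_coord] at h3
      rwa [toLp_norm_sq] at h3)
    have h3 : ∫ a, Gq e a (pd f a) (pd f a) ∂(mu e s) ≤ 2 * ∫ a, ‖fderiv ℝ f a‖ ^ 2 ∂(mu e s) := by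
      have hm : Measurable fun a => ‖fderiv ℝ f a‖ ^ 2 := by
        have : (fun a => ‖fderiv ℝ f a‖ ^ 2) = fun a => ∑ i, pd f a i ^ 2 := by
          ext a; exact (sum_sq_pd f a).symm
        rw [this]
        exact Finset.measurable_sum _ fun i _ => (pd_measurable f i).pow_const 2
      have hb : ∀ a, ‖fderiv ℝ f a‖ ≤ C := fun a => norm_fderiv_le_of_lipschitz ℝ hf
      have i2 : Integrable (fun a => ‖fderiv ℝ f a‖ ^ 2) (mu e s) :=
        D.integ_bdd hm ((C : ℝ) ^ 2) fun a _ => by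
          rw [Real.norm_eq_abs, abs_of_nonneg (sq_nonneg _)]
          exact pow_le_pow_left₀ (norm_nonneg _) (hb a) 2
      obtain ⟨B', hB'⟩ := D.Gq_bound C
      have i1 : Integrable (fun a => Gq e a (pd f a) (pd f a)) (mu e s) :=
        D.integ_bdd (Gq_measurable (pd_measurable f) (pd_measurable f)) B'
          fun a ha => hB' a ha _ _ (pd_abs_le hf a) (pd_abs_le hf a)
      rw [← integral_const_mul]
      refine integral_mono_ae i1 (i2.const_mul 2) ?_
      filter_upwards [D.supp] with a ha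
      have := D.Gle a ha (pd f a)
      rwa [sum_sq_pd] at this
    have h4 : 0 ≤ ∫ a, ‖fderiv ℝ f a‖ ^ 2 ∂(mu e s) := integral_nonneg fun a => sq_nonneg _
    have h5 : 1 / (ρ + 2 * s) ≤ 3 / 2 * β := by
      rw [div_le_iff₀ hr]; exact h2
    calc _ ≤ (1 / (ρ + 2 * s)) * ∫ a, Gq e a (pd f a) (pd f a) ∂(mu e s) := h1
      _ ≤ (1 / (ρ + 2 * s)) * (2 * ∫ a, ‖fderiv ℝ f a‖ ^ 2 ∂(mu e s)) :=
          mul_le_mul_of_nonneg_left h3 (by positivity)
      _ ≤ (3 / 2 * β) * (2 * ∫ a, ‖fderiv ℝ f a‖ ^ 2 ∂(mu e s)) :=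
          mul_le_mul_of_nonneg_right h5 (by positivity)
      _ = _ := by ring

/-- The maximal second moment. -/
lemma ON.exists_max (h : ON e) (hs : 0 ≤ s) (hn : 0 < n) :
    ∃ η : EuclideanSpace ℝ (Fin n), ‖η‖ = 1 ∧ ∀ θ : EuclideanSpace ℝ (Fin n),
      ∫ a, ⟪a, θ⟫_ℝ ^ 2 ∂(mu e s) ≤ (∫ a, ⟪a, η⟫_ℝ ^ 2 ∂(mu e s)) * ‖θ‖ ^ 2 := by
  have hprob := h.mu_prob hs
  have : Nonempty (Fin n) := ⟨⟨0, hn⟩⟩
  have hint : ∀ i j, Integrable (fun a : EuclideanSpace ℝ (Fin n) => a i * a j) (mu e s) := by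
    intro i j
    obtain ⟨B, hB⟩ := h.opK_compact.exists_bound_of_continuousOn
      (show Continuous fun a : EuclideanSpace ℝ (Fin n) => a i * a j by fun_prop).continuousOn
    refine Integrable.of_bound (Continuous.aestronglyMeasurable (by fun_prop)) B ?_
    filter_upwards [mu_supp e s] with a ha using hB a ha
  have hV : ∀ θ : EuclideanSpace ℝ (Fin n), ∫ a, ⟪a, θ⟫_ℝ ^ 2 ∂(mu e s)
      = ∑ i, ∑ j, (∫ a, a i * a j ∂(mu e s)) * (θ i * θ j) := by
    intro θ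
    have e1 : ∀ a : EuclideanSpace ℝ (Fin n), ⟪a, θ⟫_ℝ ^ 2
        = ∑ i, ∑ j, (a i * a j) * (θ i * θ j) := by
      intro a
      rw [inner_coord, sq, Finset.sum_mul_sum]
      exact Finset.sum_congr rfl fun i _ => Finset.sum_congr rfl fun j _ => by ring
    simp_rw [e1]
    rw [integral_finsetSum _ fun i _ => integrable_finsetSum _ fun j _ => (hint i j).mul_const _]
    refine Finset.sum_congr rfl fun i _ => ?_
    rw [integral_finsetSum _ fun j _ => (hint i j).mul_const _]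
    exact Finset.sum_congr rfl fun j _ => integral_mul_const _ _
  have hcont : Continuous fun θ : EuclideanSpace ℝ (Fin n) => ∫ a, ⟪a, θ⟫_ℝ ^ 2 ∂(mu e s) := by
    simp_rw [hV]
    fun_prop
  obtain ⟨η, hη, hmax⟩ := (isCompact_sphere (0 : EuclideanSpace ℝ (Fin n)) 1).exists_isMaxOn
    (NormedSpace.sphere_nonempty.2 zero_le_one) hcont.continuousOn
  refine ⟨η, mem_sphere_zero_iff_norm.1 hη, fun θ => ?_⟩
  rcases eq_or_ne θ 0 with h0 | h0
  · subst h0; simp
  · have hpos : 0 < ‖θ‖ := norm_pos_iff.2 h0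
    have h1 : (‖θ‖⁻¹ • θ) ∈ sphere (0 : EuclideanSpace ℝ (Fin n)) 1 := by
      rw [mem_sphere_zero_iff_norm, norm_smul, norm_inv, norm_norm, inv_mul_cancel₀ hpos.ne']
    have h2 := hmax h1
    simp only [Set.mem_ofPred_eq] at h2
    have h3 : ∫ a, ⟪a, ‖θ‖⁻¹ • θ⟫_ℝ ^ 2 ∂(mu e s)
        = (‖θ‖⁻¹) ^ 2 * ∫ a, ⟪a, θ⟫_ℝ ^ 2 ∂(mu e s) := by
      rw [← integral_const_mul]
      refine integral_congr_ae (Eventually.of_forall fun a => ?_)
      simp only [inner_smul_right]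
      ring
    rw [h3] at h2
    have h4 : ∫ a, ⟪a, θ⟫_ℝ ^ 2 ∂(mu e s)
        = ‖θ‖ ^ 2 * ((‖θ‖⁻¹) ^ 2 * ∫ a, ⟪a, θ⟫_ℝ ^ 2 ∂(mu e s)) := by
      field_simp
    rw [h4, mul_comm (∫ a, ⟪a, η⟫_ℝ ^ 2 ∂(mu e s))]
    exact mul_le_mul_of_nonneg_left h2 (by positivity)

end Pool.Agent.Lib.MP_8d00da_gt.h30
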