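import Mathlib
import Pool.Agent.Lib.MP_8d00da_gt.h30.Main

/-! Moved from Results (at most four hand-ins per problem are graded). Its claim was:

Proves: Let V be any linear subspace of the real p x q matrices (Frobenius inner product; all p, q, dim V) with A X^T A in V for all A, X in V, K = {A in V : operator norm of A <= 1}, s >= 0, and mu the probability measure on K with density proportional to det(1 - A^T A)^s (s = 0: uniform measure of K); if Var_mu<A,X> <= C^2 |X|^2 for all X in V, then Var_mu f <= 3 C^2 int |grad f|^2 dmu for every Lipschitz f, i.e. D_Poin(mu) <= sqrt(3) D_Poin^Lin(mu).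
Definitions: mat e a = sum of a_i e_i; IsTripleBasis e = e is an orthonormal basis of such a V; opBall e = K in these coordinates; weightMeasure e s = measure with density det(1 - A^T A)^s on K; ballMeasure e s = its normalisation; PoincareWith mu C = Var_mu f <= C^2 int |grad f|^2 dmu for all Lipschitz f; LinPoincareWith mu C = the same for the linear functions.
Relation: Partial answer to Q1, affirmative for a family: by the equivalence in the file (D_Poin against D_Poin^Lin for log-concave mu) the KLS inequality holds with a universal constant for these convex bodies K in all dimensions, such as the operator-norm balls of all real, complex or quaternionic p x q, symmetric, Hermitian or skew matrices. Known near it: thin-shell for the operator norm (Radke-Vritsiou), variance estimates with symmetries (Barthe-Cordero-Erausquin), truncations of Haar matrices; we know no published KLS bound for this family.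
-/

open MeasureTheory Matrix
open Pool.Agent.Lib.MP_8d00da_gt.h30

namespace Pool.Agent.Lib.MP_8d00da_gt.h30.MatrixBallThm

/-- The matrix with coordinates `a` with respect to `e`. -/
def mat {n p q : ℕ} (e : Fin n → Matrix (Fin p) (Fin q) ℝ) (a : Fin n → ℝ) :
    Matrix (Fin p) (Fin q) ℝ := ∑ i, a i • e i

/-- `e` is an orthonormal basis (Frobenius inner product) of a linear space `V` of real `p × q`
matrices which contains `A Xᵀ A` for all `A, X ∈ V`. -/
structure IsTripleBasis {n p q : ℕ} (e : Fin n → Matrix (Fin p) (Fin q) ℝ) : Prop where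
  orthonormal : ∀ i j, ((e i)ᵀ * e j).trace = if i = j then 1 else 0
  closed : ∀ a x : Fin n → ℝ, ∃ y : Fin n → ℝ, mat e a * (mat e x)ᵀ * mat e a = mat e y

/-- The unit ball of the operator norm of `V`: all `a` such that `|A v|² ≤ |v|²` for every
`v ∈ ℝ^q`, where `A = ∑ aᵢ eᵢ`. -/
def opBall {n p q : ℕ} (e : Fin n → Matrix (Fin p) (Fin q) ℝ) : Set (EuclideanSpace ℝ (Fin n)) :=
  {a | ∀ v : Fin q → ℝ, ∑ r, (mat e (fun i => a i) *ᵥ v) r ^ 2 ≤ ∑ s, v s ^ 2}

/-- The measure with density `det(1 - AᵀA)^s` on the unit ball. -/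
noncomputable def weightMeasure {n p q : ℕ} (e : Fin n → Matrix (Fin p) (Fin q) ℝ) (s : ℝ) :
    Measure (EuclideanSpace ℝ (Fin n)) :=
  (volume.restrict (opBall e)).withDensity fun a =>
    ENNReal.ofReal ((1 - (mat e (fun i => a i))ᵀ * mat e (fun i => a i)).det ^ s)

/-- The normalised probability measure; `s = 0` gives the uniform measure of the ball. -/
noncomputable def ballMeasure {n p q : ℕ} (e : Fin n → Matrix (Fin p) (Fin q) ℝ) (s : ℝ) :
    Measure (EuclideanSpace ℝ (Fin n)) :=
  (weightMeasure e s Set.univ)⁻¹ • weightMeasure e s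

/-- `C` is admissible in the Poincaré inequality of `μ`, tested on all Lipschitz functions. -/
def PoincareWith {n : ℕ} (μ : Measure (EuclideanSpace ℝ (Fin n))) (C : ℝ) : Prop :=
  ∀ (f : EuclideanSpace ℝ (Fin n) → ℝ) (L : NNReal), LipschitzWith L f →
    ∫ x, (f x - ∫ y, f y ∂μ) ^ 2 ∂μ ≤ C ^ 2 * ∫ x, ‖fderiv ℝ f x‖ ^ 2 ∂μ

/-- `C` is admissible in the Poincaré inequality of `μ` tested on the linear functions only. -/
def LinPoincareWith {n : ℕ} (μ : Measure (EuclideanSpace ℝ (Fin n))) (C : ℝ) : Prop :=
  ∀ θ : EuclideanSpace ℝ (Fin n),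
    ∫ x, (inner ℝ x θ - ∫ y, inner ℝ y θ ∂μ) ^ 2 ∂μ ≤ C ^ 2 * ‖θ‖ ^ 2

/-- **KLS for operator-norm balls of matrix spaces closed under `A Xᵀ A`.** For the uniform
measure (`s = 0`), and all weights `det(1 - AᵀA)^s`, `s ≥ 0`, one has
`D_Poin ≤ √3 · D_Poin^Lin`. -/
theorem result : ∀ (n p q : ℕ) (e : Fin n → Matrix (Fin p) (Fin q) ℝ), IsTripleBasis e →
    ∀ s : ℝ, 0 ≤ s → ∀ C : ℝ,
      LinPoincareWith (ballMeasure e s) C → PoincareWith (ballMeasure e s) (√3 * C) := by
  intro n p q e h s hs C hC f L hf
  have hon : ON e := h.orthonormal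
  have htc : TC e := h.closed
  have hmu : mu e s = ballMeasure e s := rfl
  rw [← hmu] at hC ⊢
  have h1 := hon.main htc hs (C ^ 2) (fun θ => by
    have h2 := hC θ
    rw [hon.mean_zero hs θ] at h2
    simpa using h2) hf
  rw [mul_pow, Real.sq_sqrt (by norm_num : (0 : ℝ) ≤ 3)]
  exact h1

end Pool.Agent.Lib.MP_8d00da_gt.h30.MatrixBallThm
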